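import Pool.Agent.Work.MP_a2bf38_gt.Q.Exh

/-!
# Calculus for the Levi form
-/

open scoped ContDiff Topology
open Set Filter Pool.Agent.ToricKRF Pool.Agent.ToricKRF.G Pool.Agent.KRFS

namespace Pool.Agent.KRFCh.Cp

variable {n : ℕ} {f g : Cn n → ℝ} {z : Cn n}

/-- `|∂f(u)|^2` -/
noncomputable def dsq (f : Cn n → ℝ) (u z : Cn n) : ℝ := ((D u f z) ^ 2 + (D (J u) f z) ^ 2) / 4

theorem dsq_nonneg (f : Cn n → ℝ) (u z : Cn n) : 0 ≤ dsq f u z := by
  unfold dsq
  positivity

theorem dsq_congr (h : f =ᶠ[𝓝 z] g) (u : Cn n) : dsq f u z = dsq g u z := by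
  unfold dsq
  rw [LC.D_congr _ h, LC.D_congr _ h]

/-- the Levi form of a function of a function -/
theorem levz_fun {φ : ℝ → ℝ} (hφ : ContDiffAt ℝ 2 φ (g z)) (hg : ContDiffAt ℝ 2 g z) (u : Cn n) :
    levz (fun x => φ (g x)) u z =
      deriv φ (g z) * levz g u z + deriv (deriv φ) (g z) * dsq g u z := by
  have hd : DifferentiableAt ℝ g z := hg.differentiableAt (by norm_num)
  have key : ∀ w : Cn n, D w (D w fun x => φ (g x)) z =
      deriv φ (g z) * D w (D w g) z + deriv (deriv φ) (g z) * (D w g z) ^ 2 := by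
    intro w
    have h1 : D w (fun x => φ (g x)) =ᶠ[𝓝 z] fun x => deriv φ (g x) * D w g x := by
      have h2 : ∀ᶠ x in 𝓝 z, DifferentiableAt ℝ φ (g x) :=
        hg.continuousAt.eventually ((hφ.eventually (by simp)).mono fun y hy =>
          hy.differentiableAt (by norm_num))
      filter_upwards [h2, LC.evDiff hg] with x h2 h3
      exact D_comp h3 h2.hasDerivAt w
    have h4 : ContDiffAt ℝ 1 (deriv φ) (g z) := by
      have h5 : ContDiffAt ℝ 1 (fun x => fderiv ℝ φ x (1 : ℝ)) (g z) :=
        (hφ.fderiv_right (m := 1) (by norm_num)).clm_apply contDiffAt_const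
      exact h5
    have h6 : DifferentiableAt ℝ (deriv φ) (g z) := h4.differentiableAt (by norm_num)
    have h7 : DifferentiableAt ℝ (fun x => deriv φ (g x)) z := h6.comp z hd
    have h8 : DifferentiableAt ℝ (D w g) z :=
      (LC.contDiffAt_D w hg (m := 1) (by norm_num)).differentiableAt (by norm_num)
    rw [LC.D_congr w h1, LC.D_mul w h7 h8, D_comp hd h6.hasDerivAt w]
    ring
  unfold levz dsq
  rw [key, key]
  ring

theorem dsq_fun {φ : ℝ → ℝ} (hφ : DifferentiableAt ℝ φ (g z)) (hg : DifferentiableAt ℝ g z)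
    (u : Cn n) : dsq (fun x => φ (g x)) u z = deriv φ (g z) ^ 2 * dsq g u z := by
  unfold dsq
  rw [D_comp hg hφ.hasDerivAt, D_comp hg hφ.hasDerivAt]
  ring

theorem levz_log (hf : ContDiffAt ℝ 2 f z) (h0 : f z ≠ 0) (u : Cn n) :
    levz (fun x => Real.log (f x)) u z = levz f u z / f z - dsq f u z / f z ^ 2 := by
  unfold levz dsq
  rw [LC.D_D_log _ _ hf h0, LC.D_D_log _ _ hf h0]
  field_simp
  ring

theorem dsq_log (hf : DifferentiableAt ℝ f z) (h0 : f z ≠ 0) (u : Cn n) :
    dsq (fun x => Real.log (f x)) u z = dsq f u z / f z ^ 2 := by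
  unfold dsq
  rw [LC.D_log _ hf h0, LC.D_log _ hf h0]
  field_simp

theorem levz_mul (hf : ContDiffAt ℝ 2 f z) (hg : ContDiffAt ℝ 2 g z) (u : Cn n) :
    levz (fun x => f x * g x) u z = f z * levz g u z + g z * levz f u z +
      (D u f z * D u g z + D (J u) f z * D (J u) g z) / 2 := by
  unfold levz
  rw [LC.D_D_mul _ _ hf hg, LC.D_D_mul _ _ hf hg]
  ring

/-- at a minimum the Levi form is nonnegative -/
theorem levz_nonneg_of_isLocalMin (hf : ContDiffAt ℝ 2 f z) (h : IsLocalMin f z) (u : Cn n) :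
    0 ≤ levz f u z := by
  have key : ∀ w : Cn n, 0 ≤ D w (D w f) z := by
    intro w
    obtain ⟨h1, -, h3⟩ := line_facts w hf.neg
    have h4 : deriv (deriv fun s : ℝ => -f (z + s • w)) 0 ≤ 0 := by
      apply deriv_deriv_nonpos_of_isLocalMax h1
      have hc : Tendsto (fun s : ℝ => z + s • w) (𝓝 0) (𝓝 z) := by
        have : Continuous fun s : ℝ => z + s • w := by fun_prop
        simpa using this.tendsto 0
      filter_upwards [hc.eventually h] with s hs
      simpa using hs
    rw [h3] at h4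
    have h5 : fderiv ℝ (fun q => fderiv ℝ (fun x => -f x) q w) z w = -D w (D w f) z := by
      have h6 : (fun q => fderiv ℝ (fun x => -f x) q w) = fun q => -D w f q := by
        funext q
        rw [fderiv_fun_neg]
        rfl
      rw [h6, fderiv_fun_neg]
      rfl
    linarith
  unfold levz
  have h1 := key u
  have h2 := key (J u)
  linarith

theorem D_eq_zero_of_isLocalMin (h : IsLocalMin f z) (u : Cn n) : D u f z = 0 := by
  unfold D
  rw [h.fderiv_eq_zero]
  rfl

theorem contDiffAt_sum {ι : Type*} {s : Finset ι} {F : ι → Cn n → ℝ} {m : WithTop ℕ∞}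
    (hF : ∀ i ∈ s, ContDiffAt ℝ m (F i) z) : ContDiffAt ℝ m (fun x => ∑ i ∈ s, F i x) z :=
  ContDiffAt.sum hF

theorem levz_sum {ι : Type*} (s : Finset ι) {F : ι → Cn n → ℝ}
    (hF : ∀ i ∈ s, ContDiffAt ℝ 2 (F i) z) (u : Cn n) :
    levz (fun x => ∑ i ∈ s, F i x) u z = ∑ i ∈ s, levz (F i) u z := by
  classical
  induction s using Finset.induction_on with
  | empty => simp [Bd.levz_const]
  | insert a s ha ih =>
    rw [Finset.sum_insert ha]
    have h1 : (fun x => ∑ i ∈ insert a s, F i x) = fun x => F a x + ∑ i ∈ s, F i x := by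
      funext x
      rw [Finset.sum_insert ha]
    rw [h1, Bd.levz_add (hF a (by simp)) (contDiffAt_sum fun i hi => hF i (by simp [hi])),
      ih fun i hi => hF i (by simp [hi])]

/-- The Levi form of the logarithm of a sum of nonnegative functions. -/
theorem levz_log_sum' {ι : Type*} (s : Finset ι) {F : ι → Cn n → ℝ}
    (hF : ∀ i ∈ s, ContDiffAt ℝ 2 (F i) z) (h0' : ∀ i ∈ s, ∀ᶠ x in 𝓝 z, 0 ≤ F i x)
    (hpos : 0 < ∑ i ∈ s, F i z) (u : Cn n) {m : ι → ℝ}
    (hm : ∀ i ∈ s, F i z ≠ 0 → m i ≤ levz (fun x => Real.log (F i x)) u z) :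
    ∑ i ∈ s, F i z / (∑ j ∈ s, F j z) * m i ≤
      levz (fun x => Real.log (∑ i ∈ s, F i x)) u z := by
  classical
  have h0 : ∀ i ∈ s, 0 ≤ F i z := fun i hi => (h0' i hi).self_of_nhds
  have hs : ContDiffAt ℝ 2 (fun x => ∑ i ∈ s, F i x) z := contDiffAt_sum hF
  rw [levz_log hs hpos.ne', levz_sum s hF]
  set S : ℝ := ∑ j ∈ s, F j z with hS
  -- pointwise lower bound
  have h1 : ∀ i ∈ s, F i z * m i + (if F i z = 0 then 0 else dsq (F i) u z / F i z) ≤
      levz (F i) u z := by
    intro i hi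
    by_cases hz : F i z = 0
    · rw [if_pos hz, hz, zero_mul, zero_add]
      refine levz_nonneg_of_isLocalMin (hF i hi) ?_ u
      filter_upwards [h0' i hi] with x hx
      rw [hz]
      exact hx
    · rw [if_neg hz]
      have h2 := hm i hi hz
      rw [levz_log (hF i hi) hz] at h2
      have h3 : 0 < F i z := lt_of_le_of_ne (h0 i hi) (Ne.symm hz)
      have h4 := mul_le_mul_of_nonneg_left h2 h3.le
      have h5 : F i z * (levz (F i) u z / F i z - dsq (F i) u z / F i z ^ 2) =
          levz (F i) u z - dsq (F i) u z / F i z := by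
        field_simp
      rw [h5] at h4
      linarith
  -- Cauchy-Schwarz
  have hcs : ∀ w : Cn n, (D w (fun x => ∑ i ∈ s, F i x) z) ^ 2 ≤
      (∑ i ∈ s, if F i z = 0 then 0 else (D w (F i) z) ^ 2 / F i z) * S := by
    intro w
    have h2 : D w (fun x => ∑ i ∈ s, F i x) z = ∑ i ∈ s, D w (F i) z :=
      D_sum s (fun i hi => (hF i hi).differentiableAt (by norm_num)) w
    rw [h2]
    refine Finset.sum_sq_le_sum_mul_sum_of_sq_le_mul s (fun i hi => ?_) (fun i hi => h0 i hi)
      fun i hi => le_of_eq ?_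
    · split_ifs with h
      · exact le_rfl
      · exact div_nonneg (sq_nonneg _) (h0 i hi)
    · by_cases hz : F i z = 0
      · have h3 : D w (F i) z = 0 := by
          refine D_eq_zero_of_isLocalMin ?_ w
          filter_upwards [h0' i hi] with x hx
          rw [hz]
          exact hx
        rw [h3, hz]
        simp
      · rw [if_neg hz]
        field_simp
  have h2 : dsq (fun x => ∑ i ∈ s, F i x) u z ≤
      (∑ i ∈ s, if F i z = 0 then 0 else dsq (F i) u z / F i z) * S := by
    have h3 := hcs u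
    have h4 := hcs (J u)
    have h5 : (∑ i ∈ s, if F i z = 0 then 0 else dsq (F i) u z / F i z) =
        ((∑ i ∈ s, if F i z = 0 then 0 else (D u (F i) z) ^ 2 / F i z) +
          ∑ i ∈ s, if F i z = 0 then 0 else (D (J u) (F i) z) ^ 2 / F i z) / 4 := by
      rw [← Finset.sum_add_distrib, Finset.sum_div]
      refine Finset.sum_congr rfl fun i _ => ?_
      split_ifs with h
      · simp
      · unfold dsq
        field_simp
    rw [h5]
    unfold dsq
    linarith
  have h3 : dsq (fun x => ∑ i ∈ s, F i x) u z / S ^ 2 ≤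
      (∑ i ∈ s, if F i z = 0 then 0 else dsq (F i) u z / F i z) / S := by
    rw [div_le_div_iff₀ (by positivity) hpos]
    nlinarith
  have h4 : (∑ i ∈ s, (F i z * m i + (if F i z = 0 then 0 else dsq (F i) u z / F i z))) / S ≤
      (∑ i ∈ s, levz (F i) u z) / S := by
    gcongr with i hi
    exact h1 i hi
  rw [Finset.sum_add_distrib, add_div] at h4
  have h5 : ∑ i ∈ s, F i z / S * m i = (∑ i ∈ s, F i z * m i) / S := by
    rw [Finset.sum_div]
    refine Finset.sum_congr rfl fun i _ => ?_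
    ring
  rw [h5]
  linarith

end Pool.Agent.KRFCh.Cp
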