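import Pool.Agent.Work.MP_a2bf38_gt.Ch.Defs
import Pool.Agent.Work.MP_a2bf38_gt.Q.HormG
import Pool.Agent.Work.MP_a2bf38_gt.Z.HolMean
import Pool.Agent.Work.MP_a2bf38_gt.I.GapA
import Pool.Agent.Work.MP_a2bf38_gt.I.PathOf

/-!
# Theorem G on `ℂ^L`
-/

open scoped ContDiff Topology
open Set MeasureTheory Pool.Agent.ToricKRF Pool.Agent.ToricKRF.G Pool.Agent.KRFS Pool.Agent.KRFF
  Pool.Agent.KRFQ Pool.Agent.KRFZ

namespace Pool.Agent.KRFCh

namespace HC

variable {L : ℕ}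

/-- the identity chart of `ℂ^L` -/
noncomputable def idc (L : ℕ) : Unit → OpenPartialHomeomorph (Cn L) (Cn L) :=
  fun _ => OpenPartialHomeomorph.refl _

theorem tr_idc (c c' : Unit) : tr (idc L) c c' = id := rfl

theorem dom_idc (c c' : Unit) : dom (idc L) c c' = univ := by
  ext z
  simp [dom, idc]

theorem fderiv_id_apply (z u : Cn L) : fderiv ℝ (id : Cn L → Cn L) z u = u := by
  rw [fderiv_id]
  rfl

theorem holOn_id : HolOn (id : Cn L → Cn L) univ :=
  ⟨contDiff_id.contDiffOn, fun z _ u => by rw [fderiv_id_apply, fderiv_id_apply]⟩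

theorem l2d {ρ : Cn L → ℝ} (hρ : ContDiff ℝ ∞ ρ) :
    L2D (idc L) univ (fun _ z => Real.exp (-ρ z)) (fun _ => nsq) where
  sub _ := subset_univ _
  cover p _ := ⟨(), mem_univ p⟩
  holo c c' := by
    rw [tr_idc, dom_idc]
    exact holOn_id
  w_smooth _ := (Real.contDiff_exp.comp hρ.neg).contDiffOn
  w_pos _ z _ := Real.exp_pos _
  w_compat c c' z _ := by
    rw [tr_idc, fderiv_id]
    have h1 : (ContinuousLinearMap.id ℝ (Cn L)).det = 1 := by
      change LinearMap.det (ContinuousLinearMap.id ℝ (Cn L) : Cn L →ₗ[ℝ] Cn L) = 1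
      exact LinearMap.det_id
    rw [h1]
    simp
  w_lev c c' z _ u := by
    rw [tr_idc, fderiv_id_apply]
    rfl
  g_smooth _ := Gap.contDiff_nsq'.contDiffOn
  g_pos _ z _ u hu := by
    rw [Gap.levz_nsq']
    exact Gap.nsq_pos hu
  g_compat c c' z _ u := by
    rw [tr_idc, fderiv_id_apply]
    rfl

/-- the measure `exp (-ρ)` -/
noncomputable def mu (ρ : Cn L → ℝ) : Measure (Cn L) :=
  volume.withDensity fun z => ENNReal.ofReal (Real.exp (-ρ z))

theorem isDens (ρ : Cn L → ℝ) : IsDens (idc L) (fun _ z => Real.exp (-ρ z)) (mu ρ) where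
  eq c := by
    simp [idc, mu]

/-- the exhaustion function -/
noncomputable def ex (z : Cn L) : ℝ := √(1 + nsq z)

theorem one_add_pos (z : Cn L) : 0 < 1 + nsq z := by
  have := Gap.nsq_nonneg z
  linarith

theorem contDiff_ex : ContDiff ℝ ∞ (ex (L := L)) := by
  have h1 : ContDiff ℝ ∞ fun z : Cn L => 1 + nsq z := contDiff_const.add Gap.contDiff_nsq'
  exact h1.sqrt fun z => (one_add_pos z).ne'

theorem D_ex (u z : Cn L) : D u ex z = ABP.ip z u / √(1 + nsq z) := by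
  have h1 : HasFDerivAt (fun z : Cn L => 1 + nsq z) (fderiv ℝ nsq z) z :=
    ((Gap.contDiff_nsq'.differentiable (by simp) z).hasFDerivAt).const_add 1
  have h2 := (h1.sqrt (one_add_pos z).ne').fderiv
  unfold D ex
  rw [h2]
  have h3 := Pool.Agent.KRFX.NC.D_nsq z u
  unfold D at h3
  simp only [smul_apply, smul_eq_mul, h3]
  have h4 : 0 < √(1 + nsq z) := Real.sqrt_pos.2 (one_add_pos z)
  field_simp

theorem D_ex_sq (u z : Cn L) : (D u ex z) ^ 2 ≤ nsq u := by
  rw [D_ex, div_pow, Real.sq_sqrt (one_add_pos z).le, div_le_iff₀ (one_add_pos z)]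
  have h1 := ABP.ip_sq_le z u
  have h2 := Gap.nsq_nonneg u
  nlinarith

theorem isCompact_nsq_le (R : ℝ) : IsCompact {z : Cn L | nsq z ≤ R} := by
  refine Metric.isCompact_of_isClosed_isBounded (isClosed_le Gap.contDiff_nsq'.continuous
    continuous_const) ((Metric.isBounded_closedBall (x := 0) (r := √|R|)).subset fun z hz => ?_)
  rw [mem_closedBall_zero_iff]
  exact (norm_le_sqrt_nsq z).trans (Real.sqrt_le_sqrt (le_trans hz (le_abs_self R)))

theorem isExh : IsExh (idc L) univ (fun _ => nsq) (ex (L := L)) where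
  smooth _ := contDiff_ex.contDiffOn
  cpt R := by
    refine (isCompact_nsq_le (R ^ 2)).of_isClosed_subset ?_ ?_
    · simp only [mem_univ, true_and]
      exact isClosed_le contDiff_ex.continuous continuous_const
    · rintro z ⟨-, hz⟩
      change nsq z ≤ R ^ 2
      have h1 : 0 ≤ ex z := Real.sqrt_nonneg _
      have h2 : ex z ^ 2 = 1 + nsq z := Real.sq_sqrt (one_add_pos z).le
      nlinarith
  grad c z _ u := by
    change ((D u ex z) ^ 2 + (D (J u) ex z) ^ 2) / 4 ≤ levz nsq u z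
    rw [Gap.levz_nsq']
    have h1 := D_ex_sq u z
    have h2 := D_ex_sq (J u) z
    rw [Gap.nsq_J] at h2
    have h3 := Gap.nsq_nonneg u
    linarith

end HC

open HC in
/-- **Theorem G on `ℂ^L`**, for a semipositive form `k`. -/
theorem HC.horm_form {L : ℕ} {ρ k : Cn L → ℝ} (hρ : ContDiff ℝ ∞ ρ)
    (hk : ∀ z u, 0 ≤ levz k u z) (hcurv : ∀ z u, levz k u z ≤ levz ρ u z)
    {χ : Cn L → ℂ} (hχ : ContDiff ℝ ∞ χ) (hcs : HasCompactSupport χ) {B : Cn L → ℝ}
    (hB0 : ∀ z, 0 ≤ B z) (hBi : Integrable fun z => B z * Real.exp (-ρ z))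
    (hB : ∀ z u, ‖∑ j, dzb j χ z * (starRingEnd ℂ) (cc u j)‖ ^ 2 ≤ B z * levz k u z) :
    ∃ b : Cn L → ℂ, ContDiff ℝ ∞ b ∧ (∀ j z, dzb j b z = 0) ∧
      Integrable (fun z => ‖b z‖ ^ 2 * Real.exp (-ρ z)) ∧
      Integrable (fun z => ‖χ z - b z‖ ^ 2 * Real.exp (-ρ z)) ∧
      ∫ z, ‖χ z - b z‖ ^ 2 * Real.exp (-ρ z) ≤ ∫ z, B z * Real.exp (-ρ z) := by
  have hd : ∀ z, (ENNReal.ofReal (Real.exp (-ρ z))).toReal = Real.exp (-ρ z) := fun z =>
    ENNReal.toReal_ofReal (Real.exp_pos _).le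
  have hm : Measurable fun z => ENNReal.ofReal (Real.exp (-ρ z)) :=
    (Real.measurable_exp.comp hρ.continuous.measurable.neg).ennreal_ofReal
  have hI : ∀ F : Cn L → ℝ, ∫ z, F z ∂(mu ρ) = ∫ z, F z * Real.exp (-ρ z) := by
    intro F
    rw [mu, integral_withDensity_eq_integral_toReal_smul hm (by simp)]
    refine integral_congr_ae (Filter.Eventually.of_forall fun z => ?_)
    simp only [hd, smul_eq_mul]
    ring
  have hJ : ∀ F : Cn L → ℝ, Integrable F (mu ρ) ↔ Integrable fun z => F z * Real.exp (-ρ z) := by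
    intro F
    rw [mu, integrable_withDensity_iff hm (by simp)]
    simp only [hd]
  have h2 : MemLp χ 2 (mu ρ) := by
    have : IsLocallyFiniteMeasure (mu ρ) := by
      refine IsLocallyFiniteMeasure.withDensity_ofReal ?_
      exact Real.continuous_exp.comp hρ.continuous.neg
    exact hχ.continuous.memLp_of_hasCompactSupport hcs
  obtain ⟨b, hb, hb2, hle⟩ := (isDens ρ).hormander (l2d hρ) (ψ := ex) isExh (fun _ => ()) (by
    intro z _
    simp [idc]) (by simp) (k := fun _ => k) (c₀ := 1) one_pos (fun _ z _ u => hk z u)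
    (fun _ z _ u => by simpa using hcurv z u) (χ := χ) (fun _ => hχ.contDiffOn) h2
    (B := B) hB0 ((hJ B).2 hBi) (fun _ z _ u => hB z u)
  have hcd : ContDiff ℝ ∞ b := by
    have := (hb ()).1
    rwa [idc, OpenPartialHomeomorph.refl_target, contDiffOn_univ] at this
  refine ⟨b, hcd, fun j z => (hb ()).2 j z (mem_univ _), ?_, ?_, ?_⟩
  · rw [← hJ fun z => ‖b z‖ ^ 2]
    exact hb2.integrable_norm_pow (by norm_num)
  · rw [← hJ fun z => ‖χ z - b z‖ ^ 2]
    exact (h2.sub hb2).integrable_norm_pow (by norm_num)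
  · rw [← hI fun z => ‖χ z - b z‖ ^ 2, ← hI]
    simpa using hle

theorem HC.levz_log_one_add_nonneg {L : ℕ} (t v : Cn L) :
    0 ≤ levz (fun t => Real.log (1 + nsq t)) v t := by
  have h1 := Pool.Agent.KRFZ.HM.levz_logpole (0 : Cn L) one_ne_zero t v
  have h2 : (fun y : Cn L => Real.log (nsq (y - 0) + 1 ^ 2)) =
      fun t => Real.log (1 + nsq t) := by
    funext t
    rw [sub_zero, one_pow, add_comm]
  rwa [h2] at h1

/-- **Theorem G on `ℂ^L`.** -/
theorem horm_CL {L : ℕ} {ρ : Cn L → ℝ} (hρ : ContDiff ℝ ∞ ρ)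
    (hlev : ∀ t v, levz (fun t => Real.log (1 + nsq t)) v t ≤ levz ρ v t) {u : Cn L → ℂ}
    (hu : ContDiff ℝ ∞ u) (hc : HasCompactSupport u) {B : Cn L → ℝ} (hB : Continuous B)
    (hB0 : ∀ t, 0 ≤ B t) (hBc : HasCompactSupport B)
    (hBu : ∀ t v, ‖dbv u v t‖ ^ 2 ≤ B t * levz (fun t => Real.log (1 + nsq t)) v t) :
    ∃ b : Cn L → ℂ, NF.HolC b univ ∧
      ∫⁻ t, ENNReal.ofReal (‖u t - b t‖ ^ 2 * Real.exp (-ρ t)) ≤
        ∫⁻ t, ENNReal.ofReal (B t * Real.exp (-ρ t)) := by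
  have hBi : Integrable fun z => B z * Real.exp (-ρ z) :=
    (hB.mul (Real.continuous_exp.comp hρ.continuous.neg)).integrable_of_hasCompactSupport
      hBc.mul_right
  obtain ⟨b, hb, hbz, -, hi, hle⟩ := HC.horm_form hρ HC.levz_log_one_add_nonneg
    (fun z u => hlev z u) hu hc hB0 hBi (fun z v => by
      rw [← dbar_apply]
      exact hBu z v)
  refine ⟨b, ⟨hb.contDiffOn, fun z _ v => fderiv_J_of_dzb (fun k => hbz k z) v⟩, ?_⟩
  rw [← ofReal_integral_eq_lintegral_ofReal hi (Filter.Eventually.of_forall fun x => by positivity),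
    ← ofReal_integral_eq_lintegral_ofReal hBi (Filter.Eventually.of_forall fun x =>
      mul_nonneg (hB0 x) (Real.exp_pos _).le)]
  exact ENNReal.ofReal_le_ofReal hle

end Pool.Agent.KRFCh
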