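import Pool.Agent.Work.MP_a2bf38_gt.Ch.PolyA
import Pool.Agent.Work.MP_a2bf38_gt.Z.HolMean
import Pool.Agent.Work.MP_a2bf38_gt.L.AsubN

/-!
# Entire functions with a finite weighted square integral are polynomials
-/

open scoped ContDiff ENNReal ComplexOrder Topology
open Set MeasureTheory Filter Pool.Agent.ToricKRF Pool.Agent.ToricKRF.G Pool.Agent.KRFS
  Pool.Agent.KRFF Pool.Agent.KRFG Pool.Agent.KRFZ

namespace Pool.Agent.KRFCh

variable {L : ℕ}

/-- the point with the complex coordinates `x` -/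
def toCn (x : Fin L → ℂ) : Cn L := (fun j => (x j).re, fun j => (x j).im)

theorem cc_toCn (x : Fin L → ℂ) : cc (toCn x) = x := by
  funext j
  exact Complex.ext rfl rfl

theorem toCn_cc (t : Cn L) : toCn (cc t) = t := rfl

theorem nsq_add_le (a b : Cn L) : nsq (a + b) ≤ 2 * (nsq a + nsq b) := by
  rw [KRFH.BallM.nsq_eq_sum, KRFH.BallM.nsq_eq_sum, KRFH.BallM.nsq_eq_sum,
    ← Finset.sum_add_distrib, Finset.mul_sum]
  refine Finset.sum_le_sum fun j _ => ?_
  simp only [Prod.fst_add, Prod.snd_add, Pi.add_apply]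
  nlinarith [sq_nonneg (a.1 j - b.1 j), sq_nonneg (a.2 j - b.2 j)]

theorem nsq_toCn_le (x : Fin L → ℂ) : nsq (toCn x) ≤ L * ‖x‖ ^ 2 := by
  rw [KRFH.BallM.nsq_eq_sum]
  calc ∑ j, ((toCn x).1 j ^ 2 + (toCn x).2 j ^ 2) ≤ ∑ _j : Fin L, ‖x‖ ^ 2 := by
        refine Finset.sum_le_sum fun j _ => ?_
        have h1 : (toCn x).1 j ^ 2 + (toCn x).2 j ^ 2 = ‖x j‖ ^ 2 := by
          rw [Complex.sq_norm, Complex.normSq_apply]
          simp [toCn]
          ring
        rw [h1]
        exact pow_le_pow_left₀ (norm_nonneg _) (norm_le_pi_norm x j) 2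
    _ = L * ‖x‖ ^ 2 := by simp

/-- the value of an entire function is bounded by its weighted square integral -/
theorem val_le {F : Cn L → ℂ} (hF : NF.HolC F univ) {A : ℕ} {I : ℝ} (hI : 0 ≤ I)
    (hint : ∫⁻ t, ENNReal.ofReal (‖F t‖ ^ 2 / (1 + nsq t) ^ A) ≤ ENNReal.ofReal I) (z : Cn L) :
    (volume {w : Cn L | nsq w ≤ 1}).toReal * ‖F z‖ ^ 2 ≤ (3 * (1 + nsq z)) ^ A * I := by
  have hz := KRFH.BallM.continuous_nsq (n := L)
  have hz0 : 0 ≤ nsq z := Fb.nsq_nonneg z
  have hM : 0 ≤ (3 * (1 + nsq z)) ^ A := by positivity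
  have h1 := HM.mean_sq_lint (z := z) (r := 1) isOpen_univ hF one_pos (subset_univ _)
    (I := (3 * (1 + nsq z)) ^ A * I) (by positivity) (by
      rw [ENNReal.ofReal_mul hM]
      calc ∫⁻ w in {w : Cn L | nsq (w - z) ≤ 1 ^ 2}, ENNReal.ofReal (‖F w‖ ^ 2)
          ≤ ∫⁻ w in {w : Cn L | nsq (w - z) ≤ 1 ^ 2}, ENNReal.ofReal ((3 * (1 + nsq z)) ^ A) *
              ENNReal.ofReal (‖F w‖ ^ 2 / (1 + nsq w) ^ A) := by
            refine lintegral_mono_ae ?_
            filter_upwards [ae_restrict_mem (HM.isCompact_ball z 1).measurableSet] with w hw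
            rw [← ENNReal.ofReal_mul hM]
            apply ENNReal.ofReal_le_ofReal
            have hw0 : 0 ≤ nsq w := Fb.nsq_nonneg w
            have hw1 : 1 + nsq w ≤ 3 * (1 + nsq z) := by
              have h2 := nsq_add_le (w - z) z
              rw [sub_add_cancel] at h2
              have h3 : nsq (w - z) ≤ 1 ^ 2 := hw
              linarith
            have hp : 0 < (1 + nsq w) ^ A := by positivity
            rw [mul_div_assoc', le_div_iff₀ hp, mul_comm]
            exact mul_le_mul_of_nonneg_right (pow_le_pow_left₀ (by positivity) hw1 A)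
              (by positivity)
        _ = ENNReal.ofReal ((3 * (1 + nsq z)) ^ A) *
              ∫⁻ w in {w : Cn L | nsq (w - z) ≤ 1 ^ 2},
                ENNReal.ofReal (‖F w‖ ^ 2 / (1 + nsq w) ^ A) :=
            lintegral_const_mul' _ _ ENNReal.ofReal_ne_top
        _ ≤ ENNReal.ofReal ((3 * (1 + nsq z)) ^ A) * ENNReal.ofReal I := by
            gcongr
            exact (setLIntegral_le_lintegral _ _).trans hint)
  simpa using h1

/-- an entire function is entire in every variable -/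
theorem slice_diff {F : Cn L → ℂ} (hF : NF.HolC F univ) (x : Fin L → ℂ) (j : Fin L) :
    Differentiable ℂ fun w => F (toCn (Function.update x j w)) := by
  have h1 := KRFH.AsubN.diff_line isOpen_univ hF (toCn (Function.update x j 0))
    (Pi.single j 1, 0)
  rw [preimage_univ, differentiableOn_univ] at h1
  convert h1 using 1
  funext w
  congr 1
  refine Prod.ext (funext fun k => ?_) (funext fun k => ?_)
  · by_cases hk : k = j
    · subst hk
      simp [toCn, line, J]
    · simp [toCn, line, J, Function.update_of_ne hk, Pi.single_eq_of_ne hk]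
  · by_cases hk : k = j
    · subst hk
      simp [toCn, line, J]
    · simp [toCn, line, J, Function.update_of_ne hk, Pi.single_eq_of_ne hk]

/-- An entire function with a finite weighted square integral is a polynomial, with a bound for
the coefficients. -/
theorem exists_poly_bound (L A : ℕ) : ∃ C : ℝ, 0 ≤ C ∧ ∀ (F : Cn L → ℂ) (I : ℝ), NF.HolC F univ →
    0 ≤ I → ∫⁻ t, ENNReal.ofReal (‖F t‖ ^ 2 / (1 + nsq t) ^ A) ≤ ENNReal.ofReal I →
    ∃ P : MvPolynomial (Fin L) ℂ, P.totalDegree ≤ A ∧ (∀ t, F t = MvPolynomial.eval (cc t) P) ∧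
      ∀ m, ‖MvPolynomial.coeff m P‖ ≤ C * √I := by
  set v := (volume {w : Cn L | nsq w ≤ 1}).toReal with hv
  have hvp : 0 < v := Pole.volume_unit_pos
  set K : ℝ := √(v⁻¹ * (3 * (1 + L)) ^ A) with hK
  refine ⟨lsum L A * (K * (1 + A) ^ A), mul_nonneg (lsum_nonneg L A) (by positivity), ?_⟩
  intro F I hF hI hint
  obtain ⟨P, hP1, hP2, hP3⟩ := liouville (G := fun x => F (toCn x)) (slice_diff hF) (A := A)
    (K := K * √I) (by
      intro x
      have h1 := val_le hF hI hint (toCn x)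
      have h2 : 1 + nsq (toCn x) ≤ (1 + L) * (1 + ‖x‖) ^ 2 := by
        have h3 := nsq_toCn_le x
        have hL : (0 : ℝ) ≤ L := Nat.cast_nonneg L
        nlinarith [norm_nonneg x, mul_nonneg hL (norm_nonneg x), sq_nonneg ‖x‖]
      have h4 : ‖F (toCn x)‖ ^ 2 ≤ (K * √I * (1 + ‖x‖) ^ A) ^ 2 := by
        rw [mul_pow, mul_pow, Real.sq_sqrt hI, hK, Real.sq_sqrt (by positivity)]
        have h5 : (3 * (1 + nsq (toCn x))) ^ A ≤
            (3 * (1 + L)) ^ A * ((1 + ‖x‖) ^ A) ^ 2 := by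
          rw [← pow_mul, mul_comm A 2, pow_mul, ← mul_pow]
          apply pow_le_pow_left₀
          · have := Fb.nsq_nonneg (toCn x)
            positivity
          · linarith
        have h6 : v * ‖F (toCn x)‖ ^ 2 ≤ (3 * (1 + L)) ^ A * ((1 + ‖x‖) ^ A) ^ 2 * I :=
          h1.trans (mul_le_mul_of_nonneg_right h5 hI)
        calc ‖F (toCn x)‖ ^ 2 = v⁻¹ * (v * ‖F (toCn x)‖ ^ 2) := by
              rw [← mul_assoc, inv_mul_cancel₀ hvp.ne', one_mul]
          _ ≤ v⁻¹ * ((3 * (1 + L)) ^ A * ((1 + ‖x‖) ^ A) ^ 2 * I) :=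
              mul_le_mul_of_nonneg_left h6 (by positivity)
          _ = v⁻¹ * (3 * (1 + L)) ^ A * I * ((1 + ‖x‖) ^ A) ^ 2 := by ring
      exact le_of_sq_le_sq h4 (by positivity))
  refine ⟨P, hP1, fun t => ?_, fun m => (hP3 m).trans (le_of_eq ?_)⟩
  · rw [← hP2]
    rfl
  · ring

/-- **An entire function with a finite weighted square integral is a polynomial.** -/
theorem exists_poly {L A : ℕ} {F : Cn L → ℂ} (hF : NF.HolC F univ)
    (hI : ∫⁻ t, ENNReal.ofReal (‖F t‖ ^ 2 * ((1 + nsq t) ^ A)⁻¹) ≠ ⊤) :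
    ∃ P : MvPolynomial (Fin L) ℂ, P.totalDegree ≤ A ∧
      ∀ t, F t = MvPolynomial.eval (cc t) P := by
  obtain ⟨C, _, h⟩ := exists_poly_bound L A
  obtain ⟨P, hP1, hP2, _⟩ := h F
    (∫⁻ t, ENNReal.ofReal (‖F t‖ ^ 2 * ((1 + nsq t) ^ A)⁻¹)).toReal hF ENNReal.toReal_nonneg (by
      simp_rw [div_eq_mul_inv]
      exact (ENNReal.ofReal_toReal hI).ge)
  exact ⟨P, hP1, hP2⟩

/-- The same with the weight `exp (- A log (1 + |t|^2))` and the integral. -/
theorem exists_poly_exp (L A : ℕ) : ∃ C : ℝ, 0 ≤ C ∧ ∀ (F : Cn L → ℂ), NF.HolC F univ →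
    Integrable (fun t => ‖F t‖ ^ 2 * Real.exp (-((A : ℝ) * Real.log (1 + nsq t)))) →
    ∃ P : MvPolynomial (Fin L) ℂ, P.totalDegree ≤ A ∧ (∀ t, F t = MvPolynomial.eval (cc t) P) ∧
      ∀ m, ‖MvPolynomial.coeff m P‖ ≤
        C * √(∫ t, ‖F t‖ ^ 2 * Real.exp (-((A : ℝ) * Real.log (1 + nsq t)))) := by
  obtain ⟨C, hC, h⟩ := exists_poly_bound L A
  refine ⟨C, hC, fun F hF hint => ?_⟩
  have hw : ∀ t : Cn L, ‖F t‖ ^ 2 / (1 + nsq t) ^ A =
      ‖F t‖ ^ 2 * Real.exp (-((A : ℝ) * Real.log (1 + nsq t))) := by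
    intro t
    have ht : 0 < 1 + nsq t := by linarith [Fb.nsq_nonneg t]
    rw [Real.exp_neg, Real.exp_nat_mul, Real.exp_log ht, div_eq_mul_inv]
  refine h F _ hF (integral_nonneg fun t => by positivity) ?_
  rw [ofReal_integral_eq_lintegral_ofReal hint (Eventually.of_forall fun t => by positivity)]
  simp_rw [hw]
  exact le_rfl

end Pool.Agent.KRFCh
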