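import Pool.Agent.Work.MP_a2bf38_gt.Ch.Slice
import Pool.Agent.Work.MP_a2bf38_gt.Ch.HormCL
import Pool.Agent.Work.MP_a2bf38_gt.Ch.Poly
import Pool.Agent.Work.MP_a2bf38_gt.Z.HolMean

/-!
# Polynomials with approximate values on a slice (helper28)
-/

open scoped ContDiff ENNReal ComplexOrder Topology
open Set Filter MeasureTheory Pool.Agent.ToricKRF Pool.Agent.ToricKRF.G Pool.Agent.KRFS
  Pool.Agent.KRFF Pool.Agent.KRFZ

namespace Pool.Agent.KRFCh

namespace Ap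

variable {L : ℕ}

theorem nsq_add_two (x y : Cn L) : nsq (x + y) ≤ 2 * nsq x + 2 * nsq y := by
  have h := Pool.Agent.KRFG.Fb.nsq_nonneg (x - y)
  have e : nsq (x + y) + nsq (x - y) = 2 * nsq x + 2 * nsq y := by
    simp only [nsq, Prod.fst_add, Prod.snd_add, Prod.fst_sub, Prod.snd_sub, add_dotProduct,
      dotProduct_add, sub_dotProduct, dotProduct_sub, dotProduct_comm y.1 x.1,
      dotProduct_comm y.2 x.2]
    ring
  linarith

theorem nsq_comm_sub (x y : Cn L) : nsq (x - y) = nsq (y - x) := by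
  simp only [nsq, Prod.fst_sub, Prod.snd_sub, sub_dotProduct, dotProduct_sub,
    dotProduct_comm y.1 x.1, dotProduct_comm y.2 x.2]
  ring

theorem slice_ne (a : Fin (L + 1)) (t : Cn L) : slice a t ≠ 0 := by
  intro h
  have h1 := nsq_slice a t
  rw [h] at h1
  have h2 := Pool.Agent.KRFG.Fb.nsq_nonneg t
  have h3 : nsq (0 : Cn (L + 1)) = 0 := by simp [nsq]
  rw [h3] at h1
  linarith

theorem isOpen_ne0 : IsOpen {x : Cn (L + 1) | x ≠ 0} := isOpen_ne

theorem log_one_eq : (fun t : Cn L => Real.log (1 + nsq t)) =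
    fun t : Cn L => Real.log (nsq (t - 0) + 1 ^ 2) := by
  funext t
  rw [sub_zero, one_pow, add_comm]

theorem contDiff_log_one : ContDiff ℝ ∞ fun t : Cn L => Real.log (1 + nsq t) := by
  rw [log_one_eq]
  exact HM.contDiff_logpole 0 one_ne_zero

theorem levz_log_one_nonneg (v t : Cn L) : 0 ≤ levz (fun t : Cn L => Real.log (1 + nsq t)) v t := by
  rw [log_one_eq]
  exact HM.levz_logpole 0 one_ne_zero t v

theorem contDiffOn_log_nsq : ContDiffOn ℝ ∞ (fun x : Cn (L + 1) => Real.log (nsq x))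
    {x : Cn (L + 1) | x ≠ 0} := by
  refine (Pool.Agent.KRFG.Fb.contDiff_nsq.contDiffOn).log fun x hx => ?_
  exact fun h => hx (Pool.Agent.KRFX.NC.nsq_eq_zero.1 h)

/-- the weight on the slice -/
noncomputable def rho (W : ℝ → Cn (L + 1) → ℝ) (a : Fin (L + 1)) (t₀ : Cn L) (A : ℕ) (ε : ℝ)
    (t : Cn L) : ℝ :=
  (L + 1) * Real.log (W ε (slice a t)) + (L + 1) * Real.log (nsq (t - t₀) + ε ^ 2) +
    A * Real.log (1 + nsq t)

section

variable {Γ : Set (Cn (L + 1))} {W : ℝ → Cn (L + 1) → ℝ} {C : ℝ} (h : IsWeight Γ W C)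
include h

theorem contDiff_log_W (a : Fin (L + 1)) {ε : ℝ} (hε : ε ∈ Ioc (0 : ℝ) 1) :
    ContDiff ℝ ∞ fun t : Cn L => Real.log (W ε (slice a t)) := by
  rw [← contDiffOn_univ]
  exact ((h.smooth ε hε).comp (contDiff_slice a).contDiffOn fun t _ => slice_ne a t).log
    fun t _ => (h.pos ε hε _ (slice_ne a t)).1.ne'

theorem contDiff_rho (a : Fin (L + 1)) (t₀ : Cn L) (A : ℕ) {ε : ℝ} (hε : ε ∈ Ioc (0 : ℝ) 1) :
    ContDiff ℝ ∞ (rho W a t₀ A ε) :=
  ((contDiff_const.mul (contDiff_log_W h a hε)).add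
    (contDiff_const.mul (HM.contDiff_logpole t₀ hε.1.ne'))).add
    (contDiff_const.mul contDiff_log_one)

theorem levz_log_W (a : Fin (L + 1)) {ε : ℝ} (hε : ε ∈ Ioc (0 : ℝ) 1) (t v : Cn L) :
    -C * levz (fun t : Cn L => Real.log (1 + nsq t)) v t ≤
      levz (fun t : Cn L => Real.log (W ε (slice a t))) v t := by
  have hx := slice_ne a t
  have h1 := h.lev ε hε _ hx (slice a v - slice a 0)
  have h2 : ContDiffAt ℝ 2 (fun x => Real.log (W ε x)) (slice a t) :=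
    (((h.smooth ε hε).log fun x hx => (h.pos ε hε x hx).1.ne').contDiffAt
      (isOpen_ne0.mem_nhds hx)).of_le two_le_infty
  have h3 : ContDiffAt ℝ 2 (fun x : Cn (L + 1) => Real.log (nsq x)) (slice a t) :=
    (contDiffOn_log_nsq.contDiffAt (isOpen_ne0.mem_nhds hx)).of_le two_le_infty
  have h4 := levz_slice a h2 v
  have h5 := levz_slice a h3 v
  have h6 : (fun t : Cn L => Real.log (nsq (slice a t))) = fun t => Real.log (1 + nsq t) := by
    funext t
    rw [nsq_slice]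
  rw [h6] at h5
  rw [h4, h5]
  exact h1

theorem levz_rho (a : Fin (L + 1)) (t₀ : Cn L) {A : ℕ} (hA : (L + 1) * C + 1 ≤ A) {ε : ℝ}
    (hε : ε ∈ Ioc (0 : ℝ) 1) (t v : Cn L) :
    levz (fun t : Cn L => Real.log (1 + nsq t)) v t ≤ levz (rho W a t₀ A ε) v t := by
  have c1 : ContDiffAt ℝ 2 (fun t : Cn L => Real.log (W ε (slice a t))) t :=
    (contDiff_log_W h a hε).contDiffAt.of_le two_le_infty
  have c2 : ContDiffAt ℝ 2 (fun t : Cn L => Real.log (nsq (t - t₀) + ε ^ 2)) t :=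
    (HM.contDiff_logpole t₀ hε.1.ne').contDiffAt.of_le two_le_infty
  have c3 : ContDiffAt ℝ 2 (fun t : Cn L => Real.log (1 + nsq t)) t :=
    contDiff_log_one.contDiffAt.of_le two_le_infty
  have e : levz (rho W a t₀ A ε) v t =
      (L + 1) * levz (fun t : Cn L => Real.log (W ε (slice a t))) v t +
      (L + 1) * levz (fun t : Cn L => Real.log (nsq (t - t₀) + ε ^ 2)) v t +
      A * levz (fun t : Cn L => Real.log (1 + nsq t)) v t := by
    unfold rho
    rw [Bd.levz_add ((contDiffAt_const.mul c1).add (contDiffAt_const.mul c2))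
      (contDiffAt_const.mul c3), Bd.levz_add (contDiffAt_const.mul c1) (contDiffAt_const.mul c2),
      Bd.levz_const_mul _ c1, Bd.levz_const_mul _ c2, Bd.levz_const_mul _ c3]
  have h1 := levz_log_W h a hε t v
  have h2 := HM.levz_logpole t₀ hε.1.ne' t v
  have h3 := levz_log_one_nonneg v t
  rw [e]
  have hL : (0 : ℝ) ≤ L + 1 := by positivity
  have h4 := mul_le_mul_of_nonneg_left h1 hL
  have h5 := mul_nonneg hL h2
  have h6 := mul_le_mul_of_nonneg_right hA h3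
  nlinarith

omit h in
theorem exp_rho (a : Fin (L + 1)) (t₀ : Cn L) (A : ℕ) {ε : ℝ} (hε : 0 < ε) (t : Cn L)
    (hW : 0 < W ε (slice a t)) : Real.exp (-rho W a t₀ A ε t) =
      (W ε (slice a t) ^ (L + 1))⁻¹ * ((nsq (t - t₀) + ε ^ 2) ^ (L + 1))⁻¹ *
        ((1 + nsq t) ^ A)⁻¹ := by
  have h1 := HM.pos_pole t₀ hε.ne' t
  have h2 : 0 < 1 + nsq t := by
    have := Pool.Agent.KRFG.Fb.nsq_nonneg t
    linarith
  have e : ∀ (m : ℕ) {x : ℝ}, 0 < x → Real.exp (-((m : ℝ) * Real.log x)) = (x ^ m)⁻¹ := by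
    intro m x hx
    rw [Real.exp_neg, Real.exp_nat_mul, Real.exp_log hx]
  unfold rho
  rw [neg_add, neg_add, Real.exp_add, Real.exp_add, e A h2]
  have e1 := e (L + 1) hW
  have e2 := e (L + 1) h1
  push_cast at e1 e2
  rw [e1, e2]

omit h in
/-- the radius around `t₀` -/
theorem exists_radius {c : ℝ} {W : ℝ → Cn (L + 1) → ℝ} (a : Fin (L + 1))
    (t₀ : Cn L) (hc : ∀ᶠ x' in 𝓝 (slice a t₀), ∀ ε ∈ Ioc (0 : ℝ) 1, c ≤ W ε x') :
    ∃ r > 0, ∀ t, nsq (t - t₀) ≤ r ^ 2 → ∀ ε ∈ Ioc (0 : ℝ) 1, c ≤ W ε (slice a t) := by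
  have h1 : ∀ᶠ t in 𝓝 t₀, ∀ ε ∈ Ioc (0 : ℝ) 1, c ≤ W ε (slice a t) :=
    (contDiff_slice a).continuous.continuousAt.eventually hc
  obtain ⟨r, hr, hr1⟩ := Metric.eventually_nhds_iff.1 h1
  refine ⟨r / 2, by positivity, fun t ht => hr1 ?_⟩
  rw [dist_eq_norm]
  have := Pool.Agent.KRFG.norm_le_of_nsq_le (by positivity : (0 : ℝ) ≤ r / 2) ht
  linarith

end

/-- the value at the centre of a ball of radius `ε` on which `w ≤ B` -/
theorem value_le {g : Cn L → ℂ} (hg : NF.HolC g univ) {z₀ : Cn L} {ε B I : ℝ} (hε : 0 < ε)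
    {ρ : Cn L → ℝ} (hρ : ∀ t, nsq (t - z₀) ≤ ε ^ 2 →
      ρ t ≤ B + (L + 1) * Real.log (nsq (t - z₀) + ε ^ 2)) (hI : 0 ≤ I)
    (hint : ∫⁻ t in {t : Cn L | nsq (t - z₀) ≤ ε ^ 2}, ENNReal.ofReal (‖g t‖ ^ 2 *
      Real.exp (-ρ t)) ≤ ENNReal.ofReal I) :
    ‖g z₀‖ ^ 2 ≤ Real.exp B * 2 ^ (L + 1) / (volume {w : Cn L | nsq w ≤ 1}).toReal * ε ^ 2 * I := by
  have h1 := HM.pole (n := L) (F := fun t : Cn L => t) (W₁ := fun _ => B) (Ω := fun _ => 1)
    (z₀ := z₀) (L := 1) (B := B) (o := 1) hε one_pos (fun w _ => by simp) (fun _ _ => le_rfl)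
    (fun _ _ => le_rfl) isOpen_univ hg (subset_univ _) hI ?_
  · rw [one_mul, one_pow, one_add_one_eq_two] at h1
    exact h1
  · refine le_trans ?_ hint
    refine setLIntegral_mono' (HM.isCompact_ball z₀ ε).measurableSet fun t ht => ?_
    refine ENNReal.ofReal_le_ofReal ?_
    rw [mul_one]
    refine mul_le_mul_of_nonneg_left (Real.exp_le_exp.2 ?_) (sq_nonneg _)
    have := hρ t ht
    linarith

end Ap

open Ap

theorem exists_approx (L : ℕ) {C : ℝ} (hC : 0 < C) : ∃ d : ℕ, ∀ (Γ : Set (Cn (L + 1)))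
    (W : ℝ → Cn (L + 1) → ℝ), IsWeight Γ W C → ∀ (a : Fin (L + 1)) (t₀ : Cn L),
      slice a t₀ ∉ Γ → ∀ s : Finset (Cn L), (∀ t ∈ s, slice a t ∈ Γ) → ∀ δ > 0,
        ∃ P : MvPolynomial (Fin L) ℂ, P.totalDegree ≤ d ∧
          ‖MvPolynomial.eval (cc t₀) P - 1‖ ≤ δ ∧
            ∀ t ∈ s, ‖MvPolynomial.eval (cc t) P‖ ≤ δ := by
  obtain ⟨A, hA⟩ := exists_nat_ge ((L + 1) * C + 1)
  refine ⟨A + (L + 1), fun Γ W h a t₀ ht₀ s hs δ hδ => ?_⟩
  obtain ⟨c, hc, hc1⟩ := h.away _ (slice_ne a t₀) ht₀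
  obtain ⟨r, hr, hr1⟩ := exists_radius a t₀ hc1
  -- the points of `s` are far from `t₀`
  have hfar : ∀ t ∈ s, r ^ 2 < nsq (t - t₀) := by
    intro t ht
    by_contra hcon
    push Not at hcon
    obtain ⟨C', hC'⟩ := h.near _ (hs t ht)
    have h0 : nsq (slice a t - slice a t) = 0 := by simp [nsq]
    have h1 : ∀ ε ∈ Ioc (0 : ℝ) 1, c ≤ C' * ε ^ 2 := fun ε hε =>
      (hr1 t hcon ε hε).trans (hC' ε hε _ (slice_ne a t) (by rw [h0]; positivity))
    have h2 := h1 1 ⟨one_pos, le_rfl⟩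
    have h3 : 0 < C' := by linarith
    set ε : ℝ := min 1 (Real.sqrt (c / (2 * C'))) with hε
    have h4 : 0 < Real.sqrt (c / (2 * C')) := Real.sqrt_pos.2 (by positivity)
    have h5 : 0 < ε := lt_min one_pos h4
    have h6 := h1 ε ⟨h5, min_le_left _ _⟩
    have h7 : ε ^ 2 ≤ c / (2 * C') := by
      have : ε ≤ Real.sqrt (c / (2 * C')) := min_le_right _ _
      calc ε ^ 2 ≤ Real.sqrt (c / (2 * C')) ^ 2 := by gcongr
        _ = c / (2 * C') := Real.sq_sqrt (by positivity)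
    have h8 : C' * ε ^ 2 ≤ c / 2 := by
      calc C' * ε ^ 2 ≤ C' * (c / (2 * C')) := by gcongr
        _ = c / 2 := by field_simp
    linarith
  -- the cut-off function
  obtain ⟨u, B, hu, hus, hB, hBs, hB0, hin, hout, hdb⟩ := exists_cutoff_slice t₀ (half_pos hr)
  have hBi : Integrable B := hB.integrable_of_hasCompactSupport hBs
  have hBint : 0 ≤ ∫ t, B t := integral_nonneg hB0
  -- the constant on the right
  set κ : ℝ := (c ^ (L + 1))⁻¹ * ((r ^ 2 / 16) ^ (L + 1))⁻¹ with hκ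
  have hκ0 : 0 ≤ κ := by positivity
  set I : ℝ := κ * ∫ t, B t with hI
  have hI0 : 0 ≤ I := mul_nonneg hκ0 hBint
  -- the solutions
  have hsol : ∀ ε ∈ Ioc (0 : ℝ) 1, ∃ b : Cn L → ℂ, NF.HolC b univ ∧
      ∫⁻ t, ENNReal.ofReal (‖u t - b t‖ ^ 2 * Real.exp (-rho W a t₀ A ε t)) ≤
        ENNReal.ofReal I := by
    intro ε hε
    obtain ⟨b, hb, hb1⟩ := horm_CL (contDiff_rho h a t₀ A hε) (levz_rho h a t₀ hA hε) hu hus hB
      hB0 hBs hdb
    refine ⟨b, hb, hb1.trans ?_⟩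
    calc ∫⁻ t, ENNReal.ofReal (B t * Real.exp (-rho W a t₀ A ε t)) ≤
        ∫⁻ t, ENNReal.ofReal (κ * B t) := by
          refine lintegral_mono fun t => ENNReal.ofReal_le_ofReal ?_
          have hWp := (h.pos ε hε _ (slice_ne a t)).1
          rw [exp_rho a t₀ A hε.1 t hWp]
          by_cases h1 : nsq (t - t₀) ≤ (r / 2) ^ 2 / 4
          · rw [(hin t h1).2, zero_mul, mul_zero]
          by_cases h2 : (r / 2) ^ 2 ≤ nsq (t - t₀)
          · rw [(hout t h2).2, zero_mul, mul_zero]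
          push Not at h1 h2
          have h3 : c ≤ W ε (slice a t) := hr1 t (by nlinarith [sq_nonneg r]) ε hε
          have h4 : r ^ 2 / 16 ≤ nsq (t - t₀) + ε ^ 2 := by nlinarith [sq_nonneg ε]
          have h5 : (1 : ℝ) ≤ (1 + nsq t) ^ A := one_le_pow₀ (by
            have := Pool.Agent.KRFG.Fb.nsq_nonneg t
            linarith)
          rw [mul_comm (B t)]
          refine mul_le_mul_of_nonneg_right ?_ (hB0 t)
          have h6 : ((1 + nsq t) ^ A)⁻¹ ≤ 1 := inv_le_one_of_one_le₀ h5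
          have h7 : (W ε (slice a t) ^ (L + 1))⁻¹ ≤ (c ^ (L + 1))⁻¹ := by gcongr
          have h8 : ((nsq (t - t₀) + ε ^ 2) ^ (L + 1))⁻¹ ≤ ((r ^ 2 / 16) ^ (L + 1))⁻¹ := by gcongr
          have h9 : 0 ≤ ((nsq (t - t₀) + ε ^ 2) ^ (L + 1))⁻¹ := by
            have := HM.pos_pole t₀ hε.1.ne' t
            positivity
          calc (W ε (slice a t) ^ (L + 1))⁻¹ * ((nsq (t - t₀) + ε ^ 2) ^ (L + 1))⁻¹ *
              ((1 + nsq t) ^ A)⁻¹ ≤
              (c ^ (L + 1))⁻¹ * ((r ^ 2 / 16) ^ (L + 1))⁻¹ * 1 := by gcongr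
            _ = κ := by rw [mul_one]
      _ = ENNReal.ofReal I := by
          rw [hI, ← integral_const_mul, ofReal_integral_eq_lintegral_ofReal
            (hBi.const_mul κ) (Eventually.of_forall fun t => mul_nonneg hκ0 (hB0 t))]
  -- the solutions are polynomials
  have hpoly : ∀ ε ∈ Ioc (0 : ℝ) 1, ∀ b : Cn L → ℂ, NF.HolC b univ →
      ∫⁻ t, ENNReal.ofReal (‖u t - b t‖ ^ 2 * Real.exp (-rho W a t₀ A ε t)) ≤
        ENNReal.ofReal I → ∃ P : MvPolynomial (Fin L) ℂ, P.totalDegree ≤ A + (L + 1) ∧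
          ∀ t, b t = MvPolynomial.eval (cc t) P := by
    intro ε hε b hb hbI
    refine exists_poly hb (ne_of_lt ?_)
    set K2 : ℝ := C ^ (L + 1) * (2 + 2 * nsq t₀) ^ (L + 1) with hK2
    have ht0 := Pool.Agent.KRFG.Fb.nsq_nonneg t₀
    have hK20 : 0 ≤ K2 := by positivity
    have hu2 : Integrable fun t => 2 * ‖u t‖ ^ 2 := by
      have h1 : HasCompactSupport fun t => ‖u t‖ ^ 2 :=
        hus.norm.comp_left (g := fun x : ℝ => x ^ 2) (by simp)
      exact (Continuous.integrable_of_hasCompactSupport (hu.continuous.norm.pow 2) h1).const_mul 2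
    calc ∫⁻ t, ENNReal.ofReal (‖b t‖ ^ 2 * ((1 + nsq t) ^ (A + (L + 1)))⁻¹) ≤
        ∫⁻ t, (ENNReal.ofReal (2 * K2) *
          ENNReal.ofReal (‖u t - b t‖ ^ 2 * Real.exp (-rho W a t₀ A ε t)) +
            ENNReal.ofReal (2 * ‖u t‖ ^ 2)) := by
          refine lintegral_mono fun t => ?_
          rw [← ENNReal.ofReal_mul (by positivity), ← ENNReal.ofReal_add (by positivity)
            (by positivity)]
          refine ENNReal.ofReal_le_ofReal ?_
          have hn := Pool.Agent.KRFG.Fb.nsq_nonneg t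
          obtain ⟨hWp, hWC⟩ := h.pos ε hε _ (slice_ne a t)
          have h1 : ‖b t‖ ^ 2 ≤ 2 * ‖u t - b t‖ ^ 2 + 2 * ‖u t‖ ^ 2 := by
            have h2 : ‖b t‖ ≤ ‖u t - b t‖ + ‖u t‖ := by
              have := norm_sub_norm_le (b t) (u t)
              rw [norm_sub_rev] at this
              linarith
            have h3 : ‖b t‖ ^ 2 ≤ (‖u t - b t‖ + ‖u t‖) ^ 2 := by gcongr
            nlinarith [sq_nonneg (‖u t - b t‖ - ‖u t‖)]
          have h4 : ((1 + nsq t) ^ (A + (L + 1)))⁻¹ ≤ 1 :=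
            inv_le_one_of_one_le₀ (one_le_pow₀ (by linarith))
          have h5 : ((1 + nsq t) ^ (A + (L + 1)))⁻¹ ≤ K2 * Real.exp (-rho W a t₀ A ε t) := by
            rw [exp_rho a t₀ A hε.1 t hWp]
            have hq : nsq (t - t₀) + ε ^ 2 ≤ (2 + 2 * nsq t₀) * (1 + nsq t) := by
              have h6 := nsq_add_two t (-t₀)
              have h7 : nsq (-t₀) = nsq t₀ := by simp [nsq]
              rw [← sub_eq_add_neg, h7] at h6
              have h8 : ε ^ 2 ≤ 1 := pow_le_one₀ hε.1.le hε.2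
              nlinarith [mul_nonneg ht0 hn]
            have hqp := HM.pos_pole t₀ hε.1.ne' t
            have h9 : (C ^ (L + 1))⁻¹ ≤ (W ε (slice a t) ^ (L + 1))⁻¹ := by gcongr
            have h10 : (((2 + 2 * nsq t₀) * (1 + nsq t)) ^ (L + 1))⁻¹ ≤
                ((nsq (t - t₀) + ε ^ 2) ^ (L + 1))⁻¹ := by gcongr
            calc ((1 + nsq t) ^ (A + (L + 1)))⁻¹ = K2 * ((C ^ (L + 1))⁻¹ *
                (((2 + 2 * nsq t₀) * (1 + nsq t)) ^ (L + 1))⁻¹ * ((1 + nsq t) ^ A)⁻¹) := by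
                  rw [hK2, pow_add, mul_pow]
                  have : (1 + nsq t) ≠ 0 := by positivity
                  have : (2 + 2 * nsq t₀) ≠ 0 := by positivity
                  field_simp
              _ ≤ _ := by gcongr
          calc ‖b t‖ ^ 2 * ((1 + nsq t) ^ (A + (L + 1)))⁻¹ ≤
              (2 * ‖u t - b t‖ ^ 2 + 2 * ‖u t‖ ^ 2) * ((1 + nsq t) ^ (A + (L + 1)))⁻¹ := by
                gcongr
            _ = 2 * ‖u t - b t‖ ^ 2 * ((1 + nsq t) ^ (A + (L + 1)))⁻¹ +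
                2 * ‖u t‖ ^ 2 * ((1 + nsq t) ^ (A + (L + 1)))⁻¹ := by ring
            _ ≤ 2 * ‖u t - b t‖ ^ 2 * (K2 * Real.exp (-rho W a t₀ A ε t)) +
                2 * ‖u t‖ ^ 2 * 1 := by gcongr
            _ = _ := by ring
      _ = ENNReal.ofReal (2 * K2) *
          (∫⁻ t, ENNReal.ofReal (‖u t - b t‖ ^ 2 * Real.exp (-rho W a t₀ A ε t))) +
            ∫⁻ t, ENNReal.ofReal (2 * ‖u t‖ ^ 2) := by
          have hm : Measurable fun t : Cn L => ENNReal.ofReal (2 * ‖u t‖ ^ 2) :=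
            (ENNReal.continuous_ofReal.comp
              (continuous_const.mul (hu.continuous.norm.pow 2))).measurable
          rw [lintegral_add_right _ hm, lintegral_const_mul' _ _ ENNReal.ofReal_ne_top]
      _ < ⊤ := by
          refine ENNReal.add_lt_top.2 ⟨ENNReal.mul_lt_top ENNReal.ofReal_lt_top
            (hbI.trans_lt ENNReal.ofReal_lt_top), ?_⟩
          exact hu2.lintegral_lt_top
  -- the value at `t₀`
  have hval0 : ∀ ε ∈ Ioc (0 : ℝ) 1, ε ≤ r / 4 → ∀ b : Cn L → ℂ, NF.HolC b univ →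
      ∫⁻ t, ENNReal.ofReal (‖u t - b t‖ ^ 2 * Real.exp (-rho W a t₀ A ε t)) ≤
        ENNReal.ofReal I → ‖b t₀ - 1‖ ^ 2 ≤ Real.exp ((L + 1) * Real.log C +
          A * Real.log (1 + (2 * nsq t₀ + 2))) * 2 ^ (L + 1) /
            (volume {w : Cn L | nsq w ≤ 1}).toReal * ε ^ 2 * I := by
    intro ε hε hεr b hb hbI
    have hg : NF.HolC (fun t => b t + (-1)) univ := hb.add isOpen_univ (NF.HolC.const _ _)
    have hε2 : ε ^ 2 ≤ (r / 2) ^ 2 / 4 := by
      have : ε ^ 2 ≤ (r / 4) ^ 2 := by gcongr; exact hε.1.le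
      nlinarith
    have h1 := value_le hg (z₀ := t₀) (B := (L + 1) * Real.log C +
      A * Real.log (1 + (2 * nsq t₀ + 2))) (ρ := rho W a t₀ A ε) hε.1 ?_ hI0 ?_
    · simpa [sub_eq_add_neg] using h1
    · intro t ht
      obtain ⟨hWp, hWC⟩ := h.pos ε hε _ (slice_ne a t)
      have h2 : Real.log (W ε (slice a t)) ≤ Real.log C := Real.log_le_log hWp hWC
      have h3 : nsq t ≤ 2 * nsq t₀ + 2 := by
        have h4 := nsq_add_two (t - t₀) t₀
        rw [sub_add_cancel] at h4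
        have h5 : ε ^ 2 ≤ 1 := pow_le_one₀ hε.1.le hε.2
        linarith
      have hn := Pool.Agent.KRFG.Fb.nsq_nonneg t
      have h4 : Real.log (1 + nsq t) ≤ Real.log (1 + (2 * nsq t₀ + 2)) :=
        Real.log_le_log (by linarith) (by linarith)
      unfold Ap.rho
      have h5 := mul_le_mul_of_nonneg_left h2 (by positivity : (0 : ℝ) ≤ L + 1)
      have h6 := mul_le_mul_of_nonneg_left h4 (by positivity : (0 : ℝ) ≤ A)
      linarith
    · refine le_trans ?_ hbI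
      refine le_trans ?_ (setLIntegral_le_lintegral {t : Cn L | nsq (t - t₀) ≤ ε ^ 2} _)
      refine setLIntegral_mono' (HM.isCompact_ball t₀ ε).measurableSet fun t ht => ?_
      have ht' : nsq (t - t₀) ≤ ε ^ 2 := ht
      rw [(hin t (ht'.trans hε2)).1, ← norm_neg]
      ring_nf
      exact le_rfl
  -- the values at the points of `s`
  have hval1 : ∀ t₁ ∈ s, ∃ K : ℝ, ∀ ε ∈ Ioc (0 : ℝ) 1, ε ≤ r / 4 → ∀ b : Cn L → ℂ,
      NF.HolC b univ →
      ∫⁻ t, ENNReal.ofReal (‖u t - b t‖ ^ 2 * Real.exp (-rho W a t₀ A ε t)) ≤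
        ENNReal.ofReal I → ‖b t₁‖ ^ 2 ≤ K * ε ^ 2 := by
    intro t₁ ht₁
    obtain ⟨C', hC'⟩ := h.near _ (hs t₁ ht₁)
    have hC'0 : 0 < C' := by
      have h1 := hC' 1 ⟨one_pos, le_rfl⟩ (slice a t₁) (slice_ne a t₁) (by simp [nsq])
      have h2 := (h.pos 1 ⟨one_pos, le_rfl⟩ _ (slice_ne a t₁)).1
      linarith
    refine ⟨Real.exp ((L + 1) * Real.log C' + (L + 1) * Real.log (2 * nsq (t₁ - t₀) + 3) +
      A * Real.log (1 + (2 * nsq t₁ + 2))) * 2 ^ (L + 1) /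
        (volume {w : Cn L | nsq w ≤ 1}).toReal * I, fun ε hε hεr b hb hbI => ?_⟩
    have hε2 : ε ^ 2 ≤ r ^ 2 / 16 := by
      have : ε ^ 2 ≤ (r / 4) ^ 2 := by gcongr; exact hε.1.le
      nlinarith
    have h1 := value_le hb (z₀ := t₁) (B := (L + 1) * Real.log C' +
      (L + 1) * Real.log (2 * nsq (t₁ - t₀) + 3) + A * Real.log (1 + (2 * nsq t₁ + 2)))
      (ρ := rho W a t₀ A ε) hε.1 ?_ hI0 ?_
    · linarith
    · intro t ht
      have hWp := (h.pos ε hε _ (slice_ne a t)).1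
      have h2 := hC' ε hε (slice a t) (slice_ne a t) (by rw [nsq_slice_sub]; exact ht)
      have h3 : Real.log (W ε (slice a t)) ≤ Real.log C' +
          Real.log (nsq (t - t₁) + ε ^ 2) := by
        rw [← Real.log_mul hC'0.ne' (HM.pos_pole t₁ hε.1.ne' t).ne']
        refine Real.log_le_log hWp (h2.trans ?_)
        have := Pool.Agent.KRFG.Fb.nsq_nonneg (t - t₁)
        gcongr
        linarith
      have hε1 : ε ^ 2 ≤ 1 := pow_le_one₀ hε.1.le hε.2
      have h4 : nsq t ≤ 2 * nsq t₁ + 2 := by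
        have h4 := nsq_add_two (t - t₁) t₁
        rw [sub_add_cancel] at h4
        linarith
      have h5 : nsq (t - t₀) + ε ^ 2 ≤ 2 * nsq (t₁ - t₀) + 3 := by
        have h6 := nsq_add_two (t - t₁) (t₁ - t₀)
        rw [sub_add_sub_cancel] at h6
        linarith
      have hn := Pool.Agent.KRFG.Fb.nsq_nonneg t
      have h7 : Real.log (1 + nsq t) ≤ Real.log (1 + (2 * nsq t₁ + 2)) :=
        Real.log_le_log (by linarith) (by linarith)
      have h8 : Real.log (nsq (t - t₀) + ε ^ 2) ≤ Real.log (2 * nsq (t₁ - t₀) + 3) :=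
        Real.log_le_log (HM.pos_pole t₀ hε.1.ne' t) h5
      unfold Ap.rho
      have h9 := mul_le_mul_of_nonneg_left h3 (by positivity : (0 : ℝ) ≤ L + 1)
      have h10 := mul_le_mul_of_nonneg_left h7 (by positivity : (0 : ℝ) ≤ A)
      have h11 := mul_le_mul_of_nonneg_left h8 (by positivity : (0 : ℝ) ≤ L + 1)
      linarith
    · refine le_trans ?_ hbI
      refine le_trans ?_ (setLIntegral_le_lintegral {t : Cn L | nsq (t - t₁) ≤ ε ^ 2} _)
      refine setLIntegral_mono' (HM.isCompact_ball t₁ ε).measurableSet fun t ht => ?_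
      have ht' : nsq (t - t₁) ≤ ε ^ 2 := ht
      have h2 : (r / 2) ^ 2 ≤ nsq (t - t₀) := by
        have h3 := nsq_add_two (t₁ - t) (t - t₀)
        rw [sub_add_sub_cancel, nsq_comm_sub t₁ t] at h3
        have h4 := hfar t₁ ht₁
        nlinarith
      rw [(hout t h2).1, zero_sub, norm_neg]
  -- the choice of `ε`
  obtain ⟨K, hK⟩ : ∃ K : ℝ, 0 < K ∧ ∀ ε ∈ Ioc (0 : ℝ) 1, ε ≤ r / 4 → ∀ b : Cn L → ℂ,
      NF.HolC b univ →
      ∫⁻ t, ENNReal.ofReal (‖u t - b t‖ ^ 2 * Real.exp (-rho W a t₀ A ε t)) ≤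
        ENNReal.ofReal I → ‖b t₀ - 1‖ ^ 2 ≤ K * ε ^ 2 ∧ ∀ t₁ ∈ s, ‖b t₁‖ ^ 2 ≤ K * ε ^ 2 := by
    choose! K1 hK1 using hval1
    set K0 : ℝ := Real.exp ((L + 1) * Real.log C +
          A * Real.log (1 + (2 * nsq t₀ + 2))) * 2 ^ (L + 1) /
            (volume {w : Cn L | nsq w ≤ 1}).toReal * I with hK0
    refine ⟨|K0| + ∑ t₁ ∈ s, |K1 t₁| + 1, by positivity, fun ε hε hεr b hb hbI => ⟨?_, ?_⟩⟩
    · have h1 := hval0 ε hε hεr b hb hbI
      have h2 : ‖b t₀ - 1‖ ^ 2 ≤ K0 * ε ^ 2 := by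
        rw [hK0]
        linarith
      have h3 : 0 ≤ ∑ t₁ ∈ s, |K1 t₁| := Finset.sum_nonneg fun _ _ => abs_nonneg _
      refine h2.trans (mul_le_mul_of_nonneg_right ?_ (sq_nonneg ε))
      have := le_abs_self K0
      linarith
    · intro t₁ ht₁
      have h1 := hK1 t₁ ht₁ ε hε hεr b hb hbI
      have h3 : |K1 t₁| ≤ ∑ t₁ ∈ s, |K1 t₁| :=
        Finset.single_le_sum (f := fun t => |K1 t|) (fun _ _ => abs_nonneg _) ht₁
      refine h1.trans (mul_le_mul_of_nonneg_right ?_ (sq_nonneg ε))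
      have := le_abs_self (K1 t₁)
      have := abs_nonneg K0
      linarith
  obtain ⟨hK0, hK⟩ := hK
  set ε : ℝ := min (min 1 (r / 4)) (δ / Real.sqrt K) with hε
  have hsK : 0 < Real.sqrt K := Real.sqrt_pos.2 hK0
  have hε0 : 0 < ε := lt_min (lt_min one_pos (by positivity)) (by positivity)
  have hε1 : ε ≤ 1 := (min_le_left _ _).trans (min_le_left _ _)
  have hε2 : ε ≤ r / 4 := (min_le_left _ _).trans (min_le_right _ _)
  have hε3 : K * ε ^ 2 ≤ δ ^ 2 := by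
    have h1 : ε ≤ δ / Real.sqrt K := min_le_right _ _
    calc K * ε ^ 2 ≤ K * (δ / Real.sqrt K) ^ 2 := by gcongr
      _ = δ ^ 2 := by
        rw [div_pow, Real.sq_sqrt hK0.le]
        field_simp
  obtain ⟨b, hb, hbI⟩ := hsol ε ⟨hε0, hε1⟩
  obtain ⟨P, hP, hP1⟩ := hpoly ε ⟨hε0, hε1⟩ b hb hbI
  obtain ⟨h1, h2⟩ := hK ε ⟨hε0, hε1⟩ hε2 b hb hbI
  refine ⟨P, hP, ?_, fun t ht => ?_⟩
  · rw [← hP1]
    exact abs_le_of_sq_le_sq' (h1.trans hε3) hδ.le |>.2
  · rw [← hP1]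
    exact abs_le_of_sq_le_sq' ((h2 t ht).trans hε3) hδ.le |>.2

end Pool.Agent.KRFCh
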