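import Pool.Agent.Work.MP_a2bf38_gt.Ch.Defs
import Pool.Agent.Work.MP_a2bf38_gt.W.Metric
import Pool.Agent.Work.MP_a2bf38_gt.I.GapA

/-!
# The distance to the points off the cone over a fibre
-/

open scoped ContDiff ENNReal ComplexOrder LinearAlgebra.Projectivization Topology
open Set Filter Pool.Agent.ToricKRF Pool.Agent.ToricKRF.G Pool.Agent.KRFS
  Pool.Agent.KRFF Pool.Agent.KRFZ Pool.Agent.KRFW

namespace Pool.Agent.KRFCh

namespace AW

theorem norm_cc_sq_le {m : ℕ} (v : Cn m) : ‖cc v‖ ^ 2 ≤ nsq v := by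
  have h0 := Gap.nsq_nonneg v
  have h1 : ‖cc v‖ ≤ √(nsq v) := by
    refine (pi_norm_le_iff_of_nonneg (Real.sqrt_nonneg _)).2 fun i => ?_
    refine Real.le_sqrt_of_sq_le ?_
    rw [← Complex.normSq_eq_norm_sq, Complex.normSq_apply]
    have := Gap.le_nsq v i
    simp only [cc]
    linarith
  calc ‖cc v‖ ^ 2 ≤ √(nsq v) ^ 2 := pow_le_pow_left₀ (norm_nonneg _) h1 2
    _ = nsq v := Real.sq_sqrt h0

theorem cc_sub {m : ℕ} (u v : Cn m) : cc (u - v) = cc u - cc v := by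
  rw [← MT.ccP_apply, map_sub, MT.ccP_apply, MT.ccP_apply]

variable {M Z : Type} [MetricSpace M] [MetricSpace Z] {n N : ℕ} {κ P : Type}
  {e : κ → OpenPartialHomeomorph M (Cn n)} {U : P → Set Z} {q : P → Z → Cn N} {f : M → Z}
  {ψ : κ → ℝ × Cn n → ℝ} {S : Set Z} {L : ℕ} {ι : M → ℙ ℂ (Fin (L + 1) → ℂ)}

/-- the estimate for the points `x₁` and `p` -/
def Q (f : M → Z) (ι : M → ℙ ℂ (Fin (L + 1) → ℂ)) (w : Z) (c : ℝ) (x₁ : Cn (L + 1)) (p : M) :
    Prop :=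
  ∀ (x' : Cn (L + 1)) (h : cc x' ≠ 0), ι p = Projectivization.mk ℂ (cc x') h →
    c ≤ nsq (x₁ - x') + dist (f p) w ^ 2

theorem local_away (G : GeoData e U q f ψ) (hι : IsEmbOver e U q f S ι) {w : Z}
    (hw : w ∈ S) {x : Cn (L + 1)} (hx : x ≠ 0) (hxw : x ∉ fcone f ι w) (p : M) :
    ∃ c > 0, ∀ᶠ z : Cn (L + 1) × M in 𝓝 (x, p), Q f ι w c z.1 z.2 := by
  by_cases hfp : f p = w
  · obtain ⟨c, hc⟩ := G.atlas.cover p
    obtain ⟨F, W, hxW, hF, -⟩ := hι.lift c (e c p) ((e c).map_source hc)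
      (by rwa [(e c).left_inv hc, hfp])
    have hX' : ContinuousAt (fun p => cc (F (e c p))) p := by
      have h1 : ContinuousAt F (e c p) := hF.2.2.1.1.continuousOn.continuousAt
        (hF.1.mem_nhds hxW)
      have h2 : ContinuousAt (fun p => MT.ccP (L + 1) (F (e c p))) p :=
        (MT.ccP (L + 1)).continuous.continuousAt.comp (h1.comp ((e c).continuousAt hc))
      simpa only [MT.ccP_apply] using h2
    have hX : ContinuousAt (fun x : Cn (L + 1) => cc x) x := by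
      have h2 : ContinuousAt (fun x : Cn (L + 1) => MT.ccP (L + 1) x) x :=
        (MT.ccP (L + 1)).continuous.continuousAt
      simpa only [MT.ccP_apply] using h2
    have hn' := (MT.exists_lift hF hc hxW).1
    have hcx : cc x ≠ 0 := cc_ne_zero hx
    have hne : ¬ ∃ a : ℂ, cc (F (e c p)) = a • cc x := by
      rintro ⟨a, ha⟩
      refine hxw ⟨p, hcx, hfp, ?_⟩
      obtain ⟨h0, h1⟩ := hF.2.2.2 _ hxW
      rw [(e c).left_inv hc] at h1
      rw [h1]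
      exact (Projectivization.mk_eq_mk_iff' ℂ _ _ h0 hcx).2 ⟨a, ha.symm⟩
    obtain ⟨ε, hε, hev⟩ := KRFAl.sep hX hX' hcx hne
    have hpos : 0 < ‖cc x‖ := norm_pos_iff.2 hcx
    refine ⟨(ε * (‖cc x‖ / 2)) ^ 2, by positivity, ?_⟩
    have e1 : ∀ᶠ z : Cn (L + 1) × M in 𝓝 (x, p), ‖cc x‖ / 2 < ‖cc z.1‖ := by
      have h3 : ∀ᶠ y in 𝓝 x, ‖cc x‖ / 2 < ‖cc y‖ :=
        continuousAt_const.eventually_lt hX.norm (by linarith)
      exact (continuous_fst.tendsto (x, p)).eventually h3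
    have e2 : ∀ᶠ z : Cn (L + 1) × M in 𝓝 (x, p), z.2 ∈ (e c).source ∧ e c z.2 ∈ W :=
      (continuous_snd.tendsto (x, p)).eventually (MT.near hc hF.1 hxW)
    filter_upwards [hev, e1, e2] with z h1 h2 h3 x' hx' hιx
    have h4 := h1 (cc z.1) (cc x') ⟨1, (one_smul _ _).symm⟩
      ((MT.exists_lift hF h3.1 h3.2).2 _ hx' hιx)
    rw [← cc_sub] at h4
    have h5 := norm_cc_sq_le (z.1 - x')
    have h6 : ε * (‖cc x‖ / 2) ≤ ‖cc (z.1 - x')‖ :=
      (mul_le_mul_of_nonneg_left h2.le hε.le).trans h4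
    have h7 := pow_le_pow_left₀ (by positivity) h6 2
    have h8 : 0 ≤ dist (f z.2) w ^ 2 := sq_nonneg _
    linarith
  · have hd : 0 < dist (f p) w := dist_pos.2 hfp
    refine ⟨(dist (f p) w / 2) ^ 2, by positivity, ?_⟩
    have h3 : ∀ᶠ y in 𝓝 p, dist (f p) w / 2 < dist (f y) w := by
      have h4 : ContinuousAt (fun y => dist (f y) w) p :=
        (G.cont.dist continuous_const).continuousAt
      exact continuousAt_const.eventually_lt h4 (by linarith)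
    have h4 : ∀ᶠ z : Cn (L + 1) × M in 𝓝 (x, p), dist (f p) w / 2 < dist (f z.2) w :=
      (continuous_snd.tendsto (x, p)).eventually h3
    filter_upwards [h4] with z hz x' _ _
    have h5 := Gap.nsq_nonneg (z.1 - x')
    have h6 := pow_le_pow_left₀ (by positivity) hz.le 2
    linarith

end AW

variable {M Z : Type} [MetricSpace M] [CompactSpace M] [MetricSpace Z] {n N : ℕ} {κ P : Type}
  {e : κ → OpenPartialHomeomorph M (Cn n)} {U : P → Set Z} {q : P → Z → Cn N} {f : M → Z}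
  {ψ : κ → ℝ × Cn n → ℝ} {S : Set Z} {L : ℕ} {ι : M → ℙ ℂ (Fin (L + 1) → ℂ)}

theorem fcone_away (G : GeoData e U q f ψ) (hι : IsEmbOver e U q f S ι) (_hS : IsOpen S) {w : Z}
    (hw : w ∈ S) {x : Cn (L + 1)} (hx : x ≠ 0) (hxw : x ∉ fcone f ι w) :
    ∃ c > 0, ∀ᶠ x₁ in 𝓝 x, ∀ (p : M) (x' : Cn (L + 1)) (h : cc x' ≠ 0),
      ι p = Projectivization.mk ℂ (cc x') h → c ≤ nsq (x₁ - x') + dist (f p) w ^ 2 := by
  classical
  choose c hc hev using fun p : M => AW.local_away G hι hw hx hxw p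
  have h1 : ∀ p : M, ∃ A ∈ 𝓝 p, ∃ B ∈ 𝓝 x, ∀ x₁ ∈ B, ∀ p' ∈ A, AW.Q f ι w (c p) x₁ p' := by
    intro p
    obtain ⟨B, hB, A, hA, hAB⟩ := mem_nhds_prod_iff.1 (hev p)
    exact ⟨A, hA, B, hB, fun x₁ h p' h' => hAB (mk_mem_prod h h')⟩
  choose A hA B hB hAB using h1
  obtain ⟨t, -, ht⟩ := (isCompact_univ : IsCompact (univ : Set M)).elim_nhds_subcover A
    (fun p _ => hA p)
  have hmin : ∃ c₀ > 0, ∀ p ∈ t, c₀ ≤ c p := by
    rcases t.eq_empty_or_nonempty with rfl | hne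
    · exact ⟨1, one_pos, fun p hp => absurd hp (Finset.notMem_empty p)⟩
    · obtain ⟨p, hp, hle⟩ := t.exists_min_image c hne
      exact ⟨c p, hc p, hle⟩
  obtain ⟨c₀, hc₀, hle⟩ := hmin
  refine ⟨c₀, hc₀, ?_⟩
  have h2 : ∀ᶠ x₁ in 𝓝 x, ∀ p ∈ t, x₁ ∈ B p :=
    (eventually_all_finset t).2 fun p _ => hB p
  filter_upwards [h2] with x₁ h3 p x' h hιx
  obtain ⟨p₀, hp₀, hp⟩ := mem_iUnion₂.1 (ht (mem_univ p))
  exact (hle p₀ hp₀).trans (hAB p₀ x₁ (h3 p₀ hp₀) p hp x' h hιx)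

end Pool.Agent.KRFCh
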