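import Mathlib.Analysis.InnerProductSpace.PiL2

/-!
# A sharp form of the inequality of Cauchy and Schwarz
-/

open scoped ComplexConjugate InnerProductSpace

namespace Pool.Agent.KRFCh.Cp

theorem norm_sq_perp {E : Type*} [NormedAddCommGroup E] [InnerProductSpace ℂ E] (X V : E) :
    ‖((‖X‖ ^ 2 : ℝ) : ℂ) • V - ⟪X, V⟫_ℂ • X‖ ^ 2 =
      ‖X‖ ^ 2 * (‖X‖ ^ 2 * ‖V‖ ^ 2 - ‖⟪X, V⟫_ℂ‖ ^ 2) := by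
  have h := @norm_sub_sq ℂ E _ _ _ (((‖X‖ ^ 2 : ℝ) : ℂ) • V) (⟪X, V⟫_ℂ • X)
  rw [h, norm_smul, norm_smul, inner_smul_left, inner_smul_right, Complex.norm_real,
    Real.norm_of_nonneg (by positivity), Complex.conj_ofReal]
  have h1 : ⟪X, V⟫_ℂ * ⟪V, X⟫_ℂ = ((‖⟪X, V⟫_ℂ‖ ^ 2 : ℝ) : ℂ) := by
    rw [← inner_conj_symm V X, Complex.mul_conj, Complex.normSq_eq_norm_sq]
  have h2 : RCLike.re (((‖X‖ ^ 2 : ℝ) : ℂ) * (⟪X, V⟫_ℂ * ⟪V, X⟫_ℂ)) =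
      ‖X‖ ^ 2 * ‖⟪X, V⟫_ℂ‖ ^ 2 := by
    rw [h1, ← Complex.ofReal_mul]
    exact Complex.ofReal_re _
  rw [h2]
  ring

theorem cs_gen {E : Type*} [NormedAddCommGroup E] [InnerProductSpace ℂ E] (X V B : E) (hX : X ≠ 0) :
    ‖((‖X‖ ^ 2 : ℝ) : ℂ) * ⟪B, V⟫_ℂ - ⟪X, V⟫_ℂ * ⟪B, X⟫_ℂ‖ ^ 2 ≤
      (‖X‖ ^ 2 * ‖V‖ ^ 2 - ‖⟪X, V⟫_ℂ‖ ^ 2) * (‖X‖ ^ 2 * ‖B‖ ^ 2 - ‖⟪X, B⟫_ℂ‖ ^ 2) := by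
  set v' := ((‖X‖ ^ 2 : ℝ) : ℂ) • V - ⟪X, V⟫_ℂ • X with hv
  set b' := ((‖X‖ ^ 2 : ℝ) : ℂ) • B - ⟪X, B⟫_ℂ • X with hb
  have h1 : ⟪b', v'⟫_ℂ = ((‖X‖ ^ 2 : ℝ) : ℂ) *
      (((‖X‖ ^ 2 : ℝ) : ℂ) * ⟪B, V⟫_ℂ - ⟪X, V⟫_ℂ * ⟪B, X⟫_ℂ) := by
    have h2 : ⟪X, v'⟫_ℂ = 0 := by
      rw [hv, inner_sub_right, inner_smul_right, inner_smul_right, inner_self_eq_norm_sq_to_K]
      push_cast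
      simp
      ring
    rw [hb, inner_sub_left, inner_smul_left, inner_smul_left, h2, mul_zero, sub_zero,
      Complex.conj_ofReal, hv, inner_sub_right, inner_smul_right, inner_smul_right]
  have h2 := norm_inner_le_norm (𝕜 := ℂ) b' v'
  have h3 : ‖⟪b', v'⟫_ℂ‖ ^ 2 ≤ ‖b'‖ ^ 2 * ‖v'‖ ^ 2 := by
    rw [← mul_pow]
    exact pow_le_pow_left₀ (norm_nonneg _) h2 2
  rw [h1, norm_mul, mul_pow, hb, hv, norm_sq_perp, norm_sq_perp, Complex.norm_real,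
    Real.norm_of_nonneg (by positivity)] at h3
  have hX0 : 0 < ‖X‖ ^ 2 := by
    have := norm_pos_iff.2 hX
    positivity
  have h4 : (‖X‖ ^ 2) ^ 2 * ‖((‖X‖ ^ 2 : ℝ) : ℂ) * ⟪B, V⟫_ℂ - ⟪X, V⟫_ℂ * ⟪B, X⟫_ℂ‖ ^ 2 ≤
      (‖X‖ ^ 2) ^ 2 * ((‖X‖ ^ 2 * ‖V‖ ^ 2 - ‖⟪X, V⟫_ℂ‖ ^ 2) *
        (‖X‖ ^ 2 * ‖B‖ ^ 2 - ‖⟪X, B⟫_ℂ‖ ^ 2)) := by
    calc _ ≤ _ := h3
      _ = _ := by ring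
  exact le_of_mul_le_mul_left h4 (by positivity)

end Pool.Agent.KRFCh.Cp
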