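import Pool.Agent.Work.MP_a2bf38_gt.Ch.Cal
import Pool.Agent.Work.MP_a2bf38_gt.Ch.Cs
import Pool.Agent.Work.MP_a2bf38_gt.I.NatFlow

/-!
# Calculus for the Fubini-Study form
-/

open scoped ContDiff Topology
open Set Filter Pool.Agent.ToricKRF Pool.Agent.ToricKRF.G Pool.Agent.KRFS
open Pool.Agent.KRFX.NC (fs fs_nonneg contDiff_nsq nsq_nonneg nsq_eq_zero levz_log_nsq D_log_nsq)
open Pool.Agent.KRFS.ABP (ip ip_self)

namespace Pool.Agent.KRFCh.Cp

variable {l : ℕ}

/-- `∑ b_j x_j` -/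
noncomputable def lf (b : Fin l → ℂ) (x : Cn l) : ℂ := ∑ j, b j * cc x j

/-- the chordal function `|∑ b_j x_j|^2 / |x|^2` -/
noncomputable def hb (b : Fin l → ℂ) (x : Cn l) : ℝ := Complex.normSq (lf b x) / nsq x

/-- the Fubini-Study form -/
noncomputable def FS (x v : Cn l) : ℝ := fs x v / nsq x ^ 2

theorem FS_nonneg (x v : Cn l) : 0 ≤ FS x v := div_nonneg (fs_nonneg x v) (sq_nonneg _)

theorem nsq_eq (x : Cn l) : nsq x = ∑ j, Complex.normSq (cc x j) := by
  unfold nsq dotProduct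
  rw [← Finset.sum_add_distrib]
  rfl

/-- hermitian Cauchy-Schwarz with the Lagrange identity -/
theorem fs_eq (x v : Cn l) :
    fs x v = nsq v * nsq x - Complex.normSq (∑ j, cc v j * (starRingEnd ℂ) (cc x j)) := by
  have h1 : ip x v = (∑ j, cc v j * (starRingEnd ℂ) (cc x j)).re := by
    rw [Complex.re_sum]
    unfold ip dotProduct
    rw [← Finset.sum_add_distrib]
    refine Finset.sum_congr rfl fun j _ => ?_
    simp [cc]
    ring
  have h2 : ip x (J v) = -(∑ j, cc v j * (starRingEnd ℂ) (cc x j)).im := by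
    rw [Complex.im_sum, ← Finset.sum_neg_distrib]
    unfold ip dotProduct
    rw [← Finset.sum_add_distrib]
    refine Finset.sum_congr rfl fun j _ => ?_
    simp [cc, J]
    ring
  rw [fs, h1, h2, Complex.normSq_apply]
  ring

/-- `|<x,x> <v,b> - <v,x> <x,b>|^2 ≤ fs x v * (|x|^2 |b|^2 - |<x,b>|^2)` -/
theorem cs_key (b : Fin l → ℂ) (x v : Cn l) (hx : nsq x ≠ 0) :
    Complex.normSq ((nsq x : ℂ) * lf b v - (∑ j, cc v j * (starRingEnd ℂ) (cc x j)) * lf b x) ≤
      fs x v * (nsq x * (∑ j, Complex.normSq (b j)) - Complex.normSq (lf b x)) := by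
  set E := EuclideanSpace ℂ (Fin l)
  set X : E := WithLp.toLp 2 (cc x) with hX
  set V : E := WithLp.toLp 2 (cc v) with hV
  set B : E := WithLp.toLp 2 (fun j => (starRingEnd ℂ) (b j)) with hB
  have nX : ‖X‖ ^ 2 = nsq x := by
    rw [EuclideanSpace.norm_sq_eq, nsq_eq]
    exact Finset.sum_congr rfl fun j _ => (Complex.normSq_eq_norm_sq _).symm
  have nV : ‖V‖ ^ 2 = nsq v := by
    rw [EuclideanSpace.norm_sq_eq, nsq_eq]
    exact Finset.sum_congr rfl fun j _ => (Complex.normSq_eq_norm_sq _).symm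
  have nB : ‖B‖ ^ 2 = ∑ j, Complex.normSq (b j) := by
    rw [EuclideanSpace.norm_sq_eq]
    refine Finset.sum_congr rfl fun j _ => ?_
    rw [Complex.normSq_eq_norm_sq, hB]
    simp
  have iXV : inner ℂ X V = ∑ j, cc v j * (starRingEnd ℂ) (cc x j) := by
    rw [PiLp.inner_apply]
    exact Finset.sum_congr rfl fun j _ => rfl
  have iBV : inner ℂ B V = lf b v := by
    rw [PiLp.inner_apply]
    refine Finset.sum_congr rfl fun j _ => ?_
    simp [hB, hV, mul_comm]
  have iBX : inner ℂ B X = lf b x := by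
    rw [PiLp.inner_apply]
    refine Finset.sum_congr rfl fun j _ => ?_
    simp [hB, hX, mul_comm]
  have iXB : ‖inner ℂ X B‖ ^ 2 = Complex.normSq (lf b x) := by
    rw [norm_inner_symm, iBX, Complex.normSq_eq_norm_sq]
  have hX0 : X ≠ 0 := by
    intro h
    rw [h] at nX
    simp at nX
    exact hx nX.symm
  have h := cs_gen X V B hX0
  rw [nX, nV, nB, iXV, iBV, iBX, iXB, ← Complex.normSq_eq_norm_sq,
    ← Complex.normSq_eq_norm_sq] at h
  rw [fs_eq, mul_comm (nsq v) (nsq x)]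
  exact h

/-! ### The function `log h_b` -/

variable {b : Fin l → ℂ} {x : Cn l}

theorem hb_nonneg (b : Fin l → ℂ) (x : Cn l) : 0 ≤ hb b x :=
  div_nonneg (Complex.normSq_nonneg _) (nsq_nonneg x)

theorem lf_add (b : Fin l → ℂ) (x y : Cn l) : lf b (x + y) = lf b x + lf b y := by
  unfold lf
  rw [← Finset.sum_add_distrib]
  refine Finset.sum_congr rfl fun j _ => ?_
  rw [Pool.Agent.KRFQ.cc_add]
  ring

theorem lf_smul (b : Fin l → ℂ) (r : ℝ) (x : Cn l) : lf b (r • x) = r * lf b x := by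
  unfold lf
  rw [Finset.mul_sum]
  refine Finset.sum_congr rfl fun j _ => ?_
  rw [Pool.Agent.KRFQ.cc_smul]
  ring

theorem lf_J (b : Fin l → ℂ) (x : Cn l) : lf b (J x) = Complex.I * lf b x := by
  unfold lf
  rw [Finset.mul_sum]
  refine Finset.sum_congr rfl fun j _ => ?_
  rw [cc_J]
  ring

/-- the form `lf b` as a continuous linear map -/
noncomputable def lfL (b : Fin l → ℂ) : Cn l →L[ℝ] ℂ :=
  LinearMap.toContinuousLinearMap
    { toFun := lf b
      map_add' := lf_add b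
      map_smul' := fun r x => by
        rw [lf_smul]
        simp }

theorem lfL_apply (b : Fin l → ℂ) (x : Cn l) : lfL b x = lf b x := rfl

theorem contDiff_lf (b : Fin l → ℂ) : ContDiff ℝ ∞ (lf b : Cn l → ℂ) := (lfL b).contDiff

theorem fderiv_lf (b : Fin l → ℂ) (x v : Cn l) : fderiv ℝ (lf b) x v = lf b v := by
  have h : fderiv ℝ (lf b) x = lfL b := (lfL b).hasFDerivAt.fderiv
  rw [h, lfL_apply]

theorem holC_lf (b : Fin l → ℂ) : Pool.Agent.KRFF.NF.HolC (lf b : Cn l → ℂ) univ :=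
  ⟨(contDiff_lf b).contDiffOn, fun x _ v => by rw [fderiv_lf, fderiv_lf, lf_J]⟩

theorem contDiff_normSq_lf (b : Fin l → ℂ) :
    ContDiff ℝ ∞ fun x : Cn l => Complex.normSq (lf b x) := by
  have h : (fun x : Cn l => Complex.normSq (lf b x)) = fun x =>
      (lf b x).re * (lf b x).re + (lf b x).im * (lf b x).im := by
    funext x
    exact Complex.normSq_apply _
  rw [h]
  have h1 := Complex.reCLM.contDiff.comp (contDiff_lf b)
  have h2 := Complex.imCLM.contDiff.comp (contDiff_lf b)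
  exact (h1.mul h1).add (h2.mul h2)

theorem contDiffAt_hb (hx : nsq x ≠ 0) : ContDiffAt ℝ ∞ (hb b) x :=
  (contDiff_normSq_lf b).contDiffAt.div contDiff_nsq.contDiffAt hx

theorem normSq_ne (_hx : nsq x ≠ 0) (h : hb b x ≠ 0) : Complex.normSq (lf b x) ≠ 0 := by
  intro h1
  exact h (by rw [hb, h1, zero_div])

theorem lf_ne (h : hb b x ≠ 0) : lf b x ≠ 0 := by
  intro h1
  exact h (by rw [hb, h1, map_zero, zero_div])

theorem log_hb_ev (hx : nsq x ≠ 0) (h : hb b x ≠ 0) :
    (fun x => Real.log (hb b x)) =ᶠ[𝓝 x]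
      fun x => Real.log (Complex.normSq (lf b x)) - Real.log (nsq x) := by
  have h1 : ∀ᶠ y in 𝓝 x, Complex.normSq (lf b y) ≠ 0 :=
    (contDiff_normSq_lf b).continuous.continuousAt.eventually_ne (normSq_ne hx h)
  have h2 : ∀ᶠ y in 𝓝 x, nsq y ≠ 0 := contDiff_nsq.continuous.continuousAt.eventually_ne hx
  filter_upwards [h1, h2] with y h1 h2
  exact Real.log_div h1 h2

theorem levz_log_hb (hx : nsq x ≠ 0) (h : hb b x ≠ 0) (v : Cn l) :
    levz (fun x => Real.log (hb b x)) v x = -FS x v := by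
  have c1 : ContDiffAt ℝ 2 (fun x => Real.log (Complex.normSq (lf b x))) x :=
    (((contDiff_normSq_lf b).contDiffAt).of_le two_le_infty).log (normSq_ne hx h)
  have c2 : ContDiffAt ℝ 2 (fun x : Cn l => Real.log (nsq x)) x :=
    ((contDiff_nsq.contDiffAt).of_le two_le_infty).log hx
  rw [Bd.levz_congr (log_hb_ev hx h), Bd.levz_sub c1 c2, levz_log_nsq hx,
    Pool.Agent.KRFF.NF.levz_log_normSq isOpen_univ (holC_lf b) (mem_univ x) (lf_ne h) v, FS]
  ring

theorem dsq_log_hb (hx : nsq x ≠ 0) (h : hb b x ≠ 0) (hb1 : ∑ j, Complex.normSq (b j) = 1)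
    (v : Cn l) : dsq (fun x => Real.log (hb b x)) v x ≤ ((hb b x)⁻¹ - 1) * FS x v := by
  have key : dsq (fun x => Real.log (hb b x)) v x = Complex.normSq ((nsq x : ℂ) * lf b v -
      (∑ j, cc v j * (starRingEnd ℂ) (cc x j)) * lf b x) /
        (nsq x ^ 2 * Complex.normSq (lf b x)) := by
    set H : Cn l → ℂ := fun w => ∑ j, cc w j * (starRingEnd ℂ) (cc x j) with hH
    set β : Cn l → ℂ := fun w => ((nsq x : ℂ) * lf b w - H w * lf b x) /
      ((nsq x : ℂ) * lf b x) with hβ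
    have hx' : (nsq x : ℂ) ≠ 0 := by exact_mod_cast hx
    have hne := lf_ne h
    have hD : ∀ w, D w (fun x => Real.log (hb b x)) x = 2 * (β w).re := by
      intro w
      have d1 : DifferentiableAt ℝ (fun x => Complex.normSq (lf b x)) x :=
        (contDiff_normSq_lf b).contDiffAt.differentiableAt (by simp)
      have d2 : DifferentiableAt ℝ (fun x : Cn l => nsq x) x :=
        contDiff_nsq.contDiffAt.differentiableAt (by simp)
      rw [LC.D_congr w (log_hb_ev hx h), LC.D_sub w (d1.log (normSq_ne hx h)) (d2.log hx),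
        LC.D_log w d1 (normSq_ne hx h), D_log_nsq hx]
      have e1 : D w (fun x => Complex.normSq (lf b x)) x =
          2 * (lf b w * (starRingEnd ℂ) (lf b x)).re := by
        have e2 : (fun x : Cn l => Complex.normSq (lf b x)) = fun x =>
            (lf b x).re * (lf b x).re + (lf b x).im * (lf b x).im := by
          funext x
          exact Complex.normSq_apply _
        have d3 : HasFDerivAt (fun x : Cn l => (lf b x).re) (Complex.reCLM.comp (lfL b)) x :=
          (Complex.reCLM.comp (lfL b)).hasFDerivAt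
        have d4 : HasFDerivAt (fun x : Cn l => (lf b x).im) (Complex.imCLM.comp (lfL b)) x :=
          (Complex.imCLM.comp (lfL b)).hasFDerivAt
        have d5 := ((d3.fun_mul d3).fun_add (d4.fun_mul d4)).fderiv
        unfold D
        rw [e2, d5]
        simp [lfL_apply]
        ring
      have e3 : (β w).re = (lf b w * (starRingEnd ℂ) (lf b x)).re / Complex.normSq (lf b x) -
          (H w).re / nsq x := by
        have e4 : β w = lf b w * (starRingEnd ℂ) (lf b x) / (Complex.normSq (lf b x) : ℂ) -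
            H w / (nsq x : ℂ) := by
          have e5 : (Complex.normSq (lf b x) : ℂ) = lf b x * (starRingEnd ℂ) (lf b x) :=
            (Complex.mul_conj _).symm
          have e6 : (starRingEnd ℂ) (lf b x) ≠ 0 := (map_ne_zero _).2 hne
          rw [hβ, e5]
          field_simp
        rw [e4, Complex.sub_re, Complex.div_ofReal_re, Complex.div_ofReal_re]
      have e7 : ip x w = (H w).re := by
        rw [hH, Complex.re_sum]
        unfold ip dotProduct
        rw [← Finset.sum_add_distrib]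
        refine Finset.sum_congr rfl fun j _ => ?_
        simp [cc]
        ring
      rw [e1, e3, e7]
      ring
    have hJ : β (J v) = Complex.I * β v := by
      have e1 : H (J v) = Complex.I * H v := by
        rw [hH]
        simp only [Finset.mul_sum]
        refine Finset.sum_congr rfl fun j _ => ?_
        rw [cc_J]
        ring
      simp only [hβ]
      rw [e1, lf_J]
      ring
    have e1 : dsq (fun x => Real.log (hb b x)) v x = Complex.normSq (β v) := by
      unfold dsq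
      rw [hD, hD, hJ, Complex.normSq_apply]
      simp
      ring
    rw [e1, hβ, Complex.normSq_div, Complex.normSq_mul, Complex.normSq_ofReal]
    ring
  rw [key]
  have h1 := cs_key b x v hx
  rw [hb1, mul_one] at h1
  have h2 := nsq_nonneg x
  have h3 : 0 < nsq x := lt_of_le_of_ne h2 (Ne.symm hx)
  have h4 : 0 < Complex.normSq (lf b x) := Complex.normSq_pos.2 (lf_ne h)
  rw [div_le_iff₀ (by positivity)]
  refine h1.trans (le_of_eq ?_)
  rw [hb, FS]
  field_simp

theorem hb_le_one (hb1 : ∑ j, Complex.normSq (b j) = 1) (x : Cn l) : hb b x ≤ 1 := by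
  have h1 : Complex.normSq (lf b x) ≤ nsq x := by
    have h2 : ‖lf b x‖ ≤ ∑ j, ‖b j‖ * ‖cc x j‖ := by
      refine (norm_sum_le _ _).trans (le_of_eq ?_)
      exact Finset.sum_congr rfl fun j _ => norm_mul _ _
    have h3 : (∑ j, ‖b j‖ * ‖cc x j‖) ^ 2 ≤ (∑ j, ‖b j‖ ^ 2) * ∑ j, ‖cc x j‖ ^ 2 :=
      Finset.sum_mul_sq_le_sq_mul_sq _ _ _
    simp only [← Complex.normSq_eq_norm_sq] at h3
    rw [hb1, one_mul, ← nsq_eq] at h3
    rw [Complex.normSq_eq_norm_sq]
    exact (pow_le_pow_left₀ (norm_nonneg _) h2 2).trans h3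
  exact div_le_one_of_le₀ h1 (nsq_nonneg x)

theorem dsq_hb (hx : nsq x ≠ 0) (h : hb b x ≠ 0) (v : Cn l) :
    dsq (hb b) v x = hb b x ^ 2 * dsq (fun x => Real.log (hb b x)) v x := by
  have d : DifferentiableAt ℝ (hb b) x := (contDiffAt_hb hx).differentiableAt (by simp)
  rw [dsq_log d h]
  field_simp

theorem dsq_hb_le (hx : nsq x ≠ 0) (h : hb b x ≠ 0) (hb1 : ∑ j, Complex.normSq (b j) = 1)
    (v : Cn l) : dsq (hb b) v x ≤ hb b x * (1 - hb b x) * FS x v := by
  rw [dsq_hb hx h]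
  calc hb b x ^ 2 * dsq (fun x => Real.log (hb b x)) v x ≤
      hb b x ^ 2 * (((hb b x)⁻¹ - 1) * FS x v) :=
        mul_le_mul_of_nonneg_left (dsq_log_hb hx h hb1 v) (sq_nonneg _)
    _ = _ := by field_simp

theorem levz_hb (hx : nsq x ≠ 0) (h : hb b x ≠ 0) (v : Cn l) :
    levz (hb b) v x = -(hb b x * FS x v) + dsq (hb b) v x / hb b x := by
  have c : ContDiffAt ℝ 2 (hb b) x := (contDiffAt_hb hx).of_le two_le_infty
  have h1 := levz_log_hb hx h v
  rw [levz_log c h] at h1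
  have h2 : levz (hb b) v x = hb b x * (levz (hb b) v x / hb b x - dsq (hb b) v x / hb b x ^ 2) +
      dsq (hb b) v x / hb b x := by
    field_simp
    ring
  rw [h2, h1]
  ring

theorem abs_levz_hb (hx : nsq x ≠ 0) (h : hb b x ≠ 0) (hb1 : ∑ j, Complex.normSq (b j) = 1)
    (v : Cn l) : |levz (hb b) v x| ≤ FS x v := by
  have h0 : 0 < hb b x := lt_of_le_of_ne (hb_nonneg b x) (Ne.symm h)
  have h1 := hb_le_one hb1 x
  have h2 := FS_nonneg x v
  have h3 : dsq (hb b) v x / hb b x ≤ (1 - hb b x) * FS x v := by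
    rw [div_le_iff₀ h0]
    refine (dsq_hb_le hx h hb1 v).trans (le_of_eq ?_)
    ring
  have h4 : 0 ≤ dsq (hb b) v x / hb b x := div_nonneg (dsq_nonneg _ _ _) h0.le
  rw [levz_hb hx h, abs_le]
  constructor <;> nlinarith

/-! ### The cut-off -/

theorem exists_Xi {s₀ s₁ : ℝ} (hs : s₀ < s₁) : ∃ Xi : ℝ → ℝ, ContDiff ℝ ∞ Xi ∧
    (∀ s, 0 ≤ Xi s) ∧ (∀ s, Xi s ≤ 1) ∧ (∀ s, Xi s = 0 ↔ s ≤ s₀) ∧ (∀ s, s₁ ≤ s → Xi s = 1) ∧
    ∃ C : ℝ, 0 ≤ C ∧ ∀ s ∈ Icc (0 : ℝ) 1, |deriv Xi s| ≤ C ∧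
      |deriv (deriv Xi) s| ≤ C ∧ deriv Xi s ^ 2 ≤ C * Xi s := by
  have hc : 0 < s₁ - s₀ := sub_pos.2 hs
  set θ : ℝ → ℝ := fun s => Real.smoothTransition ((s - s₀) / (s₁ - s₀)) with hθ
  have cθ : ContDiff ℝ ∞ θ := Real.smoothTransition.contDiff.comp
    ((contDiff_id.sub contDiff_const).div_const _)
  set Xi : ℝ → ℝ := fun s => θ s ^ 2 with hXi
  have cX : ContDiff ℝ ∞ Xi := cθ.pow 2
  have c1 : Continuous (deriv Xi) := cX.continuous_deriv (by simp)
  have c2 : Continuous (deriv (deriv Xi)) := by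
    have h1 : ContDiff ℝ 1 (deriv Xi) := by
      have h2 : ContDiff ℝ (1 + 1) Xi := by
        rw [one_add_one_eq_two]
        exact cX.of_le two_le_infty
      exact (contDiff_succ_iff_deriv.1 h2).2.2
    exact h1.continuous_deriv le_rfl
  have c3 : Continuous (deriv θ) := cθ.continuous_deriv (by simp)
  have hd : ∀ s, deriv Xi s = 2 * θ s * deriv θ s := by
    intro s
    have h1 : HasDerivAt θ (deriv θ s) s := (cθ.differentiable (by simp) s).hasDerivAt
    have h2 := (h1.fun_pow 2).deriv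
    rw [hXi, h2]
    simp
  obtain ⟨C1, hC1⟩ := (isCompact_Icc (a := (0 : ℝ)) (b := 1)).exists_bound_of_continuousOn
    c1.continuousOn
  obtain ⟨C2, hC2⟩ := (isCompact_Icc (a := (0 : ℝ)) (b := 1)).exists_bound_of_continuousOn
    c2.continuousOn
  obtain ⟨C3, hC3⟩ := (isCompact_Icc (a := (0 : ℝ)) (b := 1)).exists_bound_of_continuousOn
    c3.continuousOn
  refine ⟨Xi, cX, fun s => sq_nonneg _, fun s => ?_, fun s => ⟨fun h => ?_, fun h => ?_⟩,
    fun s hs => ?_, max (max C1 C2) (4 * C3 ^ 2), ?_, fun s hs => ⟨?_, ?_, ?_⟩⟩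
  · have h1 := Real.smoothTransition.le_one ((s - s₀) / (s₁ - s₀))
    have h2 := Real.smoothTransition.nonneg ((s - s₀) / (s₁ - s₀))
    exact pow_le_one₀ h2 h1
  · by_contra hlt
    rw [not_le] at hlt
    have h1 : 0 < θ s := Real.smoothTransition.pos_of_pos (div_pos (sub_pos.2 hlt) hc)
    have h2 : 0 < Xi s := pow_pos h1 2
    exact h2.ne' h
  · have h1 : θ s = 0 := Real.smoothTransition.zero_of_nonpos
      (div_nonpos_of_nonpos_of_nonneg (sub_nonpos.2 h) hc.le)
    simp [hXi, h1]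
  · have h1 : θ s = 1 := Real.smoothTransition.one_of_one_le (by rw [le_div_iff₀ hc]; linarith)
    simp [hXi, h1]
  · exact (by positivity : (0 : ℝ) ≤ 4 * C3 ^ 2).trans (le_max_right _ _)
  · exact ((hC1 s hs).trans (le_max_left _ _)).trans (le_max_left _ _)
  · exact ((hC2 s hs).trans (le_max_right _ _)).trans (le_max_left _ _)
  · rw [hd]
    have h1 : deriv θ s ^ 2 ≤ C3 ^ 2 := by
      rw [← sq_abs]
      exact pow_le_pow_left₀ (abs_nonneg _) (hC3 s hs) 2
    have h2 : 4 * C3 ^ 2 ≤ max (max C1 C2) (4 * C3 ^ 2) := le_max_right _ _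
    calc (2 * θ s * deriv θ s) ^ 2 = 4 * deriv θ s ^ 2 * Xi s := by rw [hXi]; ring
      _ ≤ 4 * C3 ^ 2 * Xi s := by
        refine mul_le_mul_of_nonneg_right ?_ (sq_nonneg _)
        linarith
      _ ≤ _ := mul_le_mul_of_nonneg_right h2 (sq_nonneg _)

/-- The Levi form of `log Xi(h_b)`. -/
theorem levz_log_kappa {Xi : ℝ → ℝ} (hXi : ContDiff ℝ ∞ Xi) (h0 : ∀ s, 0 ≤ Xi s)
    {C : ℝ} (hC : ∀ s ∈ Icc (0 : ℝ) 1, |deriv Xi s| ≤ C ∧
      |deriv (deriv Xi) s| ≤ C ∧ deriv Xi s ^ 2 ≤ C * Xi s)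
    (hb1 : ∑ j, Complex.normSq (b j) = 1) (hx : nsq x ≠ 0) (h : hb b x ≠ 0)
    (hk : Xi (hb b x) ≠ 0) (v : Cn l) :
    -(3 * C * FS x v / Xi (hb b x)) ≤ levz (fun x => Real.log (Xi (hb b x))) v x := by
  have hmem : hb b x ∈ Icc (0 : ℝ) 1 := ⟨hb_nonneg b x, hb_le_one hb1 x⟩
  obtain ⟨C1, C2, C3⟩ := hC _ hmem
  have ch : ContDiffAt ℝ 2 (hb b) x := (contDiffAt_hb hx).of_le two_le_infty
  have cX : ContDiffAt ℝ 2 Xi (hb b x) := hXi.contDiffAt.of_le two_le_infty
  have ck : ContDiffAt ℝ 2 (fun x => Xi (hb b x)) x := cX.comp x ch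
  have hpos : 0 < Xi (hb b x) := lt_of_le_of_ne (h0 _) (Ne.symm hk)
  rw [levz_log ck hk, levz_fun cX ch, dsq_fun (cX.differentiableAt (by norm_num))
    (ch.differentiableAt (by norm_num))]
  have hF := FS_nonneg x v
  have hd0 := dsq_nonneg (hb b) v x
  have hd1 : dsq (hb b) v x ≤ FS x v := by
    refine (dsq_hb_le hx h hb1 v).trans ?_
    have h1 : hb b x * (1 - hb b x) ≤ 1 := by nlinarith [hmem.1, hmem.2]
    exact (mul_le_mul_of_nonneg_right h1 hF).trans (le_of_eq (one_mul _))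
  have hC0 : 0 ≤ C := (abs_nonneg _).trans C1
  have e1 : -(C * FS x v) ≤ deriv Xi (hb b x) * levz (hb b) v x := by
    have h1 : |deriv Xi (hb b x) * levz (hb b) v x| ≤ C * FS x v := by
      rw [abs_mul]
      exact mul_le_mul C1 (abs_levz_hb hx h hb1 v) (abs_nonneg _) hC0
    exact (abs_le.1 h1).1
  have e2 : -(C * FS x v) ≤ deriv (deriv Xi) (hb b x) * dsq (hb b) v x := by
    have h1 : |deriv (deriv Xi) (hb b x) * dsq (hb b) v x| ≤ C * FS x v := by
      rw [abs_mul, abs_of_nonneg hd0]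
      exact mul_le_mul C2 hd1 hd0 hC0
    exact (abs_le.1 h1).1
  have e3 : deriv Xi (hb b x) ^ 2 * dsq (hb b) v x / Xi (hb b x) ^ 2 ≤
      C * FS x v / Xi (hb b x) := by
    rw [div_le_div_iff₀ (by positivity) hpos]
    have h1 : deriv Xi (hb b x) ^ 2 * dsq (hb b) v x ≤ C * Xi (hb b x) * FS x v :=
      mul_le_mul C3 hd1 hd0 (by positivity)
    calc deriv Xi (hb b x) ^ 2 * dsq (hb b) v x * Xi (hb b x) ≤
        C * Xi (hb b x) * FS x v * Xi (hb b x) := mul_le_mul_of_nonneg_right h1 hpos.le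
      _ = _ := by ring
  have e4 : -(2 * C * FS x v) / Xi (hb b x) ≤ (deriv Xi (hb b x) * levz (hb b) v x +
      deriv (deriv Xi) (hb b x) * dsq (hb b) v x) / Xi (hb b x) := by
    gcongr
    linarith
  have e5 : -(3 * C * FS x v / Xi (hb b x)) = -(2 * C * FS x v) / Xi (hb b x) -
      C * FS x v / Xi (hb b x) := by ring
  rw [e5]
  linarith

end Pool.Agent.KRFCh.Cp
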