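import Pool.Agent.Work.MP_a2bf38_gt.Ch.Defs
import Pool.Agent.Work.MP_a2bf38_gt.Ch.Fubini

/-!
# Cut-off functions on the caps
-/

open scoped ContDiff Topology
open Set Filter Pool.Agent.ToricKRF Pool.Agent.ToricKRF.G Pool.Agent.KRFS
open Pool.Agent.KRFX.NC (contDiff_nsq nsq_nonneg nsq_eq_zero levz_log_nsq)

namespace Pool.Agent.KRFCh

variable {l : ℕ}

/-- the coefficients of the linear form `<x, b> / |b|` -/
noncomputable def ucf (b : Cn l) (k : Fin l) : ℂ :=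
  (starRingEnd ℂ) (cc b k) * (((√(nsq b))⁻¹ : ℝ) : ℂ)

theorem lf_ucf (b x : Cn l) : Cp.lf (ucf b) x =
    (((√(nsq b))⁻¹ : ℝ) : ℂ) * ∑ k, cc x k * (starRingEnd ℂ) (cc b k) := by
  unfold Cp.lf ucf
  rw [Finset.mul_sum]
  refine Finset.sum_congr rfl fun k _ => ?_
  ring

theorem hb_ucf (b x : Cn l) : Cp.hb (ucf b) x = hcap b x := by
  have h0 := nsq_nonneg b
  rw [Cp.hb, lf_ucf, hcap, Complex.normSq_mul, Complex.normSq_ofReal,
    Complex.normSq_eq_norm_sq]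
  have h1 : (√(nsq b))⁻¹ * (√(nsq b))⁻¹ = (nsq b)⁻¹ := by
    rw [← mul_inv, Real.mul_self_sqrt h0]
  rw [h1, div_eq_mul_inv, div_eq_mul_inv, mul_inv]
  ring

theorem sum_ucf {b : Cn l} (hb : b ≠ 0) : ∑ k, Complex.normSq (ucf b k) = 1 := by
  have h0 : 0 < nsq b := lt_of_le_of_ne (nsq_nonneg b) fun h => hb (nsq_eq_zero.1 h.symm)
  have h1 : ∀ k, Complex.normSq (ucf b k) = Complex.normSq (cc b k) * (nsq b)⁻¹ := by
    intro k
    rw [ucf, Complex.normSq_mul, Complex.normSq_ofReal, Complex.normSq_conj, ← mul_inv,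
      Real.mul_self_sqrt h0.le]
  simp only [h1]
  rw [← Finset.sum_mul, ← Cp.nsq_eq, mul_inv_cancel₀ h0.ne']

theorem hcap_eq (b : Cn l) : hcap b = Cp.hb (ucf b) := funext fun x => (hb_ucf b x).symm

theorem contDiffOn_hcap {l : ℕ} (b : Cn l) : ContDiffOn ℝ ∞ (hcap b) {x | x ≠ 0} := by
  intro x hx
  rw [hcap_eq]
  exact (Cp.contDiffAt_hb fun h => hx (nsq_eq_zero.1 h)).contDiffWithinAt

theorem exists_cap (l : ℕ) {η : ℝ} (hη : 0 < η) (hη1 : η ≤ 1) : ∃ (χ : ℝ → ℝ) (C : ℝ),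
    ContDiff ℝ ∞ χ ∧ 0 < C ∧ (∀ s, 0 ≤ χ s ∧ χ s ≤ 1) ∧ (∀ s, χ s = 0 ↔ s ≤ 1 - η / 2) ∧
    (∀ s, 1 - η / 4 ≤ s → C⁻¹ ≤ χ s) ∧
    ∀ b x v : Cn l, b ≠ 0 → x ≠ 0 → 1 - η / 2 < hcap b x →
      -C * levz (fun x => Real.log (nsq x)) v x ≤
        χ (hcap b x) * levz (fun x => Real.log (χ (hcap b x))) v x := by
  obtain ⟨χ, h1, h2, h3, h4, h5, C, hC0, hC⟩ :=
    Cp.exists_Xi (s₀ := 1 - η / 2) (s₁ := 1 - η / 4) (by linarith)
  refine ⟨χ, 3 * C + 1, h1, by positivity, fun s => ⟨h2 s, h3 s⟩, h4, fun s hs => ?_,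
    fun b x v hb hx hbx => ?_⟩
  · rw [h5 s hs]
    exact inv_le_one_of_one_le₀ (by linarith)
  · have hx0 : nsq x ≠ 0 := fun h => hx (nsq_eq_zero.1 h)
    have hh : Cp.hb (ucf b) x ≠ 0 := by
      rw [hb_ucf]
      have : 0 < hcap b x := by linarith
      exact this.ne'
    have hk : χ (Cp.hb (ucf b) x) ≠ 0 := by
      rw [hb_ucf]
      intro h
      have := (h4 _).1 h
      linarith
    have h6 := Cp.levz_log_kappa h1 h2 hC (sum_ucf hb) hx0 hh hk v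
    have h7 : 0 < χ (Cp.hb (ucf b) x) := lt_of_le_of_ne (h2 _) (Ne.symm hk)
    rw [levz_log_nsq hx0]
    change -(3 * C + 1) * Cp.FS x v ≤ _
    have h8 := Cp.FS_nonneg x v
    have h9 := mul_le_mul_of_nonneg_left h6 h7.le
    rw [hcap_eq]
    refine le_trans ?_ h9
    have h10 : χ (Cp.hb (ucf b) x) * -(3 * C * Cp.FS x v / χ (Cp.hb (ucf b) x)) =
        -(3 * C * Cp.FS x v) := by
      field_simp
    rw [h10]
    linarith

end Pool.Agent.KRFCh
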