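import Pool.Agent.Work.MP_a2bf38_gt.Ch.Cap

/-!
# Finitely many caps
-/

open scoped ContDiff ENNReal ComplexOrder LinearAlgebra.Projectivization Topology
open Set Filter Pool.Agent.ToricKRF Pool.Agent.ToricKRF.G Pool.Agent.KRFS Pool.Agent.KRFF
  Pool.Agent.KRFZ
open Pool.Agent.KRFX.NC (contDiff_nsq nsq_nonneg nsq_eq_zero)

namespace Pool.Agent.KRFCh

section Cap

variable {l : ℕ}

theorem nsq_pos {x : Cn l} (hx : x ≠ 0) : 0 < nsq x :=
  lt_of_le_of_ne (nsq_nonneg x) fun h => hx (nsq_eq_zero.1 h.symm)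

/-- the multiple `c x` -/
noncomputable def csm (c : ℂ) (x : Cn l) : Cn l := c.re • x + c.im • J x

theorem cc_csm (c : ℂ) (x : Cn l) (k : Fin l) : cc (csm c x) k = c * cc x k := by
  unfold csm
  rw [Pool.Agent.KRFQ.cc_add, Pool.Agent.KRFQ.cc_smul, Pool.Agent.KRFQ.cc_smul, cc_J]
  conv_rhs => rw [← Complex.re_add_im c]
  ring

theorem csm_csm (c d : ℂ) (x : Cn l) : csm c (csm d x) = csm (c * d) x :=
  Pool.Agent.KRFQ.cc_ext fun k => by rw [cc_csm, cc_csm, cc_csm]; ring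

theorem csm_one (x : Cn l) : csm 1 x = x :=
  Pool.Agent.KRFQ.cc_ext fun k => by rw [cc_csm, one_mul]

theorem normSq_re_im {c : ℂ} (hc : c ≠ 0) : c.re ^ 2 + c.im ^ 2 ≠ 0 := by
  have h := Complex.normSq_pos.2 hc
  rw [Complex.normSq_apply] at h
  nlinarith

/-- the distance of `b` to the line of `x` -/
theorem exists_mult {b x : Cn l} (hx : x ≠ 0) (h : 0 < hcap b x) : ∃ c : ℂ, c ≠ 0 ∧
    nsq (csm c x - b) = nsq b * (1 - hcap b x) := by
  have hx0 := nsq_pos hx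
  have hb : b ≠ 0 := by
    rintro rfl
    simp [hcap, nsq] at h
  have hb0 := nsq_pos hb
  set s : ℂ := ∑ k, cc x k * (starRingEnd ℂ) (cc b k) with hs
  have hs0 : s ≠ 0 := by
    intro h0
    rw [hcap, ← hs, h0] at h
    simp at h
  refine ⟨(starRingEnd ℂ) s / (nsq x : ℂ), div_ne_zero ((map_ne_zero _).2 hs0)
    (by exact_mod_cast hx0.ne'), ?_⟩
  set c : ℂ := (starRingEnd ℂ) s / (nsq x : ℂ) with hc
  have h1 : (nsq (csm c x - b) : ℂ) = c * (starRingEnd ℂ) c * (nsq x : ℂ) -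
      c * s - (starRingEnd ℂ) (c * s) + (nsq b : ℂ) := by
    rw [Cp.nsq_eq, Cp.nsq_eq x, Cp.nsq_eq b]
    push_cast
    simp only [← Complex.mul_conj, hs, Finset.mul_sum, map_sum]
    rw [← Finset.sum_sub_distrib, ← Finset.sum_sub_distrib, ← Finset.sum_add_distrib]
    refine Finset.sum_congr rfl fun k _ => ?_
    rw [Pool.Agent.KRFQ.cc_sub, cc_csm]
    simp only [map_sub, map_mul, Complex.conj_conj]
    ring
  have h2 : c * s = ((‖s‖ ^ 2 / nsq x : ℝ) : ℂ) := by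
    rw [hc]
    push_cast
    rw [← Complex.conj_mul']
    ring
  have h3 : c * (starRingEnd ℂ) c * (nsq x : ℂ) = ((‖s‖ ^ 2 / nsq x : ℝ) : ℂ) := by
    have hx1 : (nsq x : ℂ) ≠ 0 := by exact_mod_cast hx0.ne'
    rw [hc]
    push_cast
    rw [map_div₀, Complex.conj_conj, Complex.conj_ofReal, ← Complex.conj_mul']
    field_simp
  rw [h2, h3, Complex.conj_ofReal] at h1
  have h4 : nsq (csm c x - b) = ‖s‖ ^ 2 / nsq x - ‖s‖ ^ 2 / nsq x - ‖s‖ ^ 2 / nsq x + nsq b := by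
    exact_mod_cast h1
  rw [h4, hcap, ← hs]
  field_simp
  ring

/-- a cone which contains `b` contains a cap -/
theorem exists_eta {O : Set (Cn l)} (hO : IsOpen O)
    (hc : ∀ x ∈ O, ∀ a b : ℝ, a ^ 2 + b ^ 2 ≠ 0 → a • x + b • J x ∈ O) {b : Cn l} (hb : b ∈ O)
    (hb0 : b ≠ 0) : ∃ η : ℝ, 0 < η ∧ η ≤ 1 ∧ ∀ x, x ≠ 0 → 1 - η < hcap b x → x ∈ O := by
  obtain ⟨δ, hδ, hball⟩ : ∃ δ > 0, ∀ y : Cn l, nsq (y - b) < δ → y ∈ O := by
    obtain ⟨r, hr, hsub⟩ := Metric.isOpen_iff.1 hO b hb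
    refine ⟨r ^ 2, by positivity, fun y hy => hsub ?_⟩
    rw [Metric.mem_ball, dist_eq_norm, Prod.norm_def]
    have h1 : ∀ i, |(y - b).1 i| < r := fun i => by
      have h2 := Pool.Agent.KRFS.ABP.sq_le_nsq₁ (y - b) i
      exact abs_lt_of_sq_lt_sq (lt_of_le_of_lt h2 hy) hr.le
    have h2 : ∀ i, |(y - b).2 i| < r := fun i => by
      have h2 := Pool.Agent.KRFS.ABP.sq_le_nsq₂ (y - b) i
      exact abs_lt_of_sq_lt_sq (lt_of_le_of_lt h2 hy) hr.le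
    exact max_lt ((pi_norm_lt_iff hr).2 h1) ((pi_norm_lt_iff hr).2 h2)
  have hb1 := nsq_pos hb0
  refine ⟨min 1 (δ / nsq b), lt_min one_pos (by positivity), min_le_left _ _, fun x hx hx1 => ?_⟩
  have h0 : 0 < hcap b x := by
    have := min_le_left (1 : ℝ) (δ / nsq b)
    linarith
  obtain ⟨c, hc0, h1⟩ := exists_mult hx h0
  have h2 : nsq (csm c x - b) < δ := by
    rw [h1]
    have h3 : 1 - hcap b x < δ / nsq b := by
      have := min_le_right (1 : ℝ) (δ / nsq b)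
      linarith
    rw [lt_div_iff₀ hb1] at h3
    linarith
  have h3 := hball _ h2
  have h4 := hc _ h3 (c⁻¹).re (c⁻¹).im (normSq_re_im (inv_ne_zero hc0))
  change csm c⁻¹ (csm c x) ∈ O at h4
  rwa [csm_csm, inv_mul_cancel₀ hc0, csm_one] at h4

theorem hcap_self {b : Cn l} (hb : b ≠ 0) : hcap b b = 1 := by
  have h1 : ∑ k, cc b k * (starRingEnd ℂ) (cc b k) = ((nsq b : ℝ) : ℂ) := by
    rw [Cp.nsq_eq]
    push_cast
    exact Finset.sum_congr rfl fun k _ => Complex.mul_conj _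
  have hb1 := nsq_pos hb
  rw [hcap, h1, Complex.norm_real, Real.norm_of_nonneg hb1.le]
  field_simp

theorem hcap_smul {r : ℝ} (hr : r ≠ 0) (b x : Cn l) : hcap b (r • x) = hcap b x := by
  unfold hcap
  have h1 : ∑ k, cc (r • x) k * (starRingEnd ℂ) (cc b k) =
      (r : ℂ) * ∑ k, cc x k * (starRingEnd ℂ) (cc b k) := by
    rw [Finset.mul_sum]
    refine Finset.sum_congr rfl fun k _ => ?_
    rw [Pool.Agent.KRFQ.cc_smul]
    ring
  rw [h1, Pool.Agent.KRFS.ABP.nsq_smul, norm_mul, mul_pow, Complex.norm_real, Real.norm_eq_abs,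
    sq_abs, mul_assoc, mul_div_mul_left _ _ (pow_ne_zero 2 hr)]

/-- finitely many caps cover -/
theorem exists_finite_caps (η : Cn l → ℝ) (hη : ∀ b, b ≠ 0 → 0 < η b) :
    ∃ t : Finset (Cn l), (∀ b ∈ t, b ≠ 0) ∧
      ∀ x, x ≠ 0 → ∃ b ∈ t, 1 - η b / 4 < hcap b x := by
  classical
  set K : Set (Cn l) := {x | nsq x = 1} with hK
  have hKc : IsCompact K := by
    have h1 : K = {x | nsq x ≤ 1} ∩ {x | nsq x = 1} := by
      ext x
      simp only [hK, mem_ofPred_eq, mem_inter_iff]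
      constructor
      · intro h
        exact ⟨h.le, h⟩
      · exact fun h => h.2
    rw [h1]
    exact Pool.Agent.KRFS.ABP.isCompact_nsq.inter_right
      (isClosed_eq contDiff_nsq.continuous continuous_const)
  have hne : ∀ x ∈ K, x ≠ 0 := by
    rintro x hx rfl
    simp [hK, nsq] at hx
  set V : Cn l → Set (Cn l) := fun b => {x | x ≠ 0 ∧ 1 - η b / 4 < hcap b x} with hV
  have hVo : ∀ b, IsOpen (V b) := fun b =>
    (contDiffOn_hcap b).continuousOn.isOpen_inter_preimage isOpen_ne isOpen_Ioi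
  obtain ⟨t, ht, hcov⟩ := hKc.elim_nhds_subcover V fun b hb =>
    (hVo b).mem_nhds ⟨hne b hb, by
      rw [hcap_self (hne b hb)]
      have := hη b (hne b hb)
      linarith⟩
  refine ⟨t, fun b hb => hne b (ht b hb), fun x hx => ?_⟩
  have hx0 := nsq_pos hx
  have hs : √(nsq x) ≠ 0 := (Real.sqrt_pos.2 hx0).ne'
  have h1 : (√(nsq x))⁻¹ • x ∈ K := by
    rw [hK, mem_ofPred_eq, Pool.Agent.KRFS.ABP.nsq_smul, inv_pow, Real.sq_sqrt hx0.le,
      inv_mul_cancel₀ hx0.ne']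
  have h2 := hcov h1
  simp only [mem_iUnion, exists_prop] at h2
  obtain ⟨b, hb, hbx⟩ := h2
  refine ⟨b, hb, ?_⟩
  have h3 := hbx.2
  rwa [hcap_smul (inv_ne_zero hs)] at h3

end Cap

section

variable {M Z : Type} [MetricSpace M] [CompactSpace M] [MetricSpace Z]
  {f : M → Z} {S : Set Z} {L : ℕ} {ι : M → ℙ ℂ (Fin (L + 1) → ℂ)}

omit [MetricSpace M] [CompactSpace M] in
theorem IsEq.mono {r : ℕ} {O : Set (Cn (L + 1))} {S₁ S₂ : Set Z}
    {E : Z → Cn (L + 1) → Cn r} {C₁ C₂ : ℝ} (h : IsEq f ι O S₁ E C₁) (hS : S₂ ⊆ S₁)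
    (hC : C₁ ≤ C₂) : IsEq f ι O S₂ E C₂ where
  isOpen := h.isOpen
  ne := h.ne
  cone := h.cone
  hol := fun w hw => h.hol w (hS hw)
  upper := fun w hw x hx p x' hx' hp => (h.upper w (hS hw) x hx p x' hx' hp).trans
    (mul_le_mul_of_nonneg_right hC (add_nonneg (div_nonneg (nsq_nonneg _) (nsq_nonneg _))
      (sq_nonneg _)))
  lower := fun w hw x hx => by
    obtain ⟨p, x', hx', hp, h1⟩ := h.lower w (hS hw) x hx
    exact ⟨p, x', hx', hp, h1.trans (mul_le_mul_of_nonneg_right hC (nsq_nonneg _))⟩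

omit [CompactSpace M] in
theorem exists_cover {r : ℕ} {z₀ : Z} (h : ∀ x₁ : Cn (L + 1), x₁ ≠ 0 →
    ∃ (O : Set (Cn (L + 1))) (S' : Set Z) (E : Z → Cn (L + 1) → Cn r) (C : ℝ),
      x₁ ∈ O ∧ IsOpen S' ∧ z₀ ∈ S' ∧ S' ⊆ S ∧ 0 < C ∧ IsEq f ι O S' E C) :
    ∃ (S' : Set Z) (C : ℝ) (m : ℕ) (b : Fin m → Cn (L + 1)) (η : Fin m → ℝ)
      (O : Fin m → Set (Cn (L + 1))) (E : Fin m → Z → Cn (L + 1) → Cn r),
      IsOpen S' ∧ z₀ ∈ S' ∧ S' ⊆ S ∧ 0 < C ∧
      (∀ i, b i ≠ 0 ∧ 0 < η i ∧ η i ≤ 1 ∧ IsEq f ι (O i) S' (E i) C ∧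
        ∀ x, x ≠ 0 → 1 - η i < hcap (b i) x → x ∈ O i) ∧
      ∀ x, x ≠ 0 → ∃ i, 1 - η i / 4 < hcap (b i) x := by
  classical
  choose! O S' E C hxO hS'o hz hS'S hC hE using h
  have h1 : ∀ b : Cn (L + 1), b ≠ 0 → ∃ η : ℝ, 0 < η ∧ η ≤ 1 ∧
      ∀ x, x ≠ 0 → 1 - η < hcap b x → x ∈ O b := fun b hb =>
    exists_eta (hE b hb).isOpen (hE b hb).cone (hxO b hb) hb
  choose! η hη hη1 hcap' using h1
  obtain ⟨t, ht, hcov⟩ := exists_finite_caps η hη
  set g : Fin t.card → Cn (L + 1) := fun i => (t.equivFin.symm i : Cn (L + 1)) with hg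
  have hgt : ∀ i, g i ∈ t := fun i => (t.equivFin.symm i).2
  have hg0 : ∀ i, g i ≠ 0 := fun i => ht _ (hgt i)
  have hCi : ∀ i, C (g i) ≤ 1 + ∑ j, C (g j) := fun i => by
    have : C (g i) ≤ ∑ j, C (g j) :=
      Finset.single_le_sum (f := fun j => C (g j)) (fun j _ => (hC _ (hg0 j)).le)
        (Finset.mem_univ i)
    linarith
  have hne : ∃ i, g i = g i ∧ S' (g i) ⊆ S := by
    have h2 : ((fun _ => 1, 0) : Cn (L + 1)) ≠ 0 := by
      intro h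
      have h3 := congrFun (congrArg Prod.fst h) 0
      simp at h3
    obtain ⟨b, hb, -⟩ := hcov _ h2
    exact ⟨t.equivFin ⟨b, hb⟩, rfl, hS'S _ (hg0 _)⟩
  obtain ⟨i₀, -, hi₀⟩ := hne
  refine ⟨⋂ i, S' (g i), 1 + ∑ j, C (g j), t.card, g, fun i => η (g i),
    fun i => O (g i), fun i => E (g i), isOpen_iInter_of_finite fun i => hS'o _ (hg0 i),
    mem_iInter.2 fun i => hz _ (hg0 i), (iInter_subset _ i₀).trans hi₀, ?_, fun i => ?_, ?_⟩
  · have : 0 ≤ ∑ j, C (g j) := Finset.sum_nonneg fun j _ => (hC _ (hg0 j)).le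
    linarith
  · exact ⟨hg0 i, hη _ (hg0 i), hη1 _ (hg0 i),
      (hE _ (hg0 i)).mono (iInter_subset _ i) (hCi i),
      hcap' _ (hg0 i)⟩
  · intro x hx
    obtain ⟨b, hb, hbx⟩ := hcov x hx
    refine ⟨t.equivFin ⟨b, hb⟩, ?_⟩
    have h2 : g (t.equivFin ⟨b, hb⟩) = b := by
      rw [hg]
      simp
    change 1 - η (g (t.equivFin ⟨b, hb⟩)) / 4 < hcap (g (t.equivFin ⟨b, hb⟩)) x
    rw [h2]
    exact hbx

end

end Pool.Agent.KRFCh
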