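import Pool.Agent.Work.MP_a2bf38_gt.W.EmbDefs
import Pool.Agent.Work.MP_a2bf38_gt.Z.Setup

/-!
# Equations of bounded degree for the fibres of a map
-/

open scoped ContDiff ENNReal ComplexOrder LinearAlgebra.Projectivization Topology
open Set Filter Pool.Agent.ToricKRF Pool.Agent.ToricKRF.G Pool.Agent.KRFS Pool.Agent.KRFF
  Pool.Agent.KRFZ

namespace Pool.Agent.KRFCh

section

variable {M Z : Type} [MetricSpace M] [MetricSpace Z]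

/-- the cone over the image of the fibre over `w` -/
def fcone (f : M → Z) {L : ℕ} (ι : M → ℙ ℂ (Fin (L + 1) → ℂ)) (w : Z) : Set (Cn (L + 1)) :=
  {x | ∃ (p : M) (h : cc x ≠ 0), f p = w ∧ ι p = Projectivization.mk ℂ (cc x) h}

/-- In the cone `O`, for the points `w` of `S`, the functions `E w` are holomorphic and comparable to
the distance of `(x, w)` to the points `(ι p, f p)`. -/
structure IsEq (f : M → Z) {L : ℕ} (ι : M → ℙ ℂ (Fin (L + 1) → ℂ)) {r : ℕ}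
    (O : Set (Cn (L + 1))) (S : Set Z) (E : Z → Cn (L + 1) → Cn r) (C : ℝ) : Prop where
  isOpen : IsOpen O
  ne : ∀ x ∈ O, x ≠ 0
  cone : ∀ x ∈ O, ∀ a b : ℝ, a ^ 2 + b ^ 2 ≠ 0 → a • x + b • J x ∈ O
  hol : ∀ w ∈ S, HolOn (E w) O
  upper : ∀ w ∈ S, ∀ x ∈ O, ∀ (p : M) (x' : Cn (L + 1)) (h : cc x' ≠ 0),
    ι p = Projectivization.mk ℂ (cc x') h →
      nsq (E w x) ≤ C * (nsq (x - x') / nsq x + dist (f p) w ^ 2)
  lower : ∀ w ∈ S, ∀ x ∈ O, ∃ (p : M) (x' : Cn (L + 1)) (h : cc x' ≠ 0),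
    ι p = Projectivization.mk ℂ (cc x') h ∧
      nsq (x - x') / nsq x + dist (f p) w ^ 2 ≤ C * nsq (E w x)

end

/-- `|<x, b>|^2 / (|x|^2 |b|^2)` -/
noncomputable def hcap {l : ℕ} (b x : Cn l) : ℝ :=
  ‖∑ k, cc x k * (starRingEnd ℂ) (cc b k)‖ ^ 2 / (nsq x * nsq b)

/-- `W ε` is of the size of `|x - Γ|^2 + ε^2`, and `i ∂ ∂bar log (W ε)` is at least `- C` times the
Fubini-Study form. -/
structure IsWeight {l : ℕ} (Γ : Set (Cn l)) (W : ℝ → Cn l → ℝ) (C : ℝ) : Prop where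
  smooth : ∀ ε ∈ Ioc (0 : ℝ) 1, ContDiffOn ℝ ∞ (W ε) {x | x ≠ 0}
  pos : ∀ ε ∈ Ioc (0 : ℝ) 1, ∀ x, x ≠ 0 → 0 < W ε x ∧ W ε x ≤ C
  lev : ∀ ε ∈ Ioc (0 : ℝ) 1, ∀ x, x ≠ 0 → ∀ v,
    -C * levz (fun x => Real.log (nsq x)) v x ≤ levz (fun x => Real.log (W ε x)) v x
  near : ∀ x₁ ∈ Γ, ∃ C', ∀ ε ∈ Ioc (0 : ℝ) 1, ∀ x, x ≠ 0 → nsq (x - x₁) ≤ ε ^ 2 →
    W ε x ≤ C' * ε ^ 2
  away : ∀ x, x ≠ 0 → x ∉ Γ → ∃ c > 0, ∀ᶠ x' in 𝓝 x, ∀ ε ∈ Ioc (0 : ℝ) 1, c ≤ W ε x'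

/-- the affine slice `x_a = 1` -/
def slice {L : ℕ} (a : Fin (L + 1)) (t : Cn L) : Cn (L + 1) :=
  (a.insertNth (1 : ℝ) t.1, a.insertNth (0 : ℝ) t.2)

end Pool.Agent.KRFCh
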