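import Pool.Agent.Work.MP_a2bf38_gt.Z.HormCut
import Pool.Agent.Work.MP_a2bf38_gt.Ch.Defs

/-!
# The cut-off function at a point
-/

open scoped ContDiff ENNReal ComplexOrder Topology
open Set MeasureTheory Filter Pool.Agent.ToricKRF Pool.Agent.ToricKRF.G Pool.Agent.KRFS
  Pool.Agent.KRFF Pool.Agent.KRFG Pool.Agent.KRFZ

namespace Pool.Agent.KRFCh.Cu

open Pool.Agent.KRFX.NC (D_nsq fs fs_nonneg contDiff_nsq ip_J_J)
open Pool.Agent.KRFS.ABP (ip ip_self)

/-- the potential of the Fubini-Study form on `ℂ^L` -/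
noncomputable def fsp {L : ℕ} (t : Cn L) : ℝ := Real.log (1 + nsq t)

variable {L : ℕ}

theorem one_add_pos (t : Cn L) : 0 < 1 + nsq t := by
  have := Fb.nsq_nonneg t
  positivity

theorem fsp_eq : (fsp : Cn L → ℝ) = fun y => Real.log (nsq (y - 0) + (1 : ℝ) ^ 2) := by
  funext y
  rw [fsp, sub_zero, one_pow, add_comm]

theorem contDiff_fsp : ContDiff ℝ ∞ (fsp : Cn L → ℝ) := by
  rw [fsp_eq]
  exact HM.contDiff_logpole 0 one_ne_zero

theorem levz_fsp_ge (t u : Cn L) : nsq u ≤ (1 + nsq t) ^ 2 * levz fsp u t := by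
  rw [fsp_eq]
  unfold levz
  rw [HM.DD_logpole 0 one_ne_zero, HM.DD_logpole 0 one_ne_zero, sub_zero]
  have h1 : nsq (J u) = nsq u := by
    rw [← ip_self, ← ip_self, ip_J_J]
  have h2 := fs_nonneg t u
  unfold fs at h2
  have h3 := Fb.nsq_nonneg u
  have hq : 0 < nsq t + (1 : ℝ) ^ 2 := by
    have := Fb.nsq_nonneg t
    positivity
  rw [h1, ← add_div, div_div, one_pow, add_comm 1 (nsq t)]
  rw [one_pow] at hq
  rw [mul_div_assoc', le_div_iff₀ (by positivity)]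
  nlinarith [mul_nonneg (sq_nonneg (nsq t + 1)) h2]

theorem levz_fsp_nonneg (t u : Cn L) : 0 ≤ levz fsp u t := by
  rw [fsp_eq]
  exact HM.levz_logpole 0 one_ne_zero t u

/-! ### The cut-off function -/

/-- the cut-off function around `t₀` -/
noncomputable def cut (t₀ : Cn L) (r : ℝ) (t : Cn L) : ℂ := (HC.rho (nsq (t - t₀) / r ^ 2) : ℂ)

/-- the bound of its derivative -/
noncomputable def cutQ (t₀ : Cn L) (r : ℝ) (t : Cn L) : ℝ :=
  deriv HC.rho (nsq (t - t₀) / r ^ 2) ^ 2 * (nsq (t - t₀) / r ^ 2) / r ^ 2 * (1 + nsq t) ^ 2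

theorem continuous_nsq_sub (t₀ : Cn L) : Continuous fun t : Cn L => nsq (t - t₀) :=
  contDiff_nsq.continuous.comp (continuous_id.sub continuous_const)

theorem contDiff_cut (t₀ : Cn L) (r : ℝ) : ContDiff ℝ ∞ (cut t₀ r) := by
  unfold cut
  refine Complex.ofRealCLM.contDiff.comp ?_
  refine HC.rho_smooth.comp ?_
  exact (contDiff_nsq.comp (contDiff_id.sub contDiff_const)).div_const _

theorem continuous_cutQ (t₀ : Cn L) (r : ℝ) : Continuous (cutQ t₀ r) := by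
  unfold cutQ
  have h1 : Continuous fun t : Cn L => nsq (t - t₀) / r ^ 2 := (continuous_nsq_sub t₀).div_const _
  exact ((((HC.continuous_deriv_rho.comp h1).pow 2).mul h1).div_const _).mul
    ((continuous_const.add contDiff_nsq.continuous).pow 2)

theorem cutQ_nonneg (t₀ : Cn L) (r : ℝ) (t : Cn L) : 0 ≤ cutQ t₀ r t := by
  unfold cutQ
  have := Fb.nsq_nonneg (t - t₀)
  positivity

theorem cut_one {t₀ : Cn L} {r : ℝ} (hr : 0 < r) {t : Cn L} (h : nsq (t - t₀) ≤ r ^ 2 / 4) :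
    cut t₀ r t = 1 := by
  unfold cut
  rw [HC.rho_one, Complex.ofReal_one]
  rw [div_le_iff₀ (by positivity)]
  linarith

theorem cut_zero {t₀ : Cn L} {r : ℝ} (hr : 0 < r) {t : Cn L} (h : r ^ 2 / 2 ≤ nsq (t - t₀)) :
    cut t₀ r t = 0 := by
  unfold cut
  rw [HC.rho_zero, Complex.ofReal_zero]
  rw [le_div_iff₀ (by positivity)]
  linarith

theorem norm_cut_le (t₀ : Cn L) (r : ℝ) (t : Cn L) : ‖cut t₀ r t‖ ≤ 1 := by
  unfold cut
  rw [Complex.norm_real, Real.norm_eq_abs, abs_of_nonneg (HC.rho_nonneg _)]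
  exact HC.rho_le_one _

theorem deriv_rho_quarter : deriv HC.rho (1 / 4) = 0 := by
  refine IsLocalMax.deriv_eq_zero (Eventually.of_forall fun s => ?_)
  rw [HC.rho_one le_rfl]
  exact HC.rho_le_one s

theorem cutQ_zero {t₀ : Cn L} {r : ℝ} (hr : 0 < r) {t : Cn L}
    (h : nsq (t - t₀) ≤ r ^ 2 / 4 ∨ r ^ 2 ≤ nsq (t - t₀)) : cutQ t₀ r t = 0 := by
  have h1 : deriv HC.rho (nsq (t - t₀) / r ^ 2) = 0 := by
    rcases h with h | h
    · rcases h.eq_or_lt with h | h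
      · rw [h, div_div_cancel_left' (by positivity), ← one_div]
        exact deriv_rho_quarter
      · refine HC.deriv_rho_zero (Or.inl ?_)
        rw [div_lt_iff₀ (by positivity)]
        linarith
    · refine HC.deriv_rho_zero (Or.inr ?_)
      rw [lt_div_iff₀ (by positivity)]
      nlinarith [pow_pos hr 2]
  rw [cutQ, h1]
  ring

theorem isCompact_nsq_sub (t₀ : Cn L) {s : ℝ} (hs : 0 ≤ s) :
    IsCompact {t : Cn L | nsq (t - t₀) ≤ s} := by
  have := HM.isCompact_ball t₀ (√s)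
  rwa [Real.sq_sqrt hs] at this

theorem hasCompactSupport_cut {t₀ : Cn L} {r : ℝ} (hr : 0 < r) :
    HasCompactSupport (cut t₀ r) := by
  refine HasCompactSupport.intro (isCompact_nsq_sub t₀ (s := r ^ 2 / 2) (by positivity))
    fun t ht => cut_zero hr ?_
  have : ¬ nsq (t - t₀) ≤ r ^ 2 / 2 := ht
  linarith [not_le.1 this]

theorem dbv_cut' {t₀ : Cn L} {r : ℝ} (hr : 0 < r) (t u : Cn L) :
    ‖dbv (cut t₀ r) u t‖ ^ 2 ≤ cutQ t₀ r t * levz fsp u t := by
  have hid : HolOn (fun w : Cn L => w) univ := ⟨contDiff_id.contDiffOn, fun z _ u => by simp⟩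
  have h1 := HC.dbv_cut isOpen_univ hid (H := fun _ => 1) (NF.HolC.const 1 univ) (a := t₀) hr
    (mem_univ t) u
  simp only [mul_one, norm_one, one_pow, fderiv_fun_id, ContinuousLinearMap.id_apply] at h1
  have h2 := levz_fsp_ge t u
  have h3 := Fb.nsq_nonneg (t - t₀)
  refine h1.trans ?_
  unfold cutQ
  calc _ ≤ deriv HC.rho (nsq (t - t₀) / r ^ 2) ^ 2 * (nsq (t - t₀) / r ^ 2) *
        (((1 + nsq t) ^ 2 * levz fsp u t) / r ^ 2) := by gcongr
    _ = _ := by ring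

theorem exists_cutoff {L : ℕ} (t₀ : Cn L) {r : ℝ} (hr : 0 < r) : ∃ (u : Cn L → ℂ)
    (B : Cn L → ℝ), ContDiff ℝ ∞ u ∧ HasCompactSupport u ∧ Continuous B ∧ HasCompactSupport B ∧
    (∀ t, 0 ≤ B t) ∧ (∀ t, nsq (t - t₀) ≤ r ^ 2 / 4 → u t = 1 ∧ B t = 0) ∧
    (∀ t, r ^ 2 ≤ nsq (t - t₀) → u t = 0 ∧ B t = 0) ∧
    ∀ t v, ‖dbv u v t‖ ^ 2 ≤ B t * levz (fun t => Real.log (1 + nsq t)) v t := by
  refine ⟨cut t₀ r, cutQ t₀ r, contDiff_cut t₀ r, hasCompactSupport_cut hr, continuous_cutQ t₀ r,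
    ?_, cutQ_nonneg t₀ r, fun t ht => ⟨cut_one hr ht, cutQ_zero hr (Or.inl ht)⟩,
    fun t ht => ⟨cut_zero hr ?_, cutQ_zero hr (Or.inr ht)⟩, dbv_cut' hr⟩
  · refine HasCompactSupport.intro (isCompact_nsq_sub t₀ (s := r ^ 2) (by positivity))
      fun t ht => cutQ_zero hr (Or.inr ?_)
    have : ¬ nsq (t - t₀) ≤ r ^ 2 := ht
    exact (not_le.1 this).le
  · nlinarith [pow_pos hr 2]

end Pool.Agent.KRFCh.Cu
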