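import Pool.Agent.Work.MP_a2bf38_gt.Ch.Homog

/-!
# Polynomials of bounded degree: duality and homogenisation (helper55)
-/

open Set Filter Module

namespace Pool.Agent.KRFCh

/-- Let `T` be a set of points. If for every finite subset `s` of `T` there are polynomials of degree
at most `d` that are nearly `1` at `t₀` and nearly `0` on `s`, then there is one that vanishes on `T`
and not at `t₀`. -/
theorem exists_poly_of_approx {L d : ℕ} (T : Set (Fin L → ℂ)) (t₀ : Fin L → ℂ)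
    (h : ∀ s : Finset (Fin L → ℂ), (s : Set (Fin L → ℂ)) ⊆ T → ∀ δ > 0,
      ∃ P : MvPolynomial (Fin L) ℂ, P.totalDegree ≤ d ∧
        ‖MvPolynomial.eval t₀ P - 1‖ ≤ δ ∧ ∀ t ∈ s, ‖MvPolynomial.eval t P‖ ≤ δ) :
    ∃ P : MvPolynomial (Fin L) ℂ, P.totalDegree ≤ d ∧ MvPolynomial.eval t₀ P ≠ 0 ∧
      ∀ t ∈ T, MvPolynomial.eval t P = 0 := by
  classical
  set V : Submodule ℂ (MvPolynomial (Fin L) ℂ) := MvPolynomial.restrictTotalDegree (Fin L) ℂ d
    with hV
  let ev : (Fin L → ℂ) → Dual ℂ V := fun t =>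
    (MvPolynomial.aeval t : MvPolynomial (Fin L) ℂ →ₐ[ℂ] ℂ).toLinearMap.comp V.subtype
  have hev : ∀ t (P : V), ev t P = MvPolynomial.eval t (P : MvPolynomial (Fin L) ℂ) := by
    intro t P
    simp [ev, MvPolynomial.aeval_eq_eval]
  by_contra hcon
  push Not at hcon
  -- the evaluation at `t₀` is a combination of the evaluations at the points of `T`
  set W : Submodule ℂ (Dual ℂ V) := Submodule.span ℂ (ev '' T) with hW
  have hmem : ev t₀ ∈ W := by
    rw [← Subspace.dualCoannihilator_dualAnnihilator_eq (W := W), Submodule.mem_dualAnnihilator]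
    intro P hP
    rw [Submodule.mem_dualCoannihilator] at hP
    by_contra h0
    obtain ⟨t, ht, hne⟩ := hcon P.1 ((MvPolynomial.mem_restrictTotalDegree _ _ _).1 P.2)
      (by rw [← hev]; exact h0)
    exact hne (by rw [← hev]; exact hP _ (Submodule.subset_span ⟨t, ht, rfl⟩))
  obtain ⟨c, hc, hsum⟩ := (Finsupp.mem_span_image_iff_linearCombination ℂ).1 hmem
  set s : Finset (Fin L → ℂ) := c.support with hs
  have hsT : (s : Set (Fin L → ℂ)) ⊆ T := (Finsupp.mem_supported ℂ c).1 hc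
  have hval : ∀ P : V, MvPolynomial.eval t₀ (P : MvPolynomial (Fin L) ℂ) =
      ∑ t ∈ s, c t * MvPolynomial.eval t (P : MvPolynomial (Fin L) ℂ) := by
    intro P
    rw [← hev, ← hsum, Finsupp.linearCombination_apply, Finsupp.sum, LinearMap.sum_apply]
    refine Finset.sum_congr rfl fun t _ => ?_
    rw [LinearMap.smul_apply, hev, smul_eq_mul]
  -- contradiction
  set K : ℝ := ∑ t ∈ s, ‖c t‖ with hK
  have hK0 : 0 ≤ K := Finset.sum_nonneg fun _ _ => norm_nonneg _
  have hδ : 0 < 1 / (2 * (K + 1)) := by positivity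
  obtain ⟨P, hPd, hP1, hPs⟩ := h s hsT _ hδ
  have hP := hval ⟨P, (MvPolynomial.mem_restrictTotalDegree _ _ _).2 hPd⟩
  simp only at hP
  have h1 : ‖MvPolynomial.eval t₀ P‖ ≤ K * (1 / (2 * (K + 1))) := by
    rw [hP, hK, Finset.sum_mul]
    refine (norm_sum_le _ _).trans (Finset.sum_le_sum fun t ht => ?_)
    rw [norm_mul]
    exact mul_le_mul_of_nonneg_left (hPs t ht) (norm_nonneg _)
  have h2 : (1 : ℝ) ≤ ‖MvPolynomial.eval t₀ P‖ + ‖MvPolynomial.eval t₀ P - 1‖ := by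
    have : (1 : ℂ) = MvPolynomial.eval t₀ P - (MvPolynomial.eval t₀ P - 1) := by ring
    calc (1 : ℝ) = ‖(1 : ℂ)‖ := by simp
      _ = ‖MvPolynomial.eval t₀ P - (MvPolynomial.eval t₀ P - 1)‖ := by rw [← this]
      _ ≤ _ := norm_sub_le _ _
  have h3 : (K + 1) * (1 / (2 * (K + 1))) = 1 / 2 := by
    field_simp
  nlinarith

/-- the form `x_a^(d+1) P(x / x_a)` -/
theorem exists_homog {L d : ℕ} (a : Fin (L + 1)) (P : MvPolynomial (Fin L) ℂ)
    (hP : P.totalDegree ≤ d) : ∃ Q : MvPolynomial (Fin (L + 1)) ℂ, Q.IsHomogeneous (d + 1) ∧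
      (∀ (c : ℂ) (t : Fin L → ℂ), MvPolynomial.eval (c • a.insertNth (1 : ℂ) t) Q =
        c ^ (d + 1) * MvPolynomial.eval t P) ∧
      ∀ x : Fin (L + 1) → ℂ, x a = 0 → MvPolynomial.eval x Q = 0 := by
  obtain ⟨Q, hQ, h0, h1⟩ := Hg.exists_homog a d P hP
  refine ⟨Q, hQ, fun c t => ?_, h0⟩
  have ha : (c • a.insertNth (1 : ℂ) t : Fin (L + 1) → ℂ) a = c := by
    simp
  rcases eq_or_ne c 0 with rfl | hc
  · rw [h0 _ ha, zero_pow (Nat.succ_ne_zero d), zero_mul]
  · rw [h1 _ (by rw [ha]; exact hc), ha]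
    congr 3
    funext j
    simp [hc]

end Pool.Agent.KRFCh
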