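import Pool.Agent.Work.MP_a2bf38_gt.Ch.EqB

/-!
# Local equations of the cones over the fibres (A1)
-/

open scoped ContDiff ENNReal ComplexOrder LinearAlgebra.Projectivization Topology
open Set Filter Pool.Agent.ToricKRF Pool.Agent.ToricKRF.G Pool.Agent.KRFS Pool.Agent.KRFF
  Pool.Agent.KRFZ Pool.Agent.KRFW Pool.Agent.KRFLj

namespace Pool.Agent.KRFCh

section

variable {M Z : Type} [MetricSpace M] [CompactSpace M] [MetricSpace Z] {n N : ℕ} {κ P : Type}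
  {e : κ → OpenPartialHomeomorph M (Cn n)} {U : P → Set Z} {q : P → Z → Cn N} {f : M → Z}
  {ψ : κ → ℝ × Cn n → ℝ} {S : Set Z} {L : ℕ} {ι : M → ℙ ℂ (Fin (L + 1) → ℂ)}

/-- The points of `M` over `(x, w)` near `(x₁, z₀)` are near the points over `(x₁, z₀)`. -/
theorem ev_mem (G : GeoData e U q f ψ) (hι : IsEmbOver e U q f S ι) {z₀ : Z}
    (hz₀ : z₀ ∈ S) {x₁ : Cn (L + 1)} (hx₁ : cc x₁ ≠ 0) {V : Set M} (hV : IsOpen V)
    (hVm : ∀ p, f p = z₀ → ι p = Projectivization.mk ℂ (cc x₁) hx₁ → p ∈ V) :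
    ∀ᶠ R : Cn (L + 1) × Z in 𝓝 (x₁, z₀), ∀ (p : M) (h : cc R.1 ≠ 0),
      f p = R.2 → ι p = Projectivization.mk ℂ (cc R.1) h → p ∈ V := by
  have hK : IsCompact Vᶜ := hV.isClosed_compl.isCompact
  have hccc : Continuous fun x : Cn (L + 1) => cc x := by
    have h1 := (MT.ccP (L + 1)).continuous
    exact h1.congr fun x => MT.ccP_apply x
  have key := hK.eventually_forall_of_forall_eventually (x₀ := (x₁, z₀))
    (P := fun (R : Cn (L + 1) × Z) (p : M) => ∀ h : cc R.1 ≠ 0, f p = R.2 →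
      ι p = Projectivization.mk ℂ (cc R.1) h → False) ?_
  · filter_upwards [key] with R hR p h h1 h2
    by_contra hp
    exact hR p hp h h1 h2
  · intro p' hp'
    by_cases hfp : f p' = z₀
    · -- the point `ι p'` is different from `[x₁]`
      obtain ⟨c, hc⟩ := G.atlas.cover p'
      obtain ⟨F, W, hxW, hF, -⟩ := hι.lift c (e c p') ((e c).map_source hc)
        (by rw [(e c).left_inv hc, hfp]; exact hz₀)
      have hX : ContinuousAt (fun p => cc (F (e c p))) p' := by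
        have h1 : ContinuousAt F (e c p') := hF.2.2.1.1.continuousOn.continuousAt
          (hF.1.mem_nhds hxW)
        exact hccc.continuousAt.comp (h1.comp ((e c).continuousAt hc))
      have hn := (MT.exists_lift hF hc hxW).1
      have hne : ¬ ∃ a : ℂ, cc x₁ = a • cc (F (e c p')) := by
        rintro ⟨a, ha⟩
        refine hp' (hVm p' hfp ?_)
        obtain ⟨h0, h1⟩ := hF.2.2.2 _ hxW
        rw [(e c).left_inv hc] at h1
        rw [h1]
        exact ((Projectivization.mk_eq_mk_iff' ℂ _ _ hx₁ h0).2 ⟨a, ha.symm⟩).symm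
      obtain ⟨ε, hε, hev⟩ := KRFAl.sep (X' := fun x : Cn (L + 1) => cc x) hX
        (hccc.continuousAt (x := x₁)) hn hne
      have hs1 : ∀ᶠ p in 𝓝 p', p ∈ (e c).source ∧ e c p ∈ W := MT.near hc hF.1 hxW
      have ht : Tendsto (fun T : (Cn (L + 1) × Z) × M => (T.2, T.1.1))
          (𝓝 ((x₁, z₀), p')) (𝓝 (p', x₁)) :=
        (show Continuous fun T : (Cn (L + 1) × Z) × M => (T.2, T.1.1) by
          fun_prop).tendsto' _ _ rfl
      filter_upwards [ht.eventually hev, (continuous_snd.tendsto' ((x₁, z₀), p') p'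
        rfl).eventually hs1] with T h1 h2 h3 _ h5
      obtain ⟨a, ha⟩ := (MT.exists_lift hF h2.1 h2.2).2 (cc T.1.1) h3 h5
      have h6 := h1 (cc T.1.1) (cc T.1.1) ⟨a, ha⟩ ⟨1, (one_smul _ _).symm⟩
      rw [sub_self, norm_zero] at h6
      have h7 : 0 < ε * ‖cc T.1.1‖ := mul_pos hε (norm_pos_iff.2 h3)
      linarith
    · -- the point `f p'` is different from `z₀`
      have h1 : ContinuousAt (fun T : (Cn (L + 1) × Z) × M => dist (f T.2) T.1.2)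
          ((x₁, z₀), p') :=
        ((G.cont.comp continuous_snd).dist (continuous_snd.comp continuous_fst)).continuousAt
      filter_upwards [h1.eventually_ne (dist_ne_zero.2 hfp)] with T h2 _ h4 _
      exact h2 (by rw [h4, dist_self])

omit [CompactSpace M] in
/-- Away from the fibre. -/
theorem exists_eq_off [Nonempty M] (hS : IsOpen S) {z₀ : Z} (hz₀ : z₀ ∈ S) {x₁ : Cn (L + 1)}
    (hx₁ : x₁ ≠ 0) (hev : ∀ᶠ R : Cn (L + 1) × Z in 𝓝 (x₁, z₀), ∀ (p : M) (h : cc R.1 ≠ 0),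
      f p = R.2 → ι p = Projectivization.mk ℂ (cc R.1) h → p ∈ (∅ : Set M)) :
    ∃ (O : Set (Cn (L + 1))) (S' : Set Z) (E : Z → Cn (L + 1) → Cn (L + 1 + N)) (C : ℝ),
      x₁ ∈ O ∧ IsOpen S' ∧ z₀ ∈ S' ∧ S' ⊆ S ∧ 0 < C ∧ IsEq f ι O S' E C := by
  set v : Cn (L + 1 + N) := iot _ fun _ => 1 with hv
  have hv1 : 1 ≤ nsq v := by
    have h1 := EB.cc_le_nsq v
    have h2 : cc v = fun _ => 1 := ccv_iot _
    have h3 : ‖cc v (Fin.castAdd N 0)‖ ≤ ‖cc v‖ := norm_le_pi_norm (cc v) _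
    rw [h2] at h1 h3
    simp only [norm_one] at h3
    nlinarith
  obtain ⟨p₀⟩ := ‹Nonempty M›
  set x₀ : Cn (L + 1) := iot _ (ι p₀).rep with hx₀
  have hcx : cc x₀ = (ι p₀).rep := ccv_iot _
  have h0 : cc x₀ ≠ 0 := by
    rw [hcx]
    exact (ι p₀).rep_nonzero
  have hι₀ : ι p₀ = Projectivization.mk ℂ (cc x₀) h0 := by
    simp only [hcx]
    exact (Projectivization.mk_rep (ι p₀)).symm
  have hc : ContinuousAt (fun R : Cn (L + 1) × Z => nsq (R.1 - x₀) + dist (f p₀) R.2 ^ 2)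
      (x₁, z₀) := by
    refine Continuous.continuousAt ?_
    have h1 : Continuous fun R : Cn (L + 1) × Z => nsq (R.1 - x₀) :=
      EB.continuous_nsq.comp (by fun_prop)
    fun_prop
  have hup : ∀ᶠ R : (Cn (L + 1) × Z) × (Cn (L + 1) × Z) in 𝓝 ((x₁, z₀), (x₁, z₀)),
      ∀ (p : M) (h : cc R.2.1 ≠ 0), f p = R.2.2 → ι p = Projectivization.mk ℂ (cc R.2.1) h →
        nsq v ≤ 0 * (nsq (R.1.1 - R.2.1) + dist R.2.2 R.1.2 ^ 2) := by
    have ht : Tendsto (fun R : (Cn (L + 1) × Z) × (Cn (L + 1) × Z) => R.2)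
        (𝓝 ((x₁, z₀), (x₁, z₀))) (𝓝 (x₁, z₀)) := continuous_snd.tendsto' _ _ rfl
    filter_upwards [ht.eventually hev] with R hR p h h1 h2
    exact (hR p h h1 h2).elim
  have hlow : ∀ᶠ R : Cn (L + 1) × Z in 𝓝 (x₁, z₀), ∃ (p : M) (x' : Cn (L + 1))
      (h : cc x' ≠ 0), ι p = Projectivization.mk ℂ (cc x') h ∧
        nsq (R.1 - x') + dist (f p) R.2 ^ 2 ≤
          (nsq (x₁ - x₀) + dist (f p₀) z₀ ^ 2 + 1) * nsq v := by
    filter_upwards [hc.eventually_lt continuousAt_const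
      (lt_add_one (nsq (x₁ - x₀) + dist (f p₀) z₀ ^ 2))] with R hR
    refine ⟨p₀, x₀, h0, hι₀, hR.le.trans ?_⟩
    have h1 : 0 ≤ nsq (x₁ - x₀) + dist (f p₀) z₀ ^ 2 + 1 := by
      have := EB.nsq_nonneg (x₁ - x₀)
      positivity
    nlinarith
  obtain ⟨O, S', C, h1, h2, h3, h4, h5, h6⟩ := EB.exists_isEq (f := f) (ι := ι)
    (E := fun _ _ => v) (K₂ := nsq v) hx₁ hS hz₀ (fun _ => univ)
    (fun _ _ _ _ => rfl) (fun _ _ _ _ _ => mem_univ _)
    (fun w => ⟨isOpen_univ, contDiffOn_const, fun x _ u => by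
      rw [fderiv_fun_const]
      ext <;> simp [J]⟩)
    (Eventually.of_forall fun _ => mem_univ _) hup (Eventually.of_forall fun _ => le_rfl) hlow
  exact ⟨O, S', _, C, h1, h2, h3, h4, h5, h6⟩

/-- local equations of the cones over the fibres -/
theorem exists_eq [Nonempty M] (G : GeoData e U q f ψ) (hι : IsEmbOver e U q f S ι)
    (hS : IsOpen S) {z₀ : Z} (hz₀ : z₀ ∈ S) {x₁ : Cn (L + 1)} (hx₁ : x₁ ≠ 0) :
    ∃ (O : Set (Cn (L + 1))) (S' : Set Z) (E : Z → Cn (L + 1) → Cn (L + 1 + N)) (C : ℝ),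
      x₁ ∈ O ∧ IsOpen S' ∧ z₀ ∈ S' ∧ S' ⊆ S ∧ 0 < C ∧ IsEq f ι O S' E C := by
  classical
  have hx₁c : cc x₁ ≠ 0 := cc_ne_zero hx₁
  by_cases hp : ∃ p, f p = z₀ ∧ ι p = Projectivization.mk ℂ (cc x₁) hx₁c
  swap
  · exact exists_eq_off hS hz₀ hx₁ (ev_mem G hι hz₀ hx₁c isOpen_empty
      fun p h1 h2 => (hp ⟨p, h1, h2⟩).elim)
  obtain ⟨j, hj⟩ := G.cover z₀
  -- the set `S₀`
  obtain ⟨C, hC, hlip⟩ := G.qlip j z₀ hj
  rw [nhds_prod_eq] at hlip
  obtain ⟨t, ht, hts⟩ := Filter.mem_prod_self_iff.1 hlip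
  obtain ⟨S₀, hS₀t, hS₀o, hzS₀⟩ := mem_nhds_iff.1 (inter_mem ht (inter_mem (hS.mem_nhds hz₀)
    ((G.isOpen j).mem_nhds hj)))
  have hdist1 : ∀ z ∈ S₀, ∀ z' ∈ S₀, dist (q j z) (q j z') ≤ C * dist z z' :=
    fun z hz z' hz' => (hts (mk_mem_prod (hS₀t hz).1 (hS₀t hz').1)).1
  have hdist2 : ∀ z ∈ S₀, ∀ z' ∈ S₀, dist z z' ≤ C * dist (q j z) (q j z') :=
    fun z hz z' hz' => (hts (mk_mem_prod (hS₀t hz).1 (hS₀t hz').1)).2
  obtain ⟨p₁, hfp, hιp⟩ := hp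
  obtain ⟨c, hc⟩ := G.atlas.cover p₁
  set z₁ : Cn n := e c p₁ with hz₁
  have hz₁t : z₁ ∈ (e c).target := (e c).map_source hc
  have hsz : (e c).symm z₁ = p₁ := (e c).left_inv hc
  obtain ⟨F, W, hxW, hF, himm⟩ := hι.lift c z₁ hz₁t (by rw [hsz, hfp]; exact hz₀)
  obtain ⟨hWo, hWt, hFh, hlift⟩ := hF
  obtain ⟨a, ha⟩ : ∃ a, cc (F z₁) a ≠ 0 := by
    by_contra hc'
    push Not at hc'
    exact (hlift z₁ hxW).1 (funext hc')
  -- the open set on which `Φ` is defined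
  have hUo : IsOpen (fdom e U f c j) :=
    (e c).isOpen_inter_preimage_symm ((G.isOpen j).preimage G.cont)
  have hS₀c : IsOpen {z | z ∈ (e c).target ∧ f ((e c).symm z) ∈ S₀} :=
    (e c).isOpen_inter_preimage_symm (hS₀o.preimage G.cont)
  set D : Set (Cn n) := {z | z ∈ W ∧ cc (F z) a ≠ 0} ∩
    {z | z ∈ (e c).target ∧ f ((e c).symm z) ∈ S₀} with hD
  have hDo : IsOpen D := ((NF.holOn_cc hWo hFh a).1.continuousOn.isOpen_inter_preimage hWo
    isOpen_compl_singleton).inter hS₀c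
  have hz₁D : z₁ ∈ D := ⟨⟨hxW, ha⟩, hz₁t, by rw [hsz, hfp]; exact hzS₀⟩
  have hDU : D ⊆ fdom e U f c j := fun z hz => ⟨hz.2.1, (hS₀t hz.2.2).2.2⟩
  obtain ⟨hΦh, hΦi⟩ := LB.imm (H := fmap e q f c j) hDo hWo (fun z hz => hz.1.1) hFh hUo hDU
    (G.holo c j) (i0 := a) (fun z hz => hz.1.2) rfl
  set Φ : Cn n → Fin (L + 1) ⊕ Fin N → ℂ := fun z =>
    Sum.elim (fun i => cc (F z) i * (cc (F z) a)⁻¹) (fun k => cc (fmap e q f c j z) k) with hΦ
  obtain ⟨D', O₁, ρ, hD'o, hz₁D', hD'D, hO₁, hΦO₁, hρ, hρΦ, hg⟩ :=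
    EA.exists_retr hDo hz₁D hΦh
      (hΦi z₁ hz₁D (himm j (by rw [hsz, hfp]; exact hj)))
  -- the points of the image of `Φ`
  have hrat : ∀ (x : Cn (L + 1)) (h : cc x ≠ 0) (z : Cn n), z ∈ D →
      ι ((e c).symm z) = Projectivization.mk ℂ (cc x) h →
      cc x a ≠ 0 ∧ EA.rat a (cc x, cc (q j (f ((e c).symm z)))) = Φ z := by
    intro x h z hz hιz
    obtain ⟨h0, h1⟩ := hlift z hz.1.1
    rw [h1, Projectivization.mk_eq_mk_iff'] at hιz
    obtain ⟨b, hb⟩ := hιz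
    have hb0 : b ≠ 0 := by
      rintro rfl
      rw [zero_smul] at hb
      exact h0 hb.symm
    have hFa : cc (F z) a = b * cc x a := by rw [← hb]; rfl
    have hxa : cc x a ≠ 0 := by
      intro h2
      apply hz.1.2
      rw [hFa, h2, mul_zero]
    refine ⟨hxa, ?_⟩
    funext i
    rcases i with i | k
    · have hFi : cc (F z) i = b * cc x i := by rw [← hb]; rfl
      simp only [EA.rat, Sum.elim_inl, hΦ]
      rw [hFi, hFa]
      field_simp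
    · rfl
  have hΓ : ∀ (t : ℂ), t ≠ 0 → ∀ z ∈ D, ∃ h : (EA.unr t (Φ z)).1 ≠ 0,
      ι ((e c).symm z) = Projectivization.mk ℂ (EA.unr t (Φ z)).1 h := by
    intro t ht' z hz
    obtain ⟨h0, h1⟩ := hlift z hz.1.1
    have h2 : (EA.unr t (Φ z)).1 a = t := by
      simp only [EA.unr, hΦ, Sum.elim_inl]
      rw [mul_inv_cancel₀ hz.1.2, mul_one]
    have h3 : (EA.unr t (Φ z)).1 ≠ 0 := by
      intro h4
      rw [h4] at h2
      exact ht' h2.symm
    refine ⟨h3, ?_⟩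
    rw [h1]
    symm
    refine (Projectivization.mk_eq_mk_iff' ℂ _ _ _ _).2 ⟨t * (cc (F z) a)⁻¹, ?_⟩
    funext i
    simp only [EA.unr, hΦ, Sum.elim_inl, Pi.smul_apply, smul_eq_mul]
    ring
  -- the neighbourhood of `p₁`
  set V : Set M := (e c).source ∩ (e c) ⁻¹' D' with hV
  have hVo : IsOpen V := (e c).isOpen_inter_preimage hD'o
  have hp₁V : p₁ ∈ V := ⟨hc, hz₁D'⟩
  have hev := ev_mem G hι hz₀ hx₁c hVo (by
    intro p h1 h2
    have h3 : p = p₁ := hι.inj p p₁ (by rw [h1]; exact hz₀) (h1.trans hfp.symm)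
      (h2.trans hιp.symm)
    rw [h3]
    exact hp₁V)
  obtain ⟨hxa, hrat₁⟩ := hrat x₁ hx₁c z₁ hz₁D (by rw [hsz]; exact hιp)
  rw [hsz, hfp] at hrat₁
  -- continuity
  have hccc : ∀ m : ℕ, Continuous fun x : Cn m => cc x := fun m =>
    (MT.ccP m).continuous.congr fun x => MT.ccP_apply x
  have hqc : ContinuousAt (q j) z₀ := by
    rw [ContinuousAt, tendsto_iff_dist_tendsto_zero]
    have h1 : Tendsto (fun z => C * dist z z₀) (𝓝 z₀) (𝓝 0) := by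
      have h2 : Continuous fun z => C * dist z z₀ := by fun_prop
      exact h2.tendsto' _ _ (by simp)
    refine squeeze_zero' (Eventually.of_forall fun _ => dist_nonneg) ?_ h1
    filter_upwards [hS₀o.mem_nhds hzS₀] with z hz
    exact hdist1 z hz z₀ hzS₀
  set Q : Cn (L + 1) × Z → (Fin (L + 1) → ℂ) × (Fin N → ℂ) := fun R => (cc R.1, cc (q j R.2))
    with hQ
  have hQc : ContinuousAt Q (x₁, z₀) := by
    refine ContinuousAt.prodMk ((hccc _).continuousAt.comp continuousAt_fst) ?_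
    exact (hccc _).continuousAt.comp (hqc.comp (x := (x₁, z₀)) continuousAt_snd)
  have hratc : ContinuousAt (fun R => EA.rat a (Q R)) (x₁, z₀) :=
    ContinuousAt.comp (x := (x₁, z₀)) (EA.continuousAt_rat a (P := Q (x₁, z₀)) hxa) hQc
  -- the equations
  set g : (Fin (L + 1) ⊕ Fin N → ℂ) → (Fin (L + 1) ⊕ Fin N → ℂ) := fun v => v - Φ (ρ v) with hgdef
  set E : Z → Cn (L + 1) → Cn (L + 1 + N) := fun w x =>
    iot _ fun i => g (EA.rat a (cc x, cc (q j w))) (finSumFinEquiv.symm i) with hE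
  have hE1 : ∀ w x, nsq (E w x) ≤ (L + 1 + N : ℕ) * ‖g (EA.rat a (cc x, cc (q j w)))‖ ^ 2 := by
    intro w x
    refine EB.nsq_le_cc _ ?_
    have h1 : cc (E w x) = fun i => g (EA.rat a (cc x, cc (q j w))) (finSumFinEquiv.symm i) :=
      ccv_iot _
    rw [h1]
    exact (pi_norm_le_iff_of_nonneg (norm_nonneg _)).2 fun i => norm_le_pi_norm _ _
  have hE2 : ∀ w x, ‖g (EA.rat a (cc x, cc (q j w)))‖ ^ 2 ≤ nsq (E w x) := by
    intro w x
    refine le_trans ?_ (EB.cc_le_nsq _)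
    have h1 : cc (E w x) = fun i => g (EA.rat a (cc x, cc (q j w))) (finSumFinEquiv.symm i) :=
      ccv_iot _
    have h2 : ‖g (EA.rat a (cc x, cc (q j w)))‖ ≤ ‖cc (E w x)‖ := by
      refine (pi_norm_le_iff_of_nonneg (norm_nonneg _)).2 fun i => ?_
      have h3 := norm_le_pi_norm (cc (E w x)) (finSumFinEquiv i)
      rw [h1] at h3
      rw [h1]
      simpa using h3
    gcongr
  have hA : IsOpen {R : (Fin (L + 1) → ℂ) × (Fin N → ℂ) | R.1 a ≠ 0 ∧ EA.rat a R ∈ O₁} := by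
    have h1 : IsOpen {R : (Fin (L + 1) → ℂ) × (Fin N → ℂ) | R.1 a ≠ 0} :=
      isOpen_ne_fun (by fun_prop) continuous_const
    exact (EA.differentiableOn_rat a fun R hR => hR).continuousOn.isOpen_inter_preimage h1 hO₁
  have hGd : DifferentiableOn ℂ (fun R => g (EA.rat a R))
      {R : (Fin (L + 1) → ℂ) × (Fin N → ℂ) | R.1 a ≠ 0 ∧ EA.rat a R ∈ O₁} :=
    hg.comp (EA.differentiableOn_rat a fun R hR => hR.1) fun R hR => hR.2
  have hPA : Q (x₁, z₀) ∈ {R : (Fin (L + 1) → ℂ) × (Fin N → ℂ) | R.1 a ≠ 0 ∧ EA.rat a R ∈ O₁} := by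
    refine ⟨hxa, ?_⟩
    change EA.rat a (cc x₁, cc (q j z₀)) ∈ O₁
    rw [hrat₁]
    exact hΦO₁
  have hg0 : ∀ z ∈ D', g (Φ z) = 0 := by
    intro z hz
    change Φ z - Φ (ρ (Φ z)) = 0
    rw [hρΦ z hz, sub_self]
  have hG1 : ContDiffAt ℂ 1 (fun R => g (EA.rat a R)) (Q (x₁, z₀)) := by
    have := SCV.contDiffAt_of_differentiableOn hA hGd hPA (n := 1)
    exact_mod_cast this
  obtain ⟨K, t', ht', hK⟩ := hG1.exists_lipschitzOnWith
  have hGc : ContinuousAt (fun R => ‖g (EA.rat a (Q R))‖) (x₁, z₀) :=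
    (ContinuousAt.comp (x := (x₁, z₀)) (g := fun R => g (EA.rat a R)) hG1.continuousAt hQc).norm
  have hS₀e : ∀ᶠ R : Cn (L + 1) × Z in 𝓝 (x₁, z₀), R.2 ∈ S₀ :=
    continuous_snd.continuousAt.eventually (hS₀o.mem_nhds hzS₀)
  have hQA : ∀ᶠ R : Cn (L + 1) × Z in 𝓝 (x₁, z₀), (Q R).1 a ≠ 0 ∧ EA.rat a (Q R) ∈ O₁ :=
    hQc.eventually (hA.mem_nhds hPA)
  -- the upper estimate
  have hup : ∀ᶠ R : (Cn (L + 1) × Z) × (Cn (L + 1) × Z) in 𝓝 ((x₁, z₀), (x₁, z₀)),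
      ∀ (p : M) (h : cc R.2.1 ≠ 0), f p = R.2.2 → ι p = Projectivization.mk ℂ (cc R.2.1) h →
        nsq (E R.1.2 R.1.1) ≤ ((L + 1 + N : ℕ) * (K ^ 2 * (1 + 4 * C ^ 2))) *
          (nsq (R.1.1 - R.2.1) + dist R.2.2 R.1.2 ^ 2) := by
    have ht1 : Tendsto (fun R : (Cn (L + 1) × Z) × (Cn (L + 1) × Z) => R.1)
        (𝓝 ((x₁, z₀), (x₁, z₀))) (𝓝 (x₁, z₀)) := continuous_fst.tendsto' _ _ rfl
    have ht2 : Tendsto (fun R : (Cn (L + 1) × Z) × (Cn (L + 1) × Z) => R.2)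
        (𝓝 ((x₁, z₀), (x₁, z₀))) (𝓝 (x₁, z₀)) := continuous_snd.tendsto' _ _ rfl
    have hQt : ∀ᶠ R in 𝓝 (x₁, z₀), Q R ∈ t' := hQc.eventually ht'
    filter_upwards [ht1.eventually (hQt.and hS₀e), ht2.eventually (hQt.and (hS₀e.and hev))]
      with R h1 h2 p h hf hp
    obtain ⟨h3, h4⟩ := h1
    obtain ⟨h5, h6, h7⟩ := h2
    have hpV : p ∈ V := h7 p h hf hp
    have h9 : (e c).symm (e c p) = p := (e c).left_inv hpV.1
    obtain ⟨-, h10⟩ := hrat R.2.1 h (e c p) (hD'D hpV.2) (by rw [h9]; exact hp)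
    rw [h9, hf] at h10
    have h11 : g (EA.rat a (Q R.2)) = 0 := by
      change g (EA.rat a (cc R.2.1, cc (q j R.2.2))) = 0
      rw [h10]
      exact hg0 _ hpV.2
    have h12 := hK.dist_le_mul _ h3 _ h5
    simp only [h11, dist_zero_right] at h12
    have h13 : dist (Q R.1) (Q R.2) ^ 2 ≤
        (1 + 4 * C ^ 2) * (nsq (R.1.1 - R.2.1) + dist R.2.2 R.1.2 ^ 2) := by
      have h14 : dist (cc R.1.1) (cc R.2.1) ^ 2 ≤ nsq (R.1.1 - R.2.1) := by
        rw [dist_eq_norm, ← EB.cc_sub]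
        exact EB.cc_le_nsq _
      have h15 : dist (cc (q j R.1.2)) (cc (q j R.2.2)) ≤ 2 * (C * dist R.2.2 R.1.2) := by
        rw [dist_eq_norm, dist_comm R.2.2]
        exact (norm_ccv_sub_le _ _).trans
          (mul_le_mul_of_nonneg_left (hdist1 _ h4 _ h6) (by norm_num))
      have h16 := EB.nsq_nonneg (R.1.1 - R.2.1)
      have h17 : 0 ≤ dist R.2.2 R.1.2 ^ 2 := sq_nonneg _
      have h18 : 0 ≤ C ^ 2 := sq_nonneg _
      change max (dist (cc R.1.1) (cc R.2.1)) (dist (cc (q j R.1.2)) (cc (q j R.2.2))) ^ 2 ≤ _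
      rcases max_choice (dist (cc R.1.1) (cc R.2.1)) (dist (cc (q j R.1.2)) (cc (q j R.2.2)))
        with h19 | h19
      · rw [h19]
        nlinarith [mul_nonneg h18 h16, mul_nonneg h18 h17]
      · rw [h19]
        calc dist (cc (q j R.1.2)) (cc (q j R.2.2)) ^ 2 ≤ (2 * (C * dist R.2.2 R.1.2)) ^ 2 := by
              gcongr
          _ = 4 * C ^ 2 * dist R.2.2 R.1.2 ^ 2 := by ring
          _ ≤ _ := by nlinarith [mul_nonneg h18 h16, mul_nonneg h18 h17]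
    calc nsq (E R.1.2 R.1.1) ≤ (L + 1 + N : ℕ) * ‖g (EA.rat a (Q R.1))‖ ^ 2 := hE1 _ _
      _ ≤ (L + 1 + N : ℕ) * (K * dist (Q R.1) (Q R.2)) ^ 2 := by gcongr
      _ = (L + 1 + N : ℕ) * K ^ 2 * dist (Q R.1) (Q R.2) ^ 2 := by ring
      _ ≤ (L + 1 + N : ℕ) * K ^ 2 *
          ((1 + 4 * C ^ 2) * (nsq (R.1.1 - R.2.1) + dist R.2.2 R.1.2 ^ 2)) := by gcongr
      _ = _ := by ring
  -- the bound
  have hG0 : ‖g (EA.rat a (Q (x₁, z₀)))‖ = 0 := by
    change ‖g (EA.rat a (cc x₁, cc (q j z₀)))‖ = 0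
    rw [hrat₁, hg0 z₁ hz₁D', norm_zero]
  have hbd : ∀ᶠ R : Cn (L + 1) × Z in 𝓝 (x₁, z₀), nsq (E R.2 R.1) ≤ (L + 1 + N : ℕ) * 1 ^ 2 := by
    filter_upwards [hGc.eventually_lt continuousAt_const
      (show ‖g (EA.rat a (Q (x₁, z₀)))‖ < 1 by rw [hG0]; exact one_pos)] with R hR
    refine (hE1 _ _).trans ?_
    have h1 : ‖g (EA.rat a (cc R.1, cc (q j R.2)))‖ ≤ 1 := hR.le
    gcongr
  -- the lower estimate
  have hlow : ∀ᶠ R : Cn (L + 1) × Z in 𝓝 (x₁, z₀), ∃ (p : M) (x' : Cn (L + 1))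
      (h : cc x' ≠ 0), ι p = Projectivization.mk ℂ (cc x') h ∧
        nsq (R.1 - x') + dist (f p) R.2 ^ 2 ≤
          (((L + 1 : ℕ) + C ^ 2) * (‖cc x₁ a‖ + 2) ^ 2) * nsq (E R.2 R.1) := by
    have hac : ContinuousAt (fun R : Cn (L + 1) × Z => ‖cc R.1 a‖) (x₁, z₀) := by
      have h1 : Continuous fun R : Cn (L + 1) × Z => cc R.1 := (hccc _).comp continuous_fst
      exact ((continuous_apply a).comp h1).norm.continuousAt
    filter_upwards [hQA, hS₀e, hac.eventually_lt continuousAt_const (lt_add_one ‖cc x₁ a‖)]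
      with R h1 h2 h3
    set z' : Cn n := ρ (EA.rat a (Q R)) with hz'
    have hz'D : z' ∈ D := hD'D (hρ _ h1.2)
    obtain ⟨h4, h5⟩ := hΓ (cc R.1 a) h1.1 z' hz'D
    set x' : Cn (L + 1) := iot _ (EA.unr (cc R.1 a) (Φ z')).1 with hx'
    have hcx : cc x' = (EA.unr (cc R.1 a) (Φ z')).1 := ccv_iot _
    have h6 : cc x' ≠ 0 := by
      rw [hcx]
      exact h4
    have hdQ := EA.dist_unr (cc R.1 a) (EA.rat a (Q R)) (Φ z')
    have h7 : EA.unr (cc R.1 a) (EA.rat a (Q R)) = Q R := EA.unr_rat a (P := Q R) h1.1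
    rw [h7] at hdQ
    have hgR : ‖EA.rat a (Q R) - Φ z'‖ = ‖g (EA.rat a (cc R.1, cc (q j R.2)))‖ := rfl
    rw [hgR] at hdQ
    set γ : ℝ := ‖g (EA.rat a (cc R.1, cc (q j R.2)))‖ with hγ
    have hγ0 : 0 ≤ γ := norm_nonneg _
    have h8 : dist (Q R) (EA.unr (cc R.1 a) (Φ z')) ≤ (‖cc x₁ a‖ + 2) * γ :=
      hdQ.trans (mul_le_mul_of_nonneg_right (by linarith) hγ0)
    have h9 : ‖cc (R.1 - x')‖ ≤ (‖cc x₁ a‖ + 2) * γ := by
      rw [EB.cc_sub, hcx, ← dist_eq_norm]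
      exact (le_max_left _ _).trans h8
    have h10 : dist (f ((e c).symm z')) R.2 ≤ C * ((‖cc x₁ a‖ + 2) * γ) := by
      refine (hdist2 _ hz'D.2.2 _ h2).trans (mul_le_mul_of_nonneg_left ?_ hC.le)
      rw [dist_comm, dist_eq_norm]
      refine (EB.norm_le_cc _).trans ?_
      rw [EB.cc_sub, ← dist_eq_norm]
      exact (le_max_right _ _).trans h8
    refine ⟨(e c).symm z', x', h6, ?_, ?_⟩
    · rw [h5]
      simp only [hcx]
    · have h11 := EB.nsq_le_cc _ h9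
      have h12 : dist (f ((e c).symm z')) R.2 ^ 2 ≤ (C * ((‖cc x₁ a‖ + 2) * γ)) ^ 2 := by
        have := dist_nonneg (x := f ((e c).symm z')) (y := R.2)
        gcongr
      have h13 : γ ^ 2 ≤ nsq (E R.2 R.1) := hE2 _ _
      have h14 : 0 ≤ (((L + 1 : ℕ) : ℝ) + C ^ 2) * (‖cc x₁ a‖ + 2) ^ 2 := by positivity
      calc nsq (R.1 - x') + dist (f ((e c).symm z')) R.2 ^ 2
          ≤ (L + 1 : ℕ) * ((‖cc x₁ a‖ + 2) * γ) ^ 2 + (C * ((‖cc x₁ a‖ + 2) * γ)) ^ 2 := by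
            linarith
        _ = (((L + 1 : ℕ) + C ^ 2) * (‖cc x₁ a‖ + 2) ^ 2) * γ ^ 2 := by ring
        _ ≤ _ := mul_le_mul_of_nonneg_left h13 h14
  -- the result
  have hinv : ∀ w x, ∀ b : ℂ, b ≠ 0 → E w (EB.csm b x) = E w x := by
    intro w x b hb
    simp only [hE, EB.cc_csm, EA.rat_smul a _ _ hb]
  have hDD : ∀ (w : Z) (x : Cn (L + 1)) (b : ℂ), b ≠ 0 →
      EB.csm b x ∈ {x | cc x a ≠ 0 ∧ EA.rat a (cc x, cc (q j w)) ∈ O₁} →
      x ∈ {x | cc x a ≠ 0 ∧ EA.rat a (cc x, cc (q j w)) ∈ O₁} := by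
    rintro w x b hb ⟨h1, h2⟩
    rw [EB.cc_csm] at h1 h2
    rw [EA.rat_smul a _ _ hb] at h2
    refine ⟨fun h3 => h1 ?_, h2⟩
    rw [Pi.smul_apply, h3, smul_zero]
  have hhol : ∀ w : Z, IsOpen {x : Cn (L + 1) | cc x a ≠ 0 ∧ EA.rat a (cc x, cc (q j w)) ∈ O₁} ∧
      HolOn (E w) {x | cc x a ≠ 0 ∧ EA.rat a (cc x, cc (q j w)) ∈ O₁} := by
    intro w
    have hcont : Continuous fun x : Cn (L + 1) => (cc x, cc (q j w)) :=
      (hccc _).prodMk continuous_const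
    have hDw : IsOpen {x : Cn (L + 1) | cc x a ≠ 0 ∧ EA.rat a (cc x, cc (q j w)) ∈ O₁} :=
      hA.preimage hcont
    refine ⟨hDw, EB.holOn_of hDw (H := fun v i => g (EA.rat a (v, cc (q j w)))
      (finSumFinEquiv.symm i)) ?_⟩
    intro x hx
    have hcv : Continuous fun v : Fin (L + 1) → ℂ => (v, cc (q j w)) := by fun_prop
    filter_upwards [(hA.preimage hcv).mem_nhds hx] with v hv
    have h1 : DifferentiableAt ℂ (fun v : Fin (L + 1) → ℂ => g (EA.rat a (v, cc (q j w)))) v := by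
      have h2 : DifferentiableAt ℂ (fun R => g (EA.rat a R)) (v, cc (q j w)) :=
        hGd.differentiableAt (hA.mem_nhds hv)
      have h3 : DifferentiableAt ℂ (fun v : Fin (L + 1) → ℂ => (v, cc (q j w))) v := by fun_prop
      exact DifferentiableAt.comp (f := fun v : Fin (L + 1) → ℂ => (v, cc (q j w))) v h2 h3
    exact differentiableAt_pi.2 fun i => differentiableAt_pi.1 h1 (finSumFinEquiv.symm i)
  obtain ⟨O, S', C', h1, h2, h3, h4, h5, h6⟩ := EB.exists_isEq (f := f) (ι := ι) (E := E) hx₁ hS hz₀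
    _ hinv hDD hhol hQA hup hbd hlow
  exact ⟨O, S', E, C', h1, h2, h3, h4, h5, h6⟩

end

end Pool.Agent.KRFCh
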