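import Pool.Agent.Work.MP_a2bf38_gt.W.Disc

/-!
# Local equations of the image of an immersion
-/

open scoped ContDiff ENNReal ComplexOrder LinearAlgebra.Projectivization Topology
open Set Filter Pool.Agent.ToricKRF Pool.Agent.ToricKRF.G Pool.Agent.KRFS Pool.Agent.KRFF
  Pool.Agent.KRFZ Pool.Agent.KRFW Pool.Agent.KRFLj

namespace Pool.Agent.KRFCh

namespace EA

section Imm

variable {n : ℕ} {I : Type} [Fintype I]

/-- The image of a holomorphic immersion `Φ` is near `Φ z₀` given by `w = Φ (ρ w)`. -/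
theorem exists_retr {S : Set (Cn n)} (hS : IsOpen S) {z₀ : Cn n} (hz₀ : z₀ ∈ S)
    {Φ : Cn n → I → ℂ} (hΦ : ∀ i, NF.HolC (fun z => Φ z i) S)
    (himm : ∀ v, (∀ i, fderiv ℝ (fun z => Φ z i) z₀ v = 0) → v = 0) :
    ∃ (S' : Set (Cn n)) (O : Set (I → ℂ)) (ρ : (I → ℂ) → Cn n), IsOpen S' ∧ z₀ ∈ S' ∧ S' ⊆ S ∧
      IsOpen O ∧ Φ z₀ ∈ O ∧ (∀ w ∈ O, ρ w ∈ S') ∧ (∀ z ∈ S', ρ (Φ z) = z) ∧
      DifferentiableOn ℂ (fun w => w - Φ (ρ w)) O := by
  obtain ⟨O, Γ, hO, hΦO, hΓ, hl⟩ := LA.exists_left_inv hS hz₀ hΦ himm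
  obtain ⟨S₁, hS₁, hS₁o, hz₁⟩ := _root_.eventually_nhds_iff.1 hl
  set ρ : (I → ℂ) → Cn n := fun w => iot n (Γ w) with hρ
  have hρc : ContinuousOn ρ O := (iot n).continuous.comp_continuousOn hΓ.continuousOn
  set S' : Set (Cn n) := S ∩ S₁ with hS'
  have hS'o : IsOpen S' := hS.inter hS₁o
  have hz₀' : z₀ ∈ S' := ⟨hz₀, hz₁⟩
  have hρz : ρ (Φ z₀) = z₀ := hS₁ z₀ hz₁
  refine ⟨S', O ∩ ρ ⁻¹' S', ρ, hS'o, hz₀', inter_subset_left,
    hρc.isOpen_inter_preimage hO hS'o, ⟨hΦO, ?_⟩, fun w hw => hw.2,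
    fun z hz => hS₁ z hz.2, ?_⟩
  · rw [mem_preimage, hρz]
    exact hz₀'
  · refine differentiableOn_id.sub ?_
    rw [differentiableOn_pi]
    intro i w hw
    have h1 : DifferentiableAt ℂ (fun w => Φ (0 + iot n (ContinuousLinearMap.id ℂ (Fin n → ℂ) w)) i)
        (Γ w) := differentiableAt_of_holC hS (hΦ i) 0 (ContinuousLinearMap.id ℂ (Fin n → ℂ))
      (w := Γ w) (by rw [zero_add]; exact hw.2.1)
    have h2 : DifferentiableAt ℂ Γ w := (hΓ w hw.1).differentiableAt (hO.mem_nhds hw.1)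
    have h3 := h1.comp w h2
    refine DifferentiableAt.differentiableWithinAt ?_
    convert h3 using 1
    funext w'
    simp only [hρ, Function.comp_apply, ContinuousLinearMap.id_apply, zero_add]

end Imm

section Rat

variable {L N : ℕ}

/-- the coordinates `(x / x_a, y)` -/
noncomputable def rat (a : Fin (L + 1)) (P : (Fin (L + 1) → ℂ) × (Fin N → ℂ)) :
    Fin (L + 1) ⊕ Fin N → ℂ :=
  Sum.elim (fun i => P.1 i * (P.1 a)⁻¹) P.2

/-- the inverse of `rat` -/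
noncomputable def unr (t : ℂ) (w : Fin (L + 1) ⊕ Fin N → ℂ) :
    (Fin (L + 1) → ℂ) × (Fin N → ℂ) :=
  (fun i => t * w (Sum.inl i), fun k => w (Sum.inr k))

theorem rat_smul (a : Fin (L + 1)) (x : Fin (L + 1) → ℂ) (y : Fin N → ℂ) {c : ℂ} (hc : c ≠ 0) :
    rat a (c • x, y) = rat a (x, y) := by
  funext i
  rcases i with i | k
  · simp only [rat, Sum.elim_inl, Pi.smul_apply, smul_eq_mul, mul_inv]
    field_simp
  · rfl

theorem unr_rat (a : Fin (L + 1)) {P : (Fin (L + 1) → ℂ) × (Fin N → ℂ)} (h : P.1 a ≠ 0) :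
    unr (P.1 a) (rat a P) = P := by
  refine Prod.ext ?_ rfl
  funext i
  simp only [unr, rat, Sum.elim_inl]
  field_simp

theorem differentiableOn_rat (a : Fin (L + 1)) {A : Set ((Fin (L + 1) → ℂ) × (Fin N → ℂ))}
    (hA : ∀ P ∈ A, P.1 a ≠ 0) : DifferentiableOn ℂ (rat a) A := by
  rw [differentiableOn_pi]
  rintro (i | k)
  · simp only [rat, Sum.elim_inl]
    refine DifferentiableOn.mul (by fun_prop) (DifferentiableOn.inv (by fun_prop) hA)
  · simp only [rat, Sum.elim_inr]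
    fun_prop

theorem continuousAt_rat (a : Fin (L + 1)) {P : (Fin (L + 1) → ℂ) × (Fin N → ℂ)} (h : P.1 a ≠ 0) :
    ContinuousAt (rat a) P := by
  refine continuousAt_pi.2 ?_
  rintro (i | k)
  · simp only [rat, Sum.elim_inl]
    refine ContinuousAt.mul (by fun_prop) (ContinuousAt.inv₀ (by fun_prop) h)
  · simp only [rat, Sum.elim_inr]
    fun_prop

theorem dist_unr (t : ℂ) (w w' : Fin (L + 1) ⊕ Fin N → ℂ) :
    dist (unr t w) (unr t w') ≤ (‖t‖ + 1) * ‖w - w'‖ := by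
  rw [Prod.dist_eq]
  refine max_le ?_ ?_
  · rw [dist_pi_le_iff (by positivity)]
    intro i
    have h1 : dist (t * w (Sum.inl i)) (t * w' (Sum.inl i)) = ‖t‖ * ‖w (Sum.inl i) - w' (Sum.inl i)‖ := by
      rw [dist_eq_norm, ← mul_sub, norm_mul]
    have h2 : ‖w (Sum.inl i) - w' (Sum.inl i)‖ ≤ ‖w - w'‖ := norm_le_pi_norm (w - w') (Sum.inl i)
    change dist (t * w (Sum.inl i)) (t * w' (Sum.inl i)) ≤ _
    rw [h1]
    nlinarith [norm_nonneg t, norm_nonneg (w - w'), mul_le_mul_of_nonneg_left h2 (norm_nonneg t)]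
  · rw [dist_pi_le_iff (by positivity)]
    intro k
    have h2 : ‖w (Sum.inr k) - w' (Sum.inr k)‖ ≤ ‖w - w'‖ := norm_le_pi_norm (w - w') (Sum.inr k)
    change dist (w (Sum.inr k)) (w' (Sum.inr k)) ≤ _
    rw [dist_eq_norm]
    nlinarith [norm_nonneg t, norm_nonneg (w - w'), mul_nonneg (norm_nonneg t) (norm_nonneg (w - w'))]

end Rat

end EA

end Pool.Agent.KRFCh
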