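import Pool.Agent.Work.MP_a2bf38_gt.Ch.EqA
import Pool.Agent.Work.MP_a2bf38_gt.Ch.Defs

/-!
# Local equations of the cones over the fibres: from the sphere to the cone
-/

open scoped ContDiff ENNReal ComplexOrder LinearAlgebra.Projectivization Topology
open Set Filter Pool.Agent.ToricKRF Pool.Agent.ToricKRF.G Pool.Agent.KRFS Pool.Agent.KRFF
  Pool.Agent.KRFZ Pool.Agent.KRFW Pool.Agent.KRFLj

namespace Pool.Agent.KRFCh

namespace EB

section Lin

variable {l r : ℕ}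

theorem nsq_eq (x : Cn l) : nsq x = ∑ k, ‖cc x k‖ ^ 2 := by
  unfold nsq dotProduct
  rw [← Finset.sum_add_distrib]
  refine Finset.sum_congr rfl fun j _ => ?_
  rw [← Complex.normSq_eq_norm_sq, Complex.normSq_apply]
  rfl

theorem nsq_nonneg (x : Cn l) : 0 ≤ nsq x := by
  rw [nsq_eq]
  exact Finset.sum_nonneg fun _ _ => by positivity

theorem nsq_le_cc (x : Cn l) {s : ℝ} (hs : ‖cc x‖ ≤ s) : nsq x ≤ l * s ^ 2 := by
  rw [nsq_eq]
  calc ∑ k, ‖cc x k‖ ^ 2 ≤ ∑ _k : Fin l, s ^ 2 := by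
        refine Finset.sum_le_sum fun k _ => ?_
        have h1 := (norm_le_pi_norm (cc x) k).trans hs
        gcongr
    _ = l * s ^ 2 := by simp

theorem cc_le_nsq (x : Cn l) : ‖cc x‖ ^ 2 ≤ nsq x := by
  have h1 : ‖cc x‖ ≤ Real.sqrt (nsq x) := by
    refine (pi_norm_le_iff_of_nonneg (Real.sqrt_nonneg _)).2 fun k => ?_
    refine Real.le_sqrt_of_sq_le ?_
    rw [nsq_eq]
    exact Finset.single_le_sum (f := fun k => ‖cc x k‖ ^ 2) (fun _ _ => by positivity)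
      (Finset.mem_univ k)
  calc ‖cc x‖ ^ 2 ≤ Real.sqrt (nsq x) ^ 2 := by gcongr
    _ = nsq x := Real.sq_sqrt (nsq_nonneg x)

theorem norm_le_cc (x : Cn l) : ‖x‖ ≤ ‖cc x‖ := by
  have h1 := norm_iot_le (cc x)
  have h2 : iot l (cc x) = x := iot_ccv x
  rwa [h2] at h1

theorem norm_le (x : Cn l) : ‖x‖ ^ 2 ≤ nsq x := by
  have h1 := norm_le_cc x
  have h2 := cc_le_nsq x
  calc ‖x‖ ^ 2 ≤ ‖cc x‖ ^ 2 := by gcongr
    _ ≤ nsq x := h2

theorem nsq_le_norm (x : Cn l) : nsq x ≤ 4 * l * ‖x‖ ^ 2 := by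
  have h1 := nsq_le_cc x (norm_ccv_le x)
  calc nsq x ≤ l * (2 * ‖x‖) ^ 2 := h1
    _ = 4 * l * ‖x‖ ^ 2 := by ring

theorem nsq_pos {x : Cn l} (hx : x ≠ 0) : 0 < nsq x :=
  lt_of_lt_of_le (by positivity) (norm_le x)

theorem continuous_nsq : Continuous (nsq : Cn l → ℝ) := by
  unfold nsq
  fun_prop

/-- the multiplication by a complex number -/
noncomputable def csm (c : ℂ) (x : Cn l) : Cn l := c.re • x + c.im • J x

theorem cc_csm (c : ℂ) (x : Cn l) : cc (csm c x) = c • cc x := (MT.smul_cc c x).symm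

theorem csm_csm (c d : ℂ) (x : Cn l) : csm c (csm d x) = csm (c * d) x := by
  apply MT.cc_injective
  rw [cc_csm, cc_csm, cc_csm, smul_smul]

theorem csm_one (x : Cn l) : csm 1 x = x := by
  apply MT.cc_injective
  rw [cc_csm, one_smul]

theorem cc_sub (x y : Cn l) : cc (x - y) = cc x - cc y := ccv_sub x y

theorem csm_sub (c : ℂ) (x y : Cn l) : csm c (x - y) = csm c x - csm c y := by
  apply MT.cc_injective
  rw [cc_csm, cc_sub, cc_sub, cc_csm, cc_csm, smul_sub]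

theorem csm_inv {c : ℂ} (hc : c ≠ 0) (x : Cn l) : csm c (csm c⁻¹ x) = x := by
  rw [csm_csm, mul_inv_cancel₀ hc, csm_one]

theorem nsq_csm (c : ℂ) (x : Cn l) : nsq (csm c x) = ‖c‖ ^ 2 * nsq x := by
  rw [nsq_eq, nsq_eq, cc_csm, Finset.mul_sum]
  refine Finset.sum_congr rfl fun k _ => ?_
  rw [Pi.smul_apply, smul_eq_mul, norm_mul, mul_pow]

theorem continuous_csm (c : ℂ) : Continuous (csm c : Cn l → Cn l) := by
  unfold csm J
  fun_prop

theorem csm_ne_zero {c : ℂ} (hc : c ≠ 0) {x : Cn l} (hx : x ≠ 0) : csm c x ≠ 0 := by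
  intro h
  have h1 := nsq_csm c x
  rw [h] at h1
  have h2 : nsq (0 : Cn l) = 0 := by simp [nsq]
  rw [h2] at h1
  have h3 := nsq_pos hx
  have h4 : 0 < ‖c‖ ^ 2 * nsq x := by positivity
  linarith

/-- the ratio in the definition of `IsEq` is invariant -/
theorem ratio_csm {c : ℂ} (hc : c ≠ 0) (x x' : Cn l) :
    nsq (csm c x - csm c x') / nsq (csm c x) = nsq (x - x') / nsq x := by
  rw [← csm_sub, nsq_csm, nsq_csm]
  have h1 : ‖c‖ ^ 2 ≠ 0 := by positivity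
  rw [mul_div_mul_left _ _ h1]

/-- A map which is holomorphic in the complex coordinates. -/
theorem holOn_of {O : Set (Cn l)} (hO : IsOpen O) {H : (Fin l → ℂ) → (Fin r → ℂ)}
    (hH : ∀ x ∈ O, ∀ᶠ v in 𝓝 (cc x), DifferentiableAt ℂ H v) :
    HolOn (fun x => iot r (H (cc x))) O := by
  have hccd : ContDiff ℝ ∞ (fun x : Cn l => cc x) := by
    have h1 : (fun x : Cn l => cc x) = fun x => MT.ccP l x := by
      funext x
      rw [MT.ccP_apply]
    rw [h1]
    exact (MT.ccP l).contDiff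
  have hHc : ∀ x ∈ O, ContDiffAt ℂ ∞ H (cc x) := by
    intro x hx
    obtain ⟨A, hA, hAo, hxA⟩ := _root_.eventually_nhds_iff.1 (hH x hx)
    exact SCV.contDiffAt_of_differentiableOn hAo
      (fun v hv => (hA v hv).differentiableWithinAt) hxA (n := ⊤)
  refine ⟨fun x hx => ?_, fun x hx u => ?_⟩
  · have h1 : ContDiffAt ℝ ∞ H (cc x) := (hHc x hx).restrict_scalars ℝ
    exact ((iot r).contDiff.contDiffAt.comp x (h1.comp x hccd.contDiffAt)).contDiffWithinAt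
  · have h1 : HasFDerivAt H (fderiv ℂ H (cc x)) (cc x) :=
      ((hHc x hx).differentiableAt (by simp)).hasFDerivAt
    have h2 : HasFDerivAt (fun x : Cn l => cc x) (MT.ccP l) x := by
      have h3 : (fun x : Cn l => cc x) = fun x => MT.ccP l x := by
        funext x
        rw [MT.ccP_apply]
      rw [h3]
      exact (MT.ccP l).hasFDerivAt
    have h4 : HasFDerivAt (fun x => iot r (H (cc x)))
        ((iot r).comp (((fderiv ℂ H (cc x)).restrictScalars ℝ).comp (MT.ccP l))) x :=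
      (iot r).hasFDerivAt.comp x ((h1.restrictScalars ℝ).comp x h2)
    rw [h4.fderiv]
    simp only [ContinuousLinearMap.comp_apply, ContinuousLinearMap.coe_restrictScalars',
      MT.ccP_apply]
    have h5 : cc (J u) = Complex.I • cc u := by
      funext k
      rw [cc_J]
      rfl
    rw [h5, map_smul, iot_I]

end Lin

section Cone

variable {M Z : Type} [MetricSpace M] [MetricSpace Z] {L r : ℕ} {f : M → Z}
  {ι : M → ℙ ℂ (Fin (L + 1) → ℂ)} {S : Set Z}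

theorem mk_csm {c : ℂ} (hc : c ≠ 0) {x : Cn (L + 1)} {p : M} {h : cc x ≠ 0}
    (hp : ι p = Projectivization.mk ℂ (cc x) h) :
    ∃ h' : cc (csm c x) ≠ 0, ι p = Projectivization.mk ℂ (cc (csm c x)) h' := by
  have h' : cc (csm c x) ≠ 0 := by
    rw [cc_csm]
    exact smul_ne_zero hc h
  refine ⟨h', hp.trans ?_⟩
  symm
  exact (Projectivization.mk_eq_mk_iff' ℂ _ _ _ _).2 ⟨c, (cc_csm c x).symm⟩

/-- From local estimates to `IsEq`. -/
theorem exists_isEq {x₁ : Cn (L + 1)} (hx₁ : x₁ ≠ 0) {z₀ : Z} (hS : IsOpen S) (hz₀ : z₀ ∈ S)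
    {E : Z → Cn (L + 1) → Cn r} (D : Z → Set (Cn (L + 1)))
    (hinv : ∀ w x, ∀ c : ℂ, c ≠ 0 → E w (csm c x) = E w x)
    (hD : ∀ w x, ∀ c : ℂ, c ≠ 0 → csm c x ∈ D w → x ∈ D w)
    (hhol : ∀ w, IsOpen (D w) ∧ HolOn (E w) (D w))
    (hDe : ∀ᶠ R : Cn (L + 1) × Z in 𝓝 (x₁, z₀), R.1 ∈ D R.2)
    {K₁ : ℝ} (hup : ∀ᶠ R : (Cn (L + 1) × Z) × (Cn (L + 1) × Z) in 𝓝 ((x₁, z₀), (x₁, z₀)),
      ∀ (p : M) (h : cc R.2.1 ≠ 0), f p = R.2.2 → ι p = Projectivization.mk ℂ (cc R.2.1) h →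
        nsq (E R.1.2 R.1.1) ≤ K₁ * (nsq (R.1.1 - R.2.1) + dist R.2.2 R.1.2 ^ 2))
    {K₂ : ℝ} (hbd : ∀ᶠ R : Cn (L + 1) × Z in 𝓝 (x₁, z₀), nsq (E R.2 R.1) ≤ K₂)
    {K₃ : ℝ} (hlow : ∀ᶠ R : Cn (L + 1) × Z in 𝓝 (x₁, z₀), ∃ (p : M) (x' : Cn (L + 1))
      (h : cc x' ≠ 0), ι p = Projectivization.mk ℂ (cc x') h ∧
        nsq (R.1 - x') + dist (f p) R.2 ^ 2 ≤ K₃ * nsq (E R.2 R.1)) :
    ∃ (O : Set (Cn (L + 1))) (S' : Set Z) (C : ℝ), x₁ ∈ O ∧ IsOpen S' ∧ z₀ ∈ S' ∧ S' ⊆ S ∧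
      0 < C ∧ IsEq f ι O S' E C := by
  classical
  -- the size of `x`
  obtain ⟨m₀, hm₀, hm₀e⟩ : ∃ m₀ : ℝ, 0 < m₀ ∧ ∀ᶠ R : Cn (L + 1) × Z in 𝓝 (x₁, z₀),
      m₀ ≤ nsq R.1 ∧ nsq R.1 ≤ nsq x₁ + 1 := by
    have h1 := nsq_pos hx₁
    have h2 : ContinuousAt (fun R : Cn (L + 1) × Z => nsq R.1) (x₁, z₀) :=
      (continuous_nsq.comp continuous_fst).continuousAt
    refine ⟨nsq x₁ / 2, by positivity, ?_⟩
    filter_upwards [continuousAt_const.eventually_lt h2 (show nsq x₁ / 2 < nsq x₁ by linarith),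
      h2.eventually_lt continuousAt_const (show nsq x₁ < nsq x₁ + 1 by linarith)] with R h3 h4
    exact ⟨h3.le, h4.le⟩
  set m₁ : ℝ := nsq x₁ + 1 with hm₁
  have hm₁p : 0 < m₁ := by
    have := nsq_nonneg x₁
    linarith
  have hSe : ∀ᶠ R : Cn (L + 1) × Z in 𝓝 (x₁, z₀), R.2 ∈ S :=
    continuous_snd.continuousAt.eventually (hS.mem_nhds hz₀)
  obtain ⟨ε₁, hε₁, hb₁⟩ := Metric.eventually_nhds_iff_ball.1
    (hDe.and (hbd.and (hlow.and (hm₀e.and hSe))))
  obtain ⟨ε₂, hε₂, hb₂⟩ := Metric.eventually_nhds_iff_ball.1 hup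
  set ε : ℝ := min ε₁ (ε₂ / 2) with hε
  have hεp : 0 < ε := lt_min hε₁ (by positivity)
  have hεε₁ : ε ≤ ε₁ := min_le_left _ _
  have hεε₂ : ε + ε ≤ ε₂ := by
    have := min_le_right ε₁ (ε₂ / 2)
    linarith
  -- the estimates on the ball
  set K : ℝ := max (max |K₁| (|K₂| / ε ^ 2) * (m₁ + 1)) (|K₃| * (m₀⁻¹ + 1)) + 1 with hK
  have hK1 : max |K₁| (|K₂| / ε ^ 2) * (m₁ + 1) ≤ K := (le_max_left _ _).trans (by linarith)
  have hK2 : |K₃| * (m₀⁻¹ + 1) ≤ K := (le_max_right _ _).trans (by linarith)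
  have hKp : 0 < K := by
    have h1 : 0 ≤ |K₃| * (m₀⁻¹ + 1) := by positivity
    have h2 : |K₃| * (m₀⁻¹ + 1) ≤ K - 1 := by
      have := le_max_right (max |K₁| (|K₂| / ε ^ 2) * (m₁ + 1)) (|K₃| * (m₀⁻¹ + 1))
      linarith
    linarith
  have hmem : ∀ x ∈ Metric.ball x₁ ε, ∀ w ∈ Metric.ball z₀ ε, (x, w) ∈ Metric.ball (x₁, z₀) ε₁ := by
    intro x hx w hw
    rw [Metric.mem_ball, Prod.dist_eq]
    exact max_lt (lt_of_lt_of_le hx hεε₁) (lt_of_lt_of_le hw hεε₁)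
  have hupper : ∀ x ∈ Metric.ball x₁ ε, ∀ w ∈ Metric.ball z₀ ε, ∀ (p : M) (x' : Cn (L + 1))
      (h : cc x' ≠ 0), ι p = Projectivization.mk ℂ (cc x') h →
        nsq (E w x) ≤ K * (nsq (x - x') / nsq x + dist (f p) w ^ 2) := by
    intro x hx w hw p x' h hp
    obtain ⟨-, h2, -, ⟨h4, h5⟩, -⟩ := hb₁ _ (hmem x hx w hw)
    simp only at h2 h4 h5
    have hxp : 0 < nsq x := lt_of_lt_of_le hm₀ h4
    have hd0 : 0 ≤ dist (f p) w := dist_nonneg
    have h6 : nsq (x - x') + dist (f p) w ^ 2 ≤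
        (m₁ + 1) * (nsq (x - x') / nsq x + dist (f p) w ^ 2) := by
      have h7 : nsq (x - x') ≤ m₁ * (nsq (x - x') / nsq x) := by
        rw [mul_div_assoc', le_div_iff₀ hxp, mul_comm]
        exact mul_le_mul_of_nonneg_right h5 (nsq_nonneg _)
      have h8 : 0 ≤ nsq (x - x') / nsq x := div_nonneg (nsq_nonneg _) hxp.le
      nlinarith [mul_nonneg hm₁p.le (sq_nonneg (dist (f p) w))]
    have h9 : nsq (E w x) ≤ max |K₁| (|K₂| / ε ^ 2) * (nsq (x - x') + dist (f p) w ^ 2) := by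
      by_cases hnear : ‖x - x'‖ < ε ∧ dist (f p) w < ε
      · have h10 : ((x, w), (x', f p)) ∈ Metric.ball ((x₁, z₀), (x₁, z₀)) ε₂ := by
          rw [Metric.mem_ball, Prod.dist_eq]
          refine max_lt ?_ ?_
          · rw [Prod.dist_eq]
            refine max_lt ?_ ?_
            · have : dist x x₁ < ε := hx
              linarith
            · have : dist w z₀ < ε := hw
              linarith
          · rw [Prod.dist_eq]
            refine max_lt ?_ ?_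
            · have h11 : dist x x₁ < ε := hx
              have h12 := dist_triangle x' x x₁
              have h13 : dist x' x < ε := by
                rw [dist_comm, dist_eq_norm]
                exact hnear.1
              simp only
              linarith
            · have h11 : dist w z₀ < ε := hw
              have h12 := dist_triangle (f p) w z₀
              simp only
              linarith [hnear.2]
        have h14 := hb₂ _ h10 p h rfl hp
        simp only at h14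
        refine h14.trans ?_
        have h15 : 0 ≤ nsq (x - x') + dist (f p) w ^ 2 := add_nonneg (nsq_nonneg _) (sq_nonneg _)
        exact mul_le_mul_of_nonneg_right ((le_abs_self _).trans (le_max_left _ _)) h15
      · have h10 : ε ^ 2 ≤ nsq (x - x') + dist (f p) w ^ 2 := by
          by_cases h11 : ‖x - x'‖ < ε
          · have h12 : ε ≤ dist (f p) w := by
              by_contra hcon
              exact hnear ⟨h11, not_le.1 hcon⟩
            have h13 : ε ^ 2 ≤ dist (f p) w ^ 2 := by gcongr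
            linarith [nsq_nonneg (x - x')]
          · have h12 : ε ^ 2 ≤ ‖x - x'‖ ^ 2 := by
              have := not_lt.1 h11
              gcongr
            have h13 := norm_le (x - x')
            linarith [sq_nonneg (dist (f p) w)]
        have h11 : |K₂| ≤ |K₂| / ε ^ 2 * (nsq (x - x') + dist (f p) w ^ 2) := by
          rw [div_mul_eq_mul_div, le_div_iff₀ (by positivity)]
          exact mul_le_mul_of_nonneg_left h10 (abs_nonneg _)
        have h15 : 0 ≤ nsq (x - x') + dist (f p) w ^ 2 := add_nonneg (nsq_nonneg _) (sq_nonneg _)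
        calc nsq (E w x) ≤ |K₂| := h2.trans (le_abs_self _)
          _ ≤ |K₂| / ε ^ 2 * (nsq (x - x') + dist (f p) w ^ 2) := h11
          _ ≤ _ := mul_le_mul_of_nonneg_right (le_max_right _ _) h15
    have h16 : 0 ≤ nsq (x - x') / nsq x + dist (f p) w ^ 2 :=
      add_nonneg (div_nonneg (nsq_nonneg _) hxp.le) (sq_nonneg _)
    calc nsq (E w x) ≤ max |K₁| (|K₂| / ε ^ 2) * (nsq (x - x') + dist (f p) w ^ 2) := h9
      _ ≤ max |K₁| (|K₂| / ε ^ 2) * ((m₁ + 1) * (nsq (x - x') / nsq x + dist (f p) w ^ 2)) :=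
          mul_le_mul_of_nonneg_left h6 (le_max_of_le_left (abs_nonneg _))
      _ = max |K₁| (|K₂| / ε ^ 2) * (m₁ + 1) * (nsq (x - x') / nsq x + dist (f p) w ^ 2) := by
          ring
      _ ≤ K * (nsq (x - x') / nsq x + dist (f p) w ^ 2) := mul_le_mul_of_nonneg_right hK1 h16
  have hlower : ∀ x ∈ Metric.ball x₁ ε, ∀ w ∈ Metric.ball z₀ ε, ∃ (p : M) (x' : Cn (L + 1))
      (h : cc x' ≠ 0), ι p = Projectivization.mk ℂ (cc x') h ∧
        nsq (x - x') / nsq x + dist (f p) w ^ 2 ≤ K * nsq (E w x) := by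
    intro x hx w hw
    obtain ⟨-, -, h3, ⟨h4, h5⟩, -⟩ := hb₁ _ (hmem x hx w hw)
    simp only at h3 h4 h5
    obtain ⟨p, x', h, hp, hle⟩ := h3
    refine ⟨p, x', h, hp, ?_⟩
    have hxp : 0 < nsq x := lt_of_lt_of_le hm₀ h4
    have h6 : nsq (x - x') / nsq x ≤ m₀⁻¹ * nsq (x - x') := by
      rw [div_eq_mul_inv, mul_comm]
      refine mul_le_mul_of_nonneg_right ?_ (nsq_nonneg _)
      exact inv_anti₀ hm₀ h4
    have h7 : 0 ≤ m₀⁻¹ := by positivity
    have h8 := nsq_nonneg (x - x')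
    have h9 := nsq_nonneg (E w x)
    calc nsq (x - x') / nsq x + dist (f p) w ^ 2
        ≤ (m₀⁻¹ + 1) * (nsq (x - x') + dist (f p) w ^ 2) := by
          nlinarith [mul_nonneg h7 (sq_nonneg (dist (f p) w))]
      _ ≤ (m₀⁻¹ + 1) * (K₃ * nsq (E w x)) := by gcongr
      _ ≤ (m₀⁻¹ + 1) * (|K₃| * nsq (E w x)) := by
          gcongr
          exact le_abs_self _
      _ = |K₃| * (m₀⁻¹ + 1) * nsq (E w x) := by ring
      _ ≤ K * nsq (E w x) := by gcongr
  -- the cone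
  have hx₁b : x₁ ∈ Metric.ball x₁ ε := Metric.mem_ball_self hεp
  have hz₀b : z₀ ∈ Metric.ball z₀ ε := Metric.mem_ball_self hεp
  refine ⟨{x | ∃ c : ℂ, c ≠ 0 ∧ csm c x ∈ Metric.ball x₁ ε}, Metric.ball z₀ ε, K,
    ⟨1, one_ne_zero, by rwa [csm_one]⟩, Metric.isOpen_ball, hz₀b, ?_, hKp, ?_, ?_, ?_, ?_, ?_, ?_⟩
  · intro w hw
    exact (hb₁ _ (hmem x₁ hx₁b w hw)).2.2.2.2
  · have h1 : {x : Cn (L + 1) | ∃ c : ℂ, c ≠ 0 ∧ csm c x ∈ Metric.ball x₁ ε} =
        ⋃ c : {c : ℂ // c ≠ 0}, (fun x => csm c.1 x) ⁻¹' Metric.ball x₁ ε := by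
      ext x
      simp
    rw [h1]
    exact isOpen_iUnion fun c => Metric.isOpen_ball.preimage (continuous_csm c.1)
  · rintro x ⟨c, hc, hx⟩ rfl
    have h1 := (hb₁ _ (hmem _ hx z₀ hz₀b)).2.2.2.1.1
    have h2 : csm c (0 : Cn (L + 1)) = 0 := by
      apply MT.cc_injective
      rw [cc_csm]
      funext k
      apply Complex.ext <;> simp [cc]
    rw [h2] at h1
    have h3 : nsq (0 : Cn (L + 1)) = 0 := by simp [nsq]
    simp only [h3] at h1
    linarith
  · rintro x ⟨c, hc, hx⟩ a b hab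
    have h0 : (⟨a, b⟩ : ℂ) ≠ 0 := by
      intro h1
      have h2 : a = 0 := congrArg Complex.re h1
      have h3 : b = 0 := congrArg Complex.im h1
      exact hab (by rw [h2, h3]; ring)
    refine ⟨c * (⟨a, b⟩ : ℂ)⁻¹, mul_ne_zero hc (inv_ne_zero h0), ?_⟩
    have h1 : a • x + b • J x = csm ⟨a, b⟩ x := rfl
    rw [h1, csm_csm, inv_mul_cancel_right₀ h0]
    exact hx
  · intro w hw
    have hsub : {x | ∃ c : ℂ, c ≠ 0 ∧ csm c x ∈ Metric.ball x₁ ε} ⊆ D w := by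
      rintro x ⟨c, hc, hx⟩
      exact hD w x c hc (hb₁ _ (hmem _ hx w hw)).1
    exact ⟨(hhol w).2.1.mono hsub, fun x hx => (hhol w).2.2 x (hsub hx)⟩
  · rintro w hw x ⟨c, hc, hx⟩ p x' h hp
    obtain ⟨h', hp'⟩ := mk_csm hc hp
    have h1 := hupper _ hx w hw p _ h' hp'
    rwa [hinv w x c hc, ratio_csm hc] at h1
  · rintro w hw x ⟨c, hc, hx⟩
    obtain ⟨p, x', h, hp, hle⟩ := hlower _ hx w hw
    obtain ⟨h', hp'⟩ := mk_csm (inv_ne_zero hc) hp
    refine ⟨p, csm c⁻¹ x', h', hp', ?_⟩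
    rw [hinv w x c hc] at hle
    have h1 := ratio_csm hc x (csm c⁻¹ x')
    rw [csm_inv hc] at h1
    rwa [h1] at hle

end Cone

end EB

end Pool.Agent.KRFCh
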