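import Pool.Agent.Work.MP_a2bf38_gt.Ch.FormOf
import Pool.Agent.Work.MP_a2bf38_gt.Ch.Approx

/-!
# Forms which vanish on the zeros of a weight
-/

open scoped ContDiff ENNReal ComplexOrder LinearAlgebra.Projectivization Topology
open Set Filter MeasureTheory Pool.Agent.ToricKRF Pool.Agent.ToricKRF.G Pool.Agent.KRFS
  Pool.Agent.KRFF Pool.Agent.KRFZ Pool.Agent.KRFW

namespace Pool.Agent.KRFCh

theorem exists_form (L : ℕ) {C : ℝ} (hC : 0 < C) : ∃ d : ℕ, ∀ (Γ : Set (Cn (L + 1)))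
    (W : ℝ → Cn (L + 1) → ℝ), IsWeight Γ W C → (∀ x ∈ Γ, x ≠ 0) →
      (∀ x ∈ Γ, ∀ y : Cn (L + 1), ∀ c : ℂ, c ≠ 0 → cc y = c • cc x → y ∈ Γ) →
      ∀ x₀ : Cn (L + 1), x₀ ≠ 0 → x₀ ∉ Γ → ∃ Q : MvPolynomial (Fin (L + 1)) ℂ,
        Q.IsHomogeneous d ∧ (∀ x ∈ Γ, MvPolynomial.eval (cc x) Q = 0) ∧
          MvPolynomial.eval (cc x₀) Q ≠ 0 := exists_form_of (exists_approx L hC)

end Pool.Agent.KRFCh
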