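import Pool.Agent.Work.MP_a2bf38_gt.Ch.Defs
import Pool.Agent.Work.MP_a2bf38_gt.Ch.Cal
import Pool.Agent.Work.MP_a2bf38_gt.Z.HolMean
import Pool.Agent.Work.MP_a2bf38_gt.I.GapA

/-!
# The affine slices of the cone
-/

open scoped ContDiff Topology
open Set Filter Pool.Agent.ToricKRF Pool.Agent.ToricKRF.G Pool.Agent.KRFS Pool.Agent.KRFF
  Pool.Agent.KRFZ
open Pool.Agent.KRFX.NC (contDiff_nsq nsq_nonneg nsq_eq_zero fs fs_nonneg D_nsq)
open Pool.Agent.KRFS.ABP (ip)

namespace Pool.Agent.KRFCh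

theorem cc_slice {L : ℕ} (a : Fin (L + 1)) (t : Cn L) :
    cc (slice a t) = a.insertNth (1 : ℂ) (cc t) := by
  funext k
  refine Fin.succAboveCases a ?_ (fun j => ?_) k
  · simp only [slice, cc, Fin.insertNth_apply_same]
    rfl
  · simp only [slice, cc, Fin.insertNth_apply_succAbove]

theorem nsq_slice {L : ℕ} (a : Fin (L + 1)) (t : Cn L) : nsq (slice a t) = 1 + nsq t := by
  unfold nsq dotProduct
  rw [Fin.sum_univ_succAbove _ a, Fin.sum_univ_succAbove _ a]
  simp only [slice, Fin.insertNth_apply_same, Fin.insertNth_apply_succAbove]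
  ring

theorem slice_sub_same {L : ℕ} (a : Fin (L + 1)) (t t' : Cn L) :
    (slice a t - slice a t').1 a = 0 ∧ (slice a t - slice a t').2 a = 0 := by
  simp [slice]

theorem slice_sub_succ {L : ℕ} (a : Fin (L + 1)) (t t' : Cn L) (j : Fin L) :
    (slice a t - slice a t').1 (a.succAbove j) = (t - t').1 j ∧
      (slice a t - slice a t').2 (a.succAbove j) = (t - t').2 j := by
  simp [slice]

theorem nsq_slice_sub {L : ℕ} (a : Fin (L + 1)) (t t' : Cn L) :
    nsq (slice a t - slice a t') = nsq (t - t') := by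
  unfold nsq dotProduct
  rw [Fin.sum_univ_succAbove _ a, Fin.sum_univ_succAbove (fun i => _ * _) a]
  simp only [slice_sub_same, slice_sub_succ]
  ring

/-- the linear part of the slice -/
noncomputable def sliceL {L : ℕ} (a : Fin (L + 1)) : Cn L →L[ℝ] Cn (L + 1) :=
  LinearMap.toContinuousLinearMap
    { toFun := fun v => slice a v - slice a 0
      map_add' := fun u v => by
        refine Prod.ext (funext fun k => ?_) (funext fun k => ?_)
        · refine Fin.succAboveCases a ?_ (fun j => ?_) k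
          · simp [slice]
          · simp [slice]
        · refine Fin.succAboveCases a ?_ (fun j => ?_) k
          · simp [slice]
          · simp [slice]
      map_smul' := fun r v => by
        refine Prod.ext (funext fun k => ?_) (funext fun k => ?_)
        · refine Fin.succAboveCases a ?_ (fun j => ?_) k
          · simp [slice]
          · simp [slice]
        · refine Fin.succAboveCases a ?_ (fun j => ?_) k
          · simp [slice]
          · simp [slice] }

theorem sliceL_apply {L : ℕ} (a : Fin (L + 1)) (v : Cn L) :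
    sliceL a v = slice a v - slice a 0 := rfl

theorem sliceL_J {L : ℕ} (a : Fin (L + 1)) (v : Cn L) : sliceL a (J v) = J (sliceL a v) := by
  rw [sliceL_apply, sliceL_apply]
  refine Prod.ext (funext fun k => ?_) (funext fun k => ?_)
  · refine Fin.succAboveCases a ?_ (fun j => ?_) k
    · simp [slice, J]
    · simp [slice, J]
  · refine Fin.succAboveCases a ?_ (fun j => ?_) k
    · simp [slice, J]
    · simp [slice, J]

theorem slice_eq {L : ℕ} (a : Fin (L + 1)) :
    (slice a : Cn L → Cn (L + 1)) = fun t => sliceL a t + slice a 0 := by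
  funext t
  rw [sliceL_apply, sub_add_cancel]

theorem contDiff_slice {L : ℕ} (a : Fin (L + 1)) : ContDiff ℝ ∞ (slice (L := L) a) := by
  rw [slice_eq]
  exact (sliceL a).contDiff.add contDiff_const

theorem fderiv_slice {L : ℕ} (a : Fin (L + 1)) (t : Cn L) :
    fderiv ℝ (slice (L := L) a) t = sliceL a := by
  rw [slice_eq]
  exact ((sliceL a).hasFDerivAt.add_const _).fderiv

theorem levz_slice {L : ℕ} (a : Fin (L + 1)) {H : Cn (L + 1) → ℝ} {t : Cn L}
    (hH : ContDiffAt ℝ 2 H (slice a t)) (v : Cn L) :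
    levz (fun t => H (slice a t)) v t = levz H (slice a v - slice a 0) (slice a t) := by
  have hc : ContDiffAt ℝ 2 (slice (L := L) a) t := (contDiff_slice a).contDiffAt.of_le two_le_infty
  have h0 : ∀ w, fderiv ℝ (fun q => fderiv ℝ (slice (L := L) a) q w) t w = 0 := by
    intro w
    have h1 : (fun q => fderiv ℝ (slice (L := L) a) q w) = fun _ => sliceL a w := by
      funext q
      rw [fderiv_slice]
    rw [h1]
    simp
  unfold levz
  rw [D_D_comp hH hc, D_D_comp hH hc, h0, h0, map_zero, add_zero, add_zero, fderiv_slice,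
    sliceL_J, D_D_eq hH, D_D_eq hH, sliceL_apply]

theorem exists_slice {L : ℕ} {x : Cn (L + 1)} (hx : x ≠ 0) : ∃ (a : Fin (L + 1)) (t : Cn L)
    (c : ℂ), c ≠ 0 ∧ cc x = c • cc (slice a t) := by
  obtain ⟨a, ha⟩ : ∃ a, cc x a ≠ 0 := by
    by_contra h
    push Not at h
    exact cc_ne_zero hx (funext h)
  refine ⟨a, Pool.Agent.KRFQ.ofv fun j => cc x (a.succAbove j) / cc x a, cc x a, ha, ?_⟩
  rw [cc_slice]
  funext k
  refine Fin.succAboveCases a ?_ (fun j => ?_) k
  · simp
  · simp only [Pi.smul_apply, Fin.insertNth_apply_succAbove, Pool.Agent.KRFQ.cc_ofv, smul_eq_mul]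
    field_simp

/-- the Levi form of `log (1 + |t|^2)` -/
theorem levz_log_one_add {L : ℕ} (v t : Cn L) :
    levz (fun t => Real.log (1 + nsq t)) v t = (nsq v + fs t v) / (1 + nsq t) ^ 2 := by
  have h0 : 0 < 1 + nsq t := by
    have := nsq_nonneg t
    linarith
  have c : ContDiffAt ℝ 2 (fun t : Cn L => 1 + nsq t) t :=
    (contDiff_const.add contDiff_nsq).contDiffAt.of_le two_le_infty
  have hD : ∀ w, D w (fun t : Cn L => 1 + nsq t) t = 2 * ip t w := by
    intro w
    have h1 : D w (fun t : Cn L => 1 + nsq t) t = D w nsq t := by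
      unfold D
      rw [fderiv_const_add]
    rw [h1, D_nsq]
  have hl : levz (fun t : Cn L => 1 + nsq t) v t = nsq v := by
    rw [Bd.levz_add contDiffAt_const (contDiff_nsq.contDiffAt.of_le two_le_infty),
      Bd.levz_const, Gap.levz_nsq', zero_add]
  rw [Cp.levz_log c h0.ne', hl, Cp.dsq, hD, hD, fs]
  field_simp
  ring

theorem le_levz_log_one_add {L : ℕ} (v t : Cn L) :
    nsq v ≤ (1 + nsq t) ^ 2 * levz (fun t => Real.log (1 + nsq t)) v t := by
  have h0 : 0 < 1 + nsq t := by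
    have := nsq_nonneg t
    linarith
  rw [levz_log_one_add]
  have h1 := fs_nonneg t v
  have h2 : (1 + nsq t) ^ 2 * ((nsq v + fs t v) / (1 + nsq t) ^ 2) = nsq v + fs t v := by
    field_simp
  linarith

/-- a cut-off function at `t₀` -/
theorem exists_cutoff {L : ℕ} (t₀ : Cn L) {r : ℝ} (hr : 0 < r) : ∃ (u : Cn L → ℂ)
    (B : Cn L → ℝ), ContDiff ℝ ∞ u ∧ HasCompactSupport u ∧ Continuous B ∧ HasCompactSupport B ∧
    (∀ t, 0 ≤ B t) ∧ (∀ t, nsq (t - t₀) ≤ r ^ 2 / 4 → u t = 1 ∧ B t = 0) ∧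
    (∀ t, r ^ 2 ≤ nsq (t - t₀) → u t = 0 ∧ B t = 0) ∧
    ∀ t v, ‖dbv u v t‖ ^ 2 ≤ B t * levz (fun t => Real.log (1 + nsq t)) v t := by
  set θ : ℝ → ℝ := fun s => Real.smoothTransition ((r ^ 2 / 2 - s) / (r ^ 2 / 6)) with hθ
  have hr6 : 0 < r ^ 2 / 6 := by positivity
  have cθ : ContDiff ℝ ∞ θ := Real.smoothTransition.contDiff.comp
    ((contDiff_const.sub contDiff_id).div_const _)
  have θ1 : ∀ s, s ≤ r ^ 2 / 3 → θ s = 1 := fun s hs =>
    Real.smoothTransition.one_of_one_le (by rw [le_div_iff₀ hr6]; linarith)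
  have θ0 : ∀ s, r ^ 2 / 2 ≤ s → θ s = 0 := fun s hs =>
    Real.smoothTransition.zero_of_nonpos (div_nonpos_of_nonpos_of_nonneg (by linarith) hr6.le)
  have dθ1 : ∀ s, s < r ^ 2 / 3 → deriv θ s = 0 := by
    intro s hs
    have h1 : θ =ᶠ[𝓝 s] fun _ => (1 : ℝ) := by
      filter_upwards [isOpen_Iio.mem_nhds hs] with s' hs'
      exact θ1 s' (le_of_lt hs')
    rw [h1.deriv_eq, deriv_const]
  have dθ0 : ∀ s, r ^ 2 / 2 < s → deriv θ s = 0 := by
    intro s hs
    have h1 : θ =ᶠ[𝓝 s] fun _ => (0 : ℝ) := by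
      filter_upwards [isOpen_Ioi.mem_nhds hs] with s' hs'
      exact θ0 s' (le_of_lt hs')
    rw [h1.deriv_eq, deriv_const]
  have cd : Continuous (deriv θ) := cθ.continuous_deriv (by simp)
  set N : Cn L → ℝ := fun t => nsq (t - t₀) with hN
  have cN : ContDiff ℝ ∞ N := contDiff_nsq.comp (contDiff_id.sub contDiff_const)
  have hcpt : IsCompact {t : Cn L | nsq (t - t₀) ≤ r ^ 2} := HM.isCompact_ball t₀ r
  have cu : ContDiff ℝ ∞ fun t => θ (N t) := cθ.comp cN
  refine ⟨fun t => ((θ (N t) : ℝ) : ℂ),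
    fun t => 2 * (deriv θ (N t) ^ 2 * N t) * (1 + nsq t) ^ 2,
    Complex.ofRealCLM.contDiff.comp cu, ?_, ?_, ?_, fun t => ?_, fun t ht => ?_,
    fun t ht => ?_, fun t v => ?_⟩
  · refine HasCompactSupport.intro hcpt fun t ht => ?_
    have h1 : r ^ 2 < N t := not_le.1 ht
    rw [θ0 _ (by nlinarith)]
    rfl
  · have c1 : Continuous N := cN.continuous
    have c2 : Continuous fun t : Cn L => nsq t := contDiff_nsq.continuous
    exact ((continuous_const.mul (((cd.comp c1).pow 2).mul c1))).mul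
      ((continuous_const.add c2).pow 2)
  · refine HasCompactSupport.intro hcpt fun t ht => ?_
    have h1 : r ^ 2 < N t := not_le.1 ht
    rw [dθ0 _ (by nlinarith)]
    ring
  · have h1 := nsq_nonneg (t - t₀)
    positivity
  · have h1 : N t < r ^ 2 / 3 := by
      have : 0 < r ^ 2 := by positivity
      have h2 : N t ≤ r ^ 2 / 4 := ht
      linarith
    constructor
    · change ((θ (N t) : ℝ) : ℂ) = 1
      rw [θ1 _ h1.le, Complex.ofReal_one]
    · change 2 * (deriv θ (N t) ^ 2 * N t) * (1 + nsq t) ^ 2 = 0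
      rw [dθ1 _ h1]
      ring
  · have h1 : r ^ 2 / 2 < N t := by
      have : 0 < r ^ 2 := by positivity
      have h2 : r ^ 2 ≤ N t := ht
      linarith
    constructor
    · change ((θ (N t) : ℝ) : ℂ) = 0
      rw [θ0 _ h1.le, Complex.ofReal_zero]
    · change 2 * (deriv θ (N t) ^ 2 * N t) * (1 + nsq t) ^ 2 = 0
      rw [dθ0 _ h1]
      ring
  · have hd : DifferentiableAt ℝ (fun t => θ (N t)) t := cu.differentiable (by simp) t
    have h1 : ‖dbv (fun t => ((θ (N t) : ℝ) : ℂ)) v t‖ ^ 2 = Cp.dsq (fun t => θ (N t)) v t := by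
      rw [Cp.dsq, ← Pool.Agent.KRFQ.norm_dbar_real hd v, ← Pool.Agent.KRFQ.dbar_apply]
      rfl
    have h2 : Cp.dsq (fun t => θ (N t)) v t = deriv θ (N t) ^ 2 * Cp.dsq N v t :=
      Cp.dsq_fun (cθ.differentiable (by simp) _) (cN.differentiable (by simp) t) v
    have hDN : ∀ w, D w N t = 2 * ip (t - t₀) w := by
      intro w
      have h3 : HasFDerivAt N (fderiv ℝ nsq (t - t₀)) t := by
        have h0 : HasFDerivAt (nsq : Cn L → ℝ) (fderiv ℝ nsq (t - t₀)) (t - t₀) :=
          (contDiff_nsq.differentiable (by simp) (t - t₀)).hasFDerivAt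
        exact h0.comp t ((hasFDerivAt_id t).sub_const t₀)
      have h4 := D_nsq (t - t₀) w
      unfold D at h4 ⊢
      rw [h3.fderiv, h4]
    have h3 : Cp.dsq N v t ≤ 2 * (N t * nsq v) := by
      rw [Cp.dsq, hDN, hDN]
      have e1 := Pool.Agent.KRFS.ABP.ip_sq_le (t - t₀) v
      have e2 := Pool.Agent.KRFS.ABP.ip_sq_le (t - t₀) (J v)
      have e3 : nsq (J v) = nsq v := by
        rw [← Pool.Agent.KRFS.ABP.ip_self, ← Pool.Agent.KRFS.ABP.ip_self,
          Pool.Agent.KRFX.NC.ip_J_J]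
      rw [e3] at e2
      change ((2 * ip (t - t₀) v) ^ 2 + (2 * ip (t - t₀) (J v)) ^ 2) / 4 ≤
        2 * (nsq (t - t₀) * nsq v)
      nlinarith
    have hN0 : 0 ≤ N t := nsq_nonneg (t - t₀)
    rw [h1, h2]
    calc deriv θ (N t) ^ 2 * Cp.dsq N v t ≤ deriv θ (N t) ^ 2 * (2 * (N t * nsq v)) :=
          mul_le_mul_of_nonneg_left h3 (sq_nonneg _)
      _ = 2 * (deriv θ (N t) ^ 2 * N t) * nsq v := by ring
      _ ≤ 2 * (deriv θ (N t) ^ 2 * N t) * ((1 + nsq t) ^ 2 *
          levz (fun t => Real.log (1 + nsq t)) v t) :=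
          mul_le_mul_of_nonneg_left (le_levz_log_one_add v t) (by positivity)
      _ = _ := by ring

theorem exists_cutoff_slice {L : ℕ} (t₀ : Cn L) {r : ℝ} (hr : 0 < r) : ∃ (u : Cn L → ℂ)
    (B : Cn L → ℝ), ContDiff ℝ ∞ u ∧ HasCompactSupport u ∧ Continuous B ∧ HasCompactSupport B ∧
    (∀ t, 0 ≤ B t) ∧ (∀ t, nsq (t - t₀) ≤ r ^ 2 / 4 → u t = 1 ∧ B t = 0) ∧
    (∀ t, r ^ 2 ≤ nsq (t - t₀) → u t = 0 ∧ B t = 0) ∧
    ∀ t v, ‖dbv u v t‖ ^ 2 ≤ B t * levz (fun t => Real.log (1 + nsq t)) v t :=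
  exists_cutoff t₀ hr

end Pool.Agent.KRFCh
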