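import Pool.Agent.Work.MP_a2bf38_gt.Ch.Dual
import Pool.Agent.Work.MP_a2bf38_gt.Ch.Slice

/-!
# Forms which vanish on the zeros of a weight
-/

open scoped ContDiff ENNReal ComplexOrder LinearAlgebra.Projectivization Topology
open Set Filter MeasureTheory Pool.Agent.ToricKRF Pool.Agent.ToricKRF.G Pool.Agent.KRFS
  Pool.Agent.KRFF Pool.Agent.KRFZ Pool.Agent.KRFW

namespace Pool.Agent.KRFCh

/-- the point with given complex coordinates -/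
def pcoord {L : ℕ} (z : Fin L → ℂ) : Cn L := (fun k => (z k).re, fun k => (z k).im)

theorem cc_pcoord {L : ℕ} (z : Fin L → ℂ) : cc (pcoord z) = z := by
  funext k
  exact Complex.ext rfl rfl

/-- `exists_form` from the approximate polynomials on the slices -/
theorem exists_form_of {L : ℕ} {C : ℝ} (happ : ∃ d : ℕ, ∀ (Γ : Set (Cn (L + 1)))
    (W : ℝ → Cn (L + 1) → ℝ), IsWeight Γ W C → ∀ (a : Fin (L + 1)) (t₀ : Cn L),
      slice a t₀ ∉ Γ → ∀ s : Finset (Cn L), (∀ t ∈ s, slice a t ∈ Γ) → ∀ δ > 0,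
        ∃ P : MvPolynomial (Fin L) ℂ, P.totalDegree ≤ d ∧
          ‖MvPolynomial.eval (cc t₀) P - 1‖ ≤ δ ∧
          ∀ t ∈ s, ‖MvPolynomial.eval (cc t) P‖ ≤ δ) : ∃ d : ℕ, ∀ (Γ : Set (Cn (L + 1)))
    (W : ℝ → Cn (L + 1) → ℝ), IsWeight Γ W C → (∀ x ∈ Γ, x ≠ 0) →
      (∀ x ∈ Γ, ∀ y : Cn (L + 1), ∀ c : ℂ, c ≠ 0 → cc y = c • cc x → y ∈ Γ) →
      ∀ x₀ : Cn (L + 1), x₀ ≠ 0 → x₀ ∉ Γ → ∃ Q : MvPolynomial (Fin (L + 1)) ℂ,
        Q.IsHomogeneous d ∧ (∀ x ∈ Γ, MvPolynomial.eval (cc x) Q = 0) ∧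
          MvPolynomial.eval (cc x₀) Q ≠ 0 := by
  obtain ⟨d, hd⟩ := happ
  refine ⟨d + 1, fun Γ W hW _ hcone x₀ hx₀ hx₀Γ => ?_⟩
  obtain ⟨a, t₀, c, hc, hx⟩ := exists_slice hx₀
  have hsl : slice a t₀ ∉ Γ := fun h => hx₀Γ (hcone _ h x₀ c hc hx)
  obtain ⟨P, hPd, hP0, hPT⟩ := exists_poly_of_approx (d := d) {z | slice a (pcoord z) ∈ Γ} (cc t₀)
    (fun s hs δ hδ => by
      classical
      obtain ⟨P, h1, h2, h3⟩ := hd Γ W hW a t₀ hsl (s.image pcoord) (fun t ht => by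
        obtain ⟨z, hz, rfl⟩ := Finset.mem_image.1 ht
        exact hs hz) δ hδ
      exact ⟨P, h1, h2, fun z hz => by
        simpa only [cc_pcoord] using h3 _ (Finset.mem_image_of_mem _ hz)⟩)
  obtain ⟨Q, hQ, hQe, hQ0⟩ := exists_homog a P hPd
  refine ⟨Q, hQ, fun x hx => ?_, ?_⟩
  · by_cases h0 : cc x a = 0
    · exact hQ0 _ h0
    · set z : Fin L → ℂ := (cc x a)⁻¹ • a.removeNth (cc x) with hz
      have e1 : a.insertNth (1 : ℂ) z = (cc x a)⁻¹ • cc x := by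
        refine (Fin.eq_insertNth_iff.2 ⟨?_, ?_⟩).symm
        · rw [Pi.smul_apply, smul_eq_mul, inv_mul_cancel₀ h0]
        · rfl
      have hzT : slice a (pcoord z) ∈ Γ := by
        refine hcone x hx _ (cc x a)⁻¹ (inv_ne_zero h0) ?_
        rw [cc_slice, cc_pcoord, e1]
      have e2 : cc x = cc x a • a.insertNth (1 : ℂ) z := by
        rw [e1, smul_inv_smul₀ h0]
      rw [e2, hQe, hPT z hzT, mul_zero]
  · rw [hx, cc_slice, hQe]
    exact mul_ne_zero (pow_ne_zero _ hc) hP0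

end Pool.Agent.KRFCh
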