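import Mathlib

/-!
# Homogenisation of polynomials and limits of polynomials of bounded degree (helper28)
-/

open Filter Topology

namespace Pool.Agent.KRFCh.Hg

/-- The form `x_a^(D+1) P(x / x_a)` of degree `D + 1`: the coordinates `x_j / x_a`, `j` different
from `a`, are listed by `Fin.succAbove`. -/
theorem exists_homog {L : ℕ} (a : Fin (L + 1)) (D : ℕ) (P : MvPolynomial (Fin L) ℂ)
    (hP : P.totalDegree ≤ D) :
    ∃ Q : MvPolynomial (Fin (L + 1)) ℂ, Q.IsHomogeneous (D + 1) ∧
      (∀ x : Fin (L + 1) → ℂ, x a = 0 → MvPolynomial.eval x Q = 0) ∧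
      ∀ x : Fin (L + 1) → ℂ, x a ≠ 0 → MvPolynomial.eval x Q =
        x a ^ (D + 1) * MvPolynomial.eval (fun j => x (a.succAbove j) / x a) P := by
  classical
  refine ⟨∑ m ∈ P.support, MvPolynomial.C (P.coeff m) *
    ((∏ j, MvPolynomial.X (a.succAbove j) ^ m j) * MvPolynomial.X a ^ (D + 1 - ∑ j, m j)),
    ?_, ?_, ?_⟩
  · refine MvPolynomial.IsHomogeneous.sum _ _ _ fun m hm => ?_
    have hdeg : ∑ j, m j ≤ D := by
      have := MvPolynomial.le_totalDegree hm
      rw [Finsupp.sum_fintype _ _ (by simp)] at this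
      exact this.trans hP
    have h1 : (∏ j, (MvPolynomial.X (a.succAbove j) : MvPolynomial (Fin (L + 1)) ℂ) ^ m j).IsHomogeneous
        (∑ j, m j) := by
      refine MvPolynomial.IsHomogeneous.prod _ _ _ fun j _ => ?_
      simpa using (MvPolynomial.isHomogeneous_X ℂ (a.succAbove j)).pow (m j)
    have h2 : ((MvPolynomial.X a : MvPolynomial (Fin (L + 1)) ℂ) ^ (D + 1 - ∑ j, m j)).IsHomogeneous
        (D + 1 - ∑ j, m j) := by
      simpa using (MvPolynomial.isHomogeneous_X ℂ a).pow (D + 1 - ∑ j, m j)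
    have h3 := (MvPolynomial.isHomogeneous_C (Fin (L + 1)) (P.coeff m)).mul (h1.mul h2)
    have e : 0 + (∑ j, m j + (D + 1 - ∑ j, m j)) = D + 1 := by omega
    rw [e] at h3
    exact h3
  · intro x hx
    rw [map_sum]
    refine Finset.sum_eq_zero fun m hm => ?_
    have hdeg : ∑ j, m j ≤ D := by
      have := MvPolynomial.le_totalDegree hm
      rw [Finsupp.sum_fintype _ _ (by simp)] at this
      exact this.trans hP
    rw [map_mul, map_mul, map_pow, MvPolynomial.eval_X, hx, zero_pow (by omega), mul_zero, mul_zero]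
  · intro x hx
    rw [map_sum, MvPolynomial.eval_eq, Finset.mul_sum]
    refine Finset.sum_congr rfl fun m hm => ?_
    have hdeg : ∑ j, m j ≤ D := by
      have := MvPolynomial.le_totalDegree hm
      rw [Finsupp.sum_fintype _ _ (by simp)] at this
      exact this.trans hP
    rw [map_mul, map_mul, map_pow, MvPolynomial.eval_X, MvPolynomial.eval_C, map_prod]
    simp only [map_pow, MvPolynomial.eval_X]
    have h1 : ∀ j, (x (a.succAbove j) / x a) ^ m j = x (a.succAbove j) ^ m j * (x a ^ m j)⁻¹ := by
      intro j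
      rw [div_pow, div_eq_mul_inv]
    have h2 : ∏ i ∈ m.support, (x (a.succAbove i) / x a) ^ m i =
        ∏ i, (x (a.succAbove i) / x a) ^ m i := by
      refine Finset.prod_subset (Finset.subset_univ _) fun i _ hi => ?_
      rw [Finsupp.notMem_support_iff.1 hi, pow_zero]
    rw [h2, Finset.prod_congr rfl fun j _ => h1 j, Finset.prod_mul_distrib, Finset.prod_inv_distrib,
      Finset.prod_pow_eq_pow_sum]
    have h3 : x a ^ (D + 1) = x a ^ (D + 1 - ∑ j, m j) * x a ^ (∑ j, m j) := by
      rw [← pow_add]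
      congr 1
      omega
    have h4 : x a ^ (∑ j, m j) ≠ 0 := pow_ne_zero _ hx
    rw [h3]
    field_simp

/-- A sequence of polynomials of bounded degree with bounded coefficients has a limit. -/
theorem exists_limit {L : ℕ} (D : ℕ) (C : ℝ) (P : ℕ → MvPolynomial (Fin L) ℂ)
    (hP : ∀ k, (P k).totalDegree ≤ D) (hC : ∀ k m, ‖(P k).coeff m‖ ≤ C) :
    ∃ (Q : MvPolynomial (Fin L) ℂ) (φ : ℕ → ℕ), StrictMono φ ∧ Q.totalDegree ≤ D ∧
      ∀ t, Tendsto (fun k => MvPolynomial.eval t (P (φ k))) atTop (𝓝 (MvPolynomial.eval t Q)) := by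
  classical
  -- the finitely many exponents
  set E : Finset (Fin L →₀ ℕ) := (Finset.univ : Finset (Fin L → Fin (D + 1))).image
    (fun m => Finsupp.equivFunOnFinite.symm fun j => (m j : ℕ)) with hE
  have hmem : ∀ k, (P k).support ⊆ E := by
    intro k m hm
    have h1 := MvPolynomial.le_totalDegree hm
    rw [Finsupp.sum_fintype _ _ (by simp)] at h1
    have h2 : ∀ j, m j < D + 1 := by
      intro j
      have h3 : m j ≤ ∑ j, m j := Finset.single_le_sum (f := fun j => m j) (fun _ _ => Nat.zero_le _)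
        (Finset.mem_univ j)
      have := hP k
      omega
    rw [hE, Finset.mem_image]
    refine ⟨fun j => ⟨m j, h2 j⟩, Finset.mem_univ _, ?_⟩
    ext j
    simp
  -- compactness
  set K : Set (E → ℂ) := Metric.closedBall 0 (|C|) with hK
  have hKc : IsCompact K := isCompact_closedBall _ _
  have hin : ∀ k, (fun m : E => (P k).coeff m.1) ∈ K := by
    intro k
    rw [hK, mem_closedBall_zero_iff, pi_norm_le_iff_of_nonneg (abs_nonneg _)]
    exact fun m => (hC k m.1).trans (le_abs_self C)
  obtain ⟨c, -, φ, hφ, hlim⟩ := hKc.tendsto_subseq hin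
  rw [tendsto_pi_nhds] at hlim
  refine ⟨∑ m ∈ E.attach, if m.1.sum (fun _ e => e) ≤ D then MvPolynomial.monomial m.1 (c m) else 0,
    φ, hφ, ?_, ?_⟩
  · refine MvPolynomial.totalDegree_finsetSum_le fun m _ => ?_
    split_ifs with h
    · exact (MvPolynomial.totalDegree_monomial_le _ _).trans h
    · simp
  · intro t
    have h1 : ∀ k, MvPolynomial.eval t (P (φ k)) =
        ∑ m ∈ E.attach, if m.1.sum (fun _ e => e) ≤ D then
          (P (φ k)).coeff m.1 * ∏ i, t i ^ m.1 i else 0 := by
      intro k
      rw [MvPolynomial.eval_eq', Finset.sum_attach E fun m => if m.sum (fun _ e => e) ≤ D then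
          (P (φ k)).coeff m * ∏ i, t i ^ m i else 0]
      rw [Finset.sum_subset (hmem (φ k))]
      · refine Finset.sum_congr rfl fun m _ => ?_
        split_ifs with h
        · rfl
        · have h2 : m ∉ (P (φ k)).support := fun h3 =>
            h ((MvPolynomial.le_totalDegree h3).trans (hP _))
          rw [MvPolynomial.notMem_support_iff.1 h2, zero_mul]
      · intro m _ hm
        rw [MvPolynomial.notMem_support_iff.1 hm, zero_mul]
    have h2 : MvPolynomial.eval t (∑ m ∈ E.attach, if m.1.sum (fun _ e => e) ≤ D then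
        MvPolynomial.monomial m.1 (c m) else 0) =
        ∑ m ∈ E.attach, if m.1.sum (fun _ e => e) ≤ D then c m * ∏ i, t i ^ m.1 i else 0 := by
      rw [map_sum]
      refine Finset.sum_congr rfl fun m _ => ?_
      split_ifs with h
      · rw [MvPolynomial.eval_monomial, Finsupp.prod_fintype _ _ (by simp)]
      · exact map_zero _
    simp only [h1, h2]
    refine tendsto_finsetSum _ fun m _ => ?_
    split_ifs with h
    · exact (hlim m).mul_const _
    · exact tendsto_const_nhds

end Pool.Agent.KRFCh.Hg
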