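import Pool.Agent.Work.MP_a2bf38_gt.Ch.Defs
import Pool.Agent.Work.MP_a2bf38_gt.Ch.Cal
import Pool.Agent.Work.MP_a2bf38_gt.Z.HolMean

/-!
# The Levi form of the logarithm of a sum
-/

open scoped ContDiff Topology
open Set Filter Pool.Agent.ToricKRF Pool.Agent.ToricKRF.G Pool.Agent.KRFS
open Pool.Agent.KRFX.NC (contDiff_nsq nsq_nonneg nsq_eq_zero levz_log_nsq)

namespace Pool.Agent.KRFCh

/-- convexity of log-sum-exp, for functions which may vanish -/
theorem levz_log_sum {l m : ℕ} {F : Fin m → Cn l → ℝ} {x v : Cn l} {a : Fin m → ℝ}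
    (hF : ∀ i, ContDiffAt ℝ 2 (F i) x) (h0 : ∀ i, ∀ᶠ x' in 𝓝 x, 0 ≤ F i x')
    (hpos : ∃ i, 0 < F i x) (ha0 : ∀ i, 0 ≤ a i)
    (ha : ∀ i, 0 < F i x → -a i ≤ F i x * levz (fun x => Real.log (F i x)) v x) :
    -∑ i, a i ≤ (∑ i, F i x) * levz (fun x => Real.log (∑ i, F i x)) v x := by
  have h00 : ∀ i, 0 ≤ F i x := fun i => (h0 i).self_of_nhds
  have hS : 0 < ∑ i, F i x := by
    obtain ⟨i, hi⟩ := hpos
    exact Finset.sum_pos' (fun j _ => h00 j) ⟨i, Finset.mem_univ i, hi⟩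
  have h1 := Cp.levz_log_sum' (z := x) Finset.univ (fun i _ => hF i) (fun i _ => h0 i) hS v
    (m := fun i => if F i x = 0 then 0 else -a i / F i x) (fun i _ hi => by
      have hp : 0 < F i x := lt_of_le_of_ne (h00 i) (Ne.symm hi)
      simp only [if_neg hi]
      rw [div_le_iff₀ hp, mul_comm]
      exact ha i hp)
  have h2 := mul_le_mul_of_nonneg_left h1 hS.le
  refine le_trans ?_ h2
  rw [Finset.mul_sum, ← Finset.sum_neg_distrib]
  refine Finset.sum_le_sum fun i _ => ?_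
  by_cases hi : F i x = 0
  · rw [if_pos hi, mul_zero, mul_zero]
    linarith [ha0 i]
  · rw [if_neg hi]
    refine le_of_eq ?_
    field_simp

/-- `log (|E|^2 + ε^2)` is plurisubharmonic -/
theorem levz_log_nsq_add_nonneg {l r : ℕ} {E : Cn l → Cn r} {O : Set (Cn l)} (hO : IsOpen O)
    (hE : HolOn E O) {x : Cn l} (hx : x ∈ O) (v : Cn l) {ε : ℝ} (hε : 0 < ε) :
    0 ≤ levz (fun x => Real.log (nsq (E x) + ε ^ 2)) v x := by
  have h1 : (fun x => Real.log (nsq (E x) + ε ^ 2)) =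
      fun x => (fun y : Cn r => Real.log (nsq (y - 0) + ε ^ 2)) (E x) := by
    funext y
    simp
  rw [h1, levz_comp isOpen_univ (Pool.Agent.KRFZ.HM.contDiff_logpole 0 hε.ne').contDiffOn hO hE hx
    (mem_univ _) v]
  exact Pool.Agent.KRFZ.HM.levz_logpole 0 hε.ne' _ _

end Pool.Agent.KRFCh
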