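import Pool.Agent.Work.MP_a2bf38_gt.Ch.Defs
import Pool.Agent.Work.MP_a2bf38_gt.Ch.Cap
import Pool.Agent.Work.MP_a2bf38_gt.Ch.LogSum
import Pool.Agent.Work.MP_a2bf38_gt.Ch.Away
import Pool.Agent.Work.MP_a2bf38_gt.Ch.Cover
import Pool.Agent.Work.MP_a2bf38_gt.Ch.Eq
import Pool.Agent.Work.MP_a2bf38_gt.Z.HolMean

/-!
# The weight `∑ χ_i (hcap (b i) x) (|E_i w x|^2 + ε^2)`
-/

open scoped ContDiff ENNReal ComplexOrder LinearAlgebra.Projectivization Topology
open Set Filter MeasureTheory Pool.Agent.ToricKRF Pool.Agent.ToricKRF.G Pool.Agent.KRFS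
  Pool.Agent.KRFF Pool.Agent.KRFZ Pool.Agent.KRFW

namespace Pool.Agent.KRFCh

namespace Wt

variable {l r : ℕ}

/-- one term of the weight -/
noncomputable def term (b : Cn l) (χ : ℝ → ℝ) (E : Cn l → Cn r) (ε : ℝ) (x : Cn l) : ℝ :=
  χ (hcap b x) * (nsq (E x) + ε ^ 2)

/-- the assumptions on one term -/
structure IsTerm (b : Cn l) (η : ℝ) (χ : ℝ → ℝ) (C : ℝ) (O : Set (Cn l)) (E : Cn l → Cn r) :
    Prop where
  b_ne : b ≠ 0
  η_pos : 0 < η
  smooth : ContDiff ℝ ∞ χ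
  C_pos : 0 < C
  bound : ∀ s, 0 ≤ χ s ∧ χ s ≤ 1
  zero : ∀ s, χ s = 0 ↔ s ≤ 1 - η / 2
  big : ∀ s, 1 - η / 4 ≤ s → C⁻¹ ≤ χ s
  lev : ∀ x v : Cn l, x ≠ 0 → 1 - η / 2 < hcap b x →
    -C * levz (fun x => Real.log (nsq x)) v x ≤
      χ (hcap b x) * levz (fun x => Real.log (χ (hcap b x))) v x
  isOpen : IsOpen O
  mem : ∀ x, x ≠ 0 → 1 - η < hcap b x → x ∈ O
  hol : HolOn E O

variable {b : Cn l} {η : ℝ} {χ : ℝ → ℝ} {C : ℝ} {O : Set (Cn l)} {E : Cn l → Cn r} {ε : ℝ}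

theorem isOpen_ne0 : IsOpen {x : Cn l | x ≠ 0} := isOpen_ne

theorem term_nonneg (h : IsTerm b η χ C O E) (ε : ℝ) (x : Cn l) : 0 ≤ term b χ E ε x :=
  mul_nonneg (h.bound _).1 (add_nonneg (Pool.Agent.KRFX.NC.nsq_nonneg _) (sq_nonneg _))

theorem pos_iff (h : IsTerm b η χ C O E) (hε : 0 < ε) (x : Cn l) :
    0 < term b χ E ε x ↔ 1 - η / 2 < hcap b x := by
  have h1 : 0 < nsq (E x) + ε ^ 2 := by
    have := Pool.Agent.KRFX.NC.nsq_nonneg (E x)
    positivity
  unfold term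
  rw [mul_pos_iff_of_pos_right h1]
  have h2 := h.bound (hcap b x)
  have h3 := h.zero (hcap b x)
  constructor
  · intro h4
    by_contra h5
    exact h4.ne' (h3.2 (not_lt.1 h5))
  · intro h4
    exact lt_of_le_of_ne h2.1 fun h5 => absurd (h3.1 h5.symm) (not_le.2 h4)

theorem smooth_E (h : IsTerm b η χ C O E) (ε : ℝ) :
    ContDiffOn ℝ ∞ (fun x => nsq (E x) + ε ^ 2) O :=
  (Pool.Agent.KRFX.NC.contDiff_nsq.comp_contDiffOn h.hol.1).add contDiffOn_const

theorem contDiffAt_term (h : IsTerm b η χ C O E) (ε : ℝ) {x : Cn l} (hx : x ≠ 0) :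
    ContDiffAt ℝ ∞ (term b χ E ε) x := by
  have hcont : ContDiffAt ℝ ∞ (hcap b) x := (contDiffOn_hcap b).contDiffAt (isOpen_ne0.mem_nhds hx)
  by_cases hc : 1 - η < hcap b x
  · have hxO := h.mem x hx hc
    exact (h.smooth.contDiffAt.comp x hcont).mul ((smooth_E h ε).contDiffAt (h.isOpen.mem_nhds hxO))
  · have h1 : ∀ᶠ x' in 𝓝 x, hcap b x' < 1 - η / 2 := by
      refine hcont.continuousAt.eventually_lt continuousAt_const ?_
      have := h.η_pos
      linarith [not_lt.1 hc]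
    have h2 : term b χ E ε =ᶠ[𝓝 x] fun _ => 0 := by
      filter_upwards [h1] with x' hx'
      unfold term
      rw [(h.zero _).2 hx'.le, zero_mul]
    exact contDiffAt_const.congr_of_eventuallyEq h2

/-- the Levi form of one term -/
theorem lev_term (h : IsTerm b η χ C O E) (hε : 0 < ε) {x : Cn l} (hx : x ≠ 0)
    (hc : 1 - η / 2 < hcap b x) (v : Cn l) :
    -(C * levz (fun x => Real.log (nsq x)) v x * (nsq (E x) + ε ^ 2)) ≤
      term b χ E ε x * levz (fun x => Real.log (term b χ E ε x)) v x := by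
  have hη := h.η_pos
  have hxO : x ∈ O := h.mem x hx (by linarith)
  have hcont : ContDiffAt ℝ ∞ (hcap b) x := (contDiffOn_hcap b).contDiffAt (isOpen_ne0.mem_nhds hx)
  have hχ : ContDiffAt ℝ ∞ (fun x => χ (hcap b x)) x := h.smooth.contDiffAt.comp x hcont
  have hH : ContDiffAt ℝ ∞ (fun x => nsq (E x) + ε ^ 2) x :=
    (smooth_E h ε).contDiffAt (h.isOpen.mem_nhds hxO)
  have hH0 : ∀ x, 0 < nsq (E x) + ε ^ 2 := fun x => by
    have := Pool.Agent.KRFX.NC.nsq_nonneg (E x)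
    positivity
  have hχ0 : 0 < χ (hcap b x) :=
    lt_of_le_of_ne (h.bound _).1 fun h5 => absurd ((h.zero _).1 h5.symm) (not_le.2 hc)
  have h1 : levz (fun x => Real.log (term b χ E ε x)) v x =
      levz (fun x => Real.log (χ (hcap b x))) v x +
        levz (fun x => Real.log (nsq (E x) + ε ^ 2)) v x := by
    have e1 : (fun x => Real.log (term b χ E ε x)) =ᶠ[𝓝 x]
        fun x => Real.log (χ (hcap b x)) + Real.log (nsq (E x) + ε ^ 2) := by
      filter_upwards [hχ.continuousAt.eventually_ne hχ0.ne'] with y hy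
      exact Real.log_mul hy (hH0 y).ne'
    have c1 : ContDiffAt ℝ 2 (fun x => Real.log (χ (hcap b x))) x :=
      (hχ.log hχ0.ne').of_le two_le_infty
    have c2 : ContDiffAt ℝ 2 (fun x => Real.log (nsq (E x) + ε ^ 2)) x :=
      (hH.log (hH0 x).ne').of_le two_le_infty
    unfold levz
    rw [LC.D_D_congr _ _ e1, LC.D_D_congr _ _ e1, LC.D_D_add _ _ c1 c2, LC.D_D_add _ _ c1 c2]
    ring
  have h2 := h.lev x v hx hc
  have h3 := levz_log_nsq_add_nonneg h.isOpen h.hol hxO v hε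
  have h4 := hH0 x
  rw [h1]
  unfold term
  nlinarith [mul_nonneg (mul_nonneg hχ0.le h4.le) h3, mul_le_mul_of_nonneg_right h2 h4.le]

theorem nsq_pos {x : Cn l} (hx : x ≠ 0) : 0 < nsq x :=
  lt_of_le_of_ne (Pool.Agent.KRFX.NC.nsq_nonneg x) fun h =>
    hx (Pool.Agent.KRFX.NC.nsq_eq_zero.1 h.symm)

theorem fs_levz_nonneg {x : Cn l} (hx : x ≠ 0) (v : Cn l) :
    0 ≤ levz (fun x => Real.log (nsq x)) v x := by
  rw [Pool.Agent.KRFX.NC.levz_log_nsq (nsq_pos hx).ne']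
  exact div_nonneg (Pool.Agent.KRFX.NC.fs_nonneg _ _) (sq_nonneg _)

theorem nsq_sub_le (x y : Cn l) : nsq (x - y) ≤ 2 * nsq x + 2 * nsq y := by
  simp only [nsq, dotProduct, Prod.fst_sub, Prod.snd_sub, Pi.sub_apply, Finset.mul_sum, mul_add]
  have h : ∀ a b : Fin l → ℝ, ∑ i, (a i - b i) * (a i - b i) ≤
      ∑ i, 2 * (a i * a i) + ∑ i, 2 * (b i * b i) := by
    intro a b
    rw [← Finset.sum_add_distrib]
    refine Finset.sum_le_sum fun i _ => ?_
    nlinarith [sq_nonneg (a i + b i)]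
  have h1 := h x.1 y.1
  have h2 := h x.2 y.2
  linarith

theorem nsq_smul (t : ℝ) (x : Cn l) : nsq (t • x) = t ^ 2 * nsq x := by
  simp only [nsq, Prod.smul_fst, Prod.smul_snd, smul_dotProduct, dotProduct_smul, smul_eq_mul]
  ring

theorem cc_smul (t : ℝ) (x : Cn l) : cc (t • x) = (t : ℂ) • cc x := by
  funext k
  apply Complex.ext <;> simp [cc]

/-- homogeneous coordinates of a point of the size of `x` -/
theorem exists_rep {L : ℕ} (P : ℙ ℂ (Fin (L + 1) → ℂ)) {x : Cn (L + 1)} (hx : x ≠ 0) :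
    ∃ (x' : Cn (L + 1)) (h : cc x' ≠ 0), P = Projectivization.mk ℂ (cc x') h ∧
      nsq (x - x') / nsq x ≤ 4 := by
  set y : Cn (L + 1) := (fun k => (P.rep k).re, fun k => (P.rep k).im) with hy
  have hyc : cc y = P.rep := by
    funext k
    apply Complex.ext <;> simp [cc, hy]
  have hy0 : y ≠ 0 := by
    intro h
    refine P.rep_nonzero ?_
    rw [← hyc, h]
    funext k
    apply Complex.ext <;> simp [cc]
  have hny := nsq_pos hy0
  have hnx := nsq_pos hx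
  set t : ℝ := Real.sqrt (nsq x / nsq y) with ht
  have ht0 : 0 < t := Real.sqrt_pos.2 (div_pos hnx hny)
  have ht2 : t ^ 2 = nsq x / nsq y := Real.sq_sqrt (div_pos hnx hny).le
  have hc : cc (t • y) ≠ 0 := by
    rw [cc_smul, hyc]
    exact smul_ne_zero (by exact_mod_cast ht0.ne') P.rep_nonzero
  refine ⟨t • y, hc, ?_, ?_⟩
  · rw [← P.mk_rep]
    rw [Projectivization.mk_eq_mk_iff']
    refine ⟨(t : ℂ)⁻¹, ?_⟩
    rw [cc_smul, hyc, smul_smul, inv_mul_cancel₀ (by exact_mod_cast ht0.ne'), one_smul]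
  · rw [div_le_iff₀ hnx]
    refine (nsq_sub_le _ _).trans ?_
    rw [nsq_smul, ht2, div_mul_cancel₀ _ hny.ne']
    linarith

end Wt

section

variable {M Z : Type} [MetricSpace M] [MetricSpace Z] {f : M → Z} {S : Set Z} {L r : ℕ}
  {ι : M → ℙ ℂ (Fin (L + 1) → ℂ)}

open Wt

/-- `W = ∑ χ_i (hcap (b i) x) (|E_i w x|^2 + ε^2)`, from the cover and from the estimate away from
the cone -/
theorem exists_weight_of [Nonempty M] {z₀ : Z}
    (hcover : ∃ (S' : Set Z) (C : ℝ) (m : ℕ) (b : Fin m → Cn (L + 1)) (η : Fin m → ℝ)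
      (O : Fin m → Set (Cn (L + 1))) (E : Fin m → Z → Cn (L + 1) → Cn r),
      IsOpen S' ∧ z₀ ∈ S' ∧ S' ⊆ S ∧ 0 < C ∧
      (∀ i, b i ≠ 0 ∧ 0 < η i ∧ η i ≤ 1 ∧ IsEq f ι (O i) S' (E i) C ∧
        ∀ x, x ≠ 0 → 1 - η i < hcap (b i) x → x ∈ O i) ∧
      ∀ x, x ≠ 0 → ∃ i, 1 - η i / 4 < hcap (b i) x)
    (haway : ∀ w ∈ S, ∀ x : Cn (L + 1), x ≠ 0 → x ∉ fcone f ι w →
      ∃ c > 0, ∀ᶠ x₁ in 𝓝 x, ∀ (p : M) (x' : Cn (L + 1)) (h : cc x' ≠ 0),
        ι p = Projectivization.mk ℂ (cc x') h → c ≤ nsq (x₁ - x') + dist (f p) w ^ 2) :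
    ∃ (S' : Set Z) (C : ℝ), IsOpen S' ∧ z₀ ∈ S' ∧
      S' ⊆ S ∧ 0 < C ∧ ∀ w ∈ S', ∃ W, IsWeight (fcone f ι w) W C := by
  classical
  obtain ⟨S₁, C₀, m, b, η, O, E, hS₁o, hz₁, hS₁S, hC₀, hi, hcov⟩ := hcover
  have hcap' := fun i => exists_cap (L + 1) (hi i).2.1 (hi i).2.2.1
  choose χ Cc hχ hCc hχb hχ0 hχ1 hχl using hcap'
  have hT : ∀ w ∈ S₁, ∀ i, IsTerm (b i) (η i) (χ i) (Cc i) (O i) (E i w) := fun w hw i =>
    { b_ne := (hi i).1
      η_pos := (hi i).2.1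
      smooth := hχ i
      C_pos := hCc i
      bound := hχb i
      zero := hχ0 i
      big := hχ1 i
      lev := fun x v hx hc => hχl i (b i) x v (hi i).1 hx hc
      isOpen := (hi i).2.2.2.1.isOpen
      mem := (hi i).2.2.2.2
      hol := (hi i).2.2.2.1.hol w hw }
  have hsub : ∀ x : Cn (L + 1), x ≠ 0 → ∀ i, 1 - η i / 2 < hcap (b i) x → x ∈ O i :=
    fun x hx i h => (hi i).2.2.2.2 x hx (by linarith [(hi i).2.1])
  set p₀ : M := Classical.arbitrary M
  set K : ℝ := C₀ * (4 + (dist (f p₀) z₀ + 1) ^ 2) with hK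
  have hK0 : 0 ≤ K := by positivity
  set Cm : ℝ := ∑ i, Cc i with hCm
  have hCm0 : 0 ≤ Cm := Finset.sum_nonneg fun i _ => (hCc i).le
  have hCmi : ∀ i, Cc i ≤ Cm := fun i =>
    Finset.single_le_sum (f := Cc) (fun i _ => (hCc i).le) (Finset.mem_univ i)
  -- the bound of the equations
  have hEb : ∀ w ∈ S₁ ∩ Metric.ball z₀ 1, ∀ i, ∀ x ∈ O i, nsq (E i w x) ≤ K := by
    intro w hw i x hx
    have hx0 := (hi i).2.2.2.1.ne x hx
    obtain ⟨x', hx', hP, h4⟩ := exists_rep (ι p₀) hx0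
    refine ((hi i).2.2.2.1.upper w hw.1 x hx p₀ x' hx' hP).trans ?_
    rw [hK]
    have h5 : dist (f p₀) w ≤ dist (f p₀) z₀ + 1 := by
      have h6 := dist_triangle (f p₀) z₀ w
      have h7 : dist z₀ w < 1 := by
        rw [dist_comm]
        exact hw.2
      linarith
    gcongr
  -- comparison
  have hcmp : ∀ w ∈ S₁, ∀ x : Cn (L + 1), x ≠ 0 → ∀ i, x ∈ O i → ∀ ε : ℝ, 0 < ε →
      nsq (E i w x) + ε ^ 2 ≤ (C₀ ^ 2 + 1) * Cm *
        ∑ k, term (b k) (χ k) (E k w) ε x := by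
    intro w hw x hx i hxi ε hε
    obtain ⟨k, hk⟩ := hcov x hx
    have hxk : x ∈ O k := hsub x hx k (by linarith [(hi k).2.1])
    obtain ⟨p, x', hx', hP, h1⟩ := (hi k).2.2.2.1.lower w hw x hxk
    have h2 := (hi i).2.2.2.1.upper w hw x hxi p x' hx' hP
    have h3 : nsq (E i w x) ≤ C₀ ^ 2 * nsq (E k w x) := by
      refine h2.trans ?_
      calc C₀ * (nsq (x - x') / nsq x + dist (f p) w ^ 2) ≤ C₀ * (C₀ * nsq (E k w x)) := by
            gcongr
        _ = _ := by ring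
    have hEk := Pool.Agent.KRFX.NC.nsq_nonneg (E k w x)
    have h4 : nsq (E i w x) + ε ^ 2 ≤ (C₀ ^ 2 + 1) * (nsq (E k w x) + ε ^ 2) := by
      nlinarith [sq_nonneg ε, sq_nonneg C₀, mul_nonneg (sq_nonneg C₀) (sq_nonneg ε)]
    have h5 : nsq (E k w x) + ε ^ 2 ≤ Cc k * term (b k) (χ k) (E k w) ε x := by
      unfold term
      have h6 := hχ1 k _ hk.le
      have h7 : 0 ≤ nsq (E k w x) + ε ^ 2 := by positivity
      have h8 : 1 ≤ Cc k * χ k (hcap (b k) x) := by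
        have := mul_le_mul_of_nonneg_left h6 (hCc k).le
        rwa [mul_inv_cancel₀ (hCc k).ne'] at this
      nlinarith
    have h9 : term (b k) (χ k) (E k w) ε x ≤ ∑ k, term (b k) (χ k) (E k w) ε x :=
      Finset.single_le_sum (f := fun k => term (b k) (χ k) (E k w) ε x)
        (fun k _ => term_nonneg (hT w hw k) ε x) (Finset.mem_univ k)
    have h10 : 0 ≤ term (b k) (χ k) (E k w) ε x := term_nonneg (hT w hw k) ε x
    calc nsq (E i w x) + ε ^ 2 ≤ (C₀ ^ 2 + 1) * (nsq (E k w x) + ε ^ 2) := h4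
      _ ≤ (C₀ ^ 2 + 1) * (Cc k * term (b k) (χ k) (E k w) ε x) := by gcongr
      _ ≤ (C₀ ^ 2 + 1) * (Cm * ∑ k, term (b k) (χ k) (E k w) ε x) := by
          gcongr
          exact hCmi k
      _ = _ := by ring
  have hWpos : ∀ w ∈ S₁, ∀ x : Cn (L + 1), x ≠ 0 → ∀ ε : ℝ, 0 < ε →
      ∃ i, 0 < term (b i) (χ i) (E i w) ε x := by
    intro w hw x hx ε hε
    obtain ⟨k, hk⟩ := hcov x hx
    exact ⟨k, (pos_iff (hT w hw k) hε x).2 (by linarith [(hi k).2.1])⟩
  set C : ℝ := m * (K + 1) + (C₀ ^ 2 + 1) * Cm ^ 2 + 1 with hC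
  have hC0 : 0 < C := by positivity
  refine ⟨S₁ ∩ Metric.ball z₀ 1, C, hS₁o.inter Metric.isOpen_ball,
    ⟨hz₁, Metric.mem_ball_self one_pos⟩, inter_subset_left.trans hS₁S, hC0, fun w hw => ?_⟩
  have hup : ∀ ε ∈ Ioc (0 : ℝ) 1, ∀ x : Cn (L + 1), x ≠ 0 →
      ∑ i, term (b i) (χ i) (E i w) ε x ≤ C := by
    intro ε hε x hx
    have h1 : ∀ i ∈ (Finset.univ : Finset (Fin m)), term (b i) (χ i) (E i w) ε x ≤ K + 1 := by
      intro i _
      by_cases hc : 1 - η i / 2 < hcap (b i) x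
      · have h2 := hEb w hw i x (hsub x hx i hc)
        have h3 := hχb i (hcap (b i) x)
        have h4 : ε ^ 2 ≤ 1 := pow_le_one₀ hε.1.le hε.2
        have h5 := Pool.Agent.KRFX.NC.nsq_nonneg (E i w x)
        unfold term
        nlinarith [sq_nonneg ε]
      · unfold term
        rw [(hχ0 i _).2 (not_lt.1 hc), zero_mul]
        positivity
    have h2 := Finset.sum_le_card_nsmul _ _ _ h1
    rw [Finset.card_univ, Fintype.card_fin, nsmul_eq_mul] at h2
    refine h2.trans ?_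
    rw [hC]
    have : 0 ≤ (C₀ ^ 2 + 1) * Cm ^ 2 := by positivity
    linarith
  refine ⟨fun ε x => ∑ i, term (b i) (χ i) (E i w) ε x, ?_, ?_, ?_, ?_, ?_⟩
  · intro ε hε x hx
    exact (ContDiffAt.sum fun i _ => contDiffAt_term (hT w hw.1 i) ε hx).contDiffWithinAt
  · intro ε hε x hx
    refine ⟨?_, hup ε hε x hx⟩
    obtain ⟨k, hk⟩ := hWpos w hw.1 x hx ε hε.1
    exact Finset.sum_pos' (fun i _ => term_nonneg (hT w hw.1 i) ε x) ⟨k, Finset.mem_univ k, hk⟩
  · intro ε hε x hx v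
    set FS := levz (fun x => Real.log (nsq x)) v x with hFS
    have hFS0 : 0 ≤ FS := fs_levz_nonneg hx v
    have hH0 : ∀ i, 0 ≤ nsq (E i w x) + ε ^ 2 := fun i => by
      have := Pool.Agent.KRFX.NC.nsq_nonneg (E i w x)
      positivity
    have h1 := levz_log_sum (F := fun i => term (b i) (χ i) (E i w) ε) (x := x) (v := v)
      (a := fun i => if 0 < term (b i) (χ i) (E i w) ε x then
        Cc i * FS * (nsq (E i w x) + ε ^ 2) else 0)
      (fun i => (contDiffAt_term (hT w hw.1 i) ε hx).of_le two_le_infty)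
      (fun i => Eventually.of_forall fun x' => term_nonneg (hT w hw.1 i) ε x')
      (hWpos w hw.1 x hx ε hε.1)
      (fun i => by
        split_ifs
        · exact mul_nonneg (mul_nonneg (hCc i).le hFS0) (hH0 i)
        · exact le_rfl)
      (fun i hpos => by
        rw [if_pos hpos]
        exact lev_term (hT w hw.1 i) hε.1 hx ((pos_iff (hT w hw.1 i) hε.1 x).1 hpos) v)
    set Wx := ∑ i, term (b i) (χ i) (E i w) ε x with hWx
    have hWx0 : 0 < Wx := by
      obtain ⟨k, hk⟩ := hWpos w hw.1 x hx ε hε.1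
      exact Finset.sum_pos' (fun i _ => term_nonneg (hT w hw.1 i) ε x) ⟨k, Finset.mem_univ k, hk⟩
    have h2 : (∑ i, if 0 < term (b i) (χ i) (E i w) ε x then
        Cc i * FS * (nsq (E i w x) + ε ^ 2) else 0) ≤
        ∑ i, Cc i * (FS * ((C₀ ^ 2 + 1) * Cm * Wx)) := by
      refine Finset.sum_le_sum fun i _ => ?_
      split_ifs with hpos
      · have h3 := hcmp w hw.1 x hx i
          (hsub x hx i ((pos_iff (hT w hw.1 i) hε.1 x).1 hpos)) ε hε.1
        rw [mul_assoc]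
        have := (hCc i).le
        gcongr
      · have := (hCc i).le
        positivity
    rw [← Finset.sum_mul, ← hCm] at h2
    have h3 : -(C * FS) * Wx ≤ Wx * levz (fun x => Real.log (∑ i, term (b i) (χ i) (E i w) ε x))
        v x := by
      have h4 : (C₀ ^ 2 + 1) * Cm ^ 2 ≤ C := by
        rw [hC]
        have : 0 ≤ (m : ℝ) * (K + 1) := by positivity
        linarith
      have h5 : (C₀ ^ 2 + 1) * Cm ^ 2 * (FS * Wx) ≤ C * (FS * Wx) :=
        mul_le_mul_of_nonneg_right h4 (by positivity)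
      linarith
    rw [neg_mul]
    have h4 : Wx * (-(C * FS)) ≤
        Wx * levz (fun x => Real.log (∑ i, term (b i) (χ i) (E i w) ε x)) v x := by
      linarith
    exact le_of_mul_le_mul_left h4 hWx0
  · rintro x₁ ⟨p, hx₁, hp, hP⟩
    have hx₁0 : x₁ ≠ 0 := by
      rintro rfl
      refine hx₁ ?_
      funext k
      apply Complex.ext <;> simp [cc]
    have hn₁ := nsq_pos hx₁0
    refine ⟨m * (4 * C₀ / nsq x₁ + 1) + C * (4 / nsq x₁), fun ε hε x hx hxx => ?_⟩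
    have hA0 : 0 ≤ (m : ℝ) * (4 * C₀ / nsq x₁ + 1) := by positivity
    have hB0 : 0 ≤ C * (4 / nsq x₁) := by positivity
    by_cases hc : nsq x₁ / 4 ≤ nsq x
    · have h1 : ∀ i ∈ (Finset.univ : Finset (Fin m)), term (b i) (χ i) (E i w) ε x ≤
          (4 * C₀ / nsq x₁ + 1) * ε ^ 2 := by
        intro i _
        by_cases hci : 1 - η i / 2 < hcap (b i) x
        · have h2 := (hi i).2.2.2.1.upper w hw.1 x (hsub x hx i hci) p x₁ hx₁ hP
          rw [hp, dist_self, zero_pow two_ne_zero, add_zero] at h2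
          have h3 : nsq (x - x₁) / nsq x ≤ 4 * ε ^ 2 / nsq x₁ := by
            have hnx := nsq_pos hx
            rw [div_le_div_iff₀ hnx hn₁]
            nlinarith [sq_nonneg ε, mul_le_mul hxx hc (by positivity) (sq_nonneg ε)]
          have h4 : nsq (E i w x) ≤ C₀ * (4 * ε ^ 2 / nsq x₁) := by
            refine h2.trans ?_
            gcongr
          have h5 := hχb i (hcap (b i) x)
          have h6 := Pool.Agent.KRFX.NC.nsq_nonneg (E i w x)
          have h7 : term (b i) (χ i) (E i w) ε x ≤ nsq (E i w x) + ε ^ 2 := by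
            unfold term
            nlinarith [sq_nonneg ε]
          refine h7.trans ?_
          calc nsq (E i w x) + ε ^ 2 ≤ C₀ * (4 * ε ^ 2 / nsq x₁) + ε ^ 2 := by linarith
            _ = (4 * C₀ / nsq x₁ + 1) * ε ^ 2 := by ring
        · unfold term
          rw [(hχ0 i _).2 (not_lt.1 hci), zero_mul]
          positivity
      have h2 := Finset.sum_le_card_nsmul _ _ _ h1
      rw [Finset.card_univ, Fintype.card_fin, nsmul_eq_mul] at h2
      refine h2.trans ?_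
      nlinarith [sq_nonneg ε, mul_nonneg hB0 (sq_nonneg ε)]
    · have h1 : nsq x₁ / 4 ≤ ε ^ 2 := by
        have h2 := nsq_sub_le x (x - x₁)
        rw [sub_sub_cancel] at h2
        linarith [not_le.1 hc]
      have h2 := hup ε hε x hx
      have h3 : C ≤ C * (4 / nsq x₁) * ε ^ 2 := by
        have h4 : 1 ≤ 4 / nsq x₁ * ε ^ 2 := by
          rw [div_mul_eq_mul_div, le_div_iff₀ hn₁]
          linarith
        nlinarith
      nlinarith [mul_nonneg hA0 (sq_nonneg ε)]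
  · intro x hx hxΓ
    obtain ⟨c₁, hc₁, hev⟩ := haway w (hS₁S hw.1) x hx hxΓ
    have hCm1 : 0 < Cm := by
      obtain ⟨k, -⟩ := hcov x hx
      exact (hCc k).trans_le (hCmi k)
    have hnx := nsq_pos hx
    refine ⟨c₁ / (C₀ * (nsq x + 2)) / Cm, by positivity, ?_⟩
    have hcx : ∀ᶠ x' in 𝓝 x, nsq x' < nsq x + 1 :=
      (Pool.Agent.KRFX.NC.contDiff_nsq.continuous.continuousAt).eventually_lt
        continuousAt_const (by linarith)
    filter_upwards [hev, hcx, isOpen_ne.mem_nhds hx] with x' h1 h2 hx'0 ε hε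
    obtain ⟨k, hk⟩ := hcov x' hx'0
    have hxk : x' ∈ O k := hsub x' hx'0 k (by linarith [(hi k).2.1])
    obtain ⟨p, y, hy, hP, h3⟩ := (hi k).2.2.2.1.lower w hw.1 x' hxk
    have h4 := h1 p y hy hP
    have hnx' := nsq_pos hx'0
    have hEk := Pool.Agent.KRFX.NC.nsq_nonneg (E k w x')
    have hd : 0 ≤ nsq (x' - y) := Pool.Agent.KRFX.NC.nsq_nonneg _
    have h5 : c₁ ≤ C₀ * (nsq x + 2) * nsq (E k w x') := by
      have h6 : nsq (x' - y) + dist (f p) w ^ 2 ≤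
          (nsq x + 2) * (nsq (x' - y) / nsq x' + dist (f p) w ^ 2) := by
        have h7 : nsq (x' - y) ≤ (nsq x + 2) * (nsq (x' - y) / nsq x') := by
          rw [mul_div_assoc', le_div_iff₀ hnx']
          nlinarith
        nlinarith [sq_nonneg (dist (f p) w)]
      calc c₁ ≤ nsq (x' - y) + dist (f p) w ^ 2 := h4
        _ ≤ (nsq x + 2) * (nsq (x' - y) / nsq x' + dist (f p) w ^ 2) := h6
        _ ≤ (nsq x + 2) * (C₀ * nsq (E k w x')) := by gcongr
        _ = _ := by ring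
    have h6 : c₁ / (C₀ * (nsq x + 2)) ≤ nsq (E k w x') := by
      rw [div_le_iff₀ (by positivity)]
      linarith
    have h7 : nsq (E k w x') / Cm ≤ term (b k) (χ k) (E k w) ε x' := by
      unfold term
      have h8 := hχ1 k _ hk.le
      have h9 : Cm⁻¹ ≤ χ k (hcap (b k) x') :=
        (inv_anti₀ (hCc k) (hCmi k)).trans h8
      rw [div_eq_inv_mul]
      have h10 : 0 ≤ Cm⁻¹ := by positivity
      have h11 : nsq (E k w x') ≤ nsq (E k w x') + ε ^ 2 := by nlinarith [sq_nonneg ε]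
      exact mul_le_mul h9 h11 hEk (h10.trans h9)
    calc c₁ / (C₀ * (nsq x + 2)) / Cm ≤ nsq (E k w x') / Cm := by gcongr
      _ ≤ term (b k) (χ k) (E k w) ε x' := h7
      _ ≤ _ := Finset.single_le_sum (f := fun k => term (b k) (χ k) (E k w) ε x')
        (fun k _ => term_nonneg (hT w hw.1 k) ε x') (Finset.mem_univ k)

end

section

variable {M Z : Type} [MetricSpace M] [CompactSpace M] [MetricSpace Z] {n N : ℕ} {κ P : Type}
  {e : κ → OpenPartialHomeomorph M (Cn n)} {U : P → Set Z} {q : P → Z → Cn N} {f : M → Z}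
  {ψ : κ → ℝ × Cn n → ℝ} {S : Set Z} {L : ℕ} {ι : M → ℙ ℂ (Fin (L + 1) → ℂ)}

/-- `W = ∑ χ_i (hcap (b i) x) (|E_i w x|^2 + ε^2)` -/
theorem exists_weight [Nonempty M] (G : GeoData e U q f ψ) (hι : IsEmbOver e U q f S ι)
    (hS : IsOpen S) {z₀ : Z} (hz₀ : z₀ ∈ S) : ∃ (S' : Set Z) (C : ℝ), IsOpen S' ∧ z₀ ∈ S' ∧
      S' ⊆ S ∧ 0 < C ∧ ∀ w ∈ S', ∃ W, IsWeight (fcone f ι w) W C :=
  exists_weight_of (exists_cover fun _ hx₁ => exists_eq G hι hS hz₀ hx₁)
    fun _ hw _ hx hxw => fcone_away G hι hS hw hx hxw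

end

end Pool.Agent.KRFCh
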