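import Pool.Agent.Work.MP_a2bf38_gt.Ch.Form
import Pool.Agent.Work.MP_a2bf38_gt.Ch.MainOf
import Pool.Agent.Work.MP_a2bf38_gt.Ch.Weight

/-!
# The fibres of an embedding over the base are cut out by forms of bounded degree

An embedding `ι` over an open set `S` of the base of the geometric data is, near every point of
`S`, a projective structure: over a neighbourhood `S'` of the point the images of the fibres are
the common zero sets of forms of one degree `d`.
-/

open scoped ContDiff ENNReal ComplexOrder LinearAlgebra.Projectivization Topology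
open Set Filter Pool.Agent.ToricKRF Pool.Agent.ToricKRF.G Pool.Agent.KRFS Pool.Agent.KRFF
  Pool.Agent.KRFZ Pool.Agent.KRFW

namespace Pool.Agent.KRFCh

theorem exists_isProjOver {M Z : Type} [MetricSpace M] [CompactSpace M] [MetricSpace Z]
    {n N : ℕ} {κ P : Type} {e : κ → OpenPartialHomeomorph M (Cn n)} {U : P → Set Z}
    {q : P → Z → Cn N} {f : M → Z} {ψ : κ → ℝ × Cn n → ℝ} {S : Set Z} {L : ℕ}
    {ι : M → ℙ ℂ (Fin (L + 1) → ℂ)} (G : GeoData e U q f ψ) (hι : IsEmbOver e U q f S ι)
    (hS : IsOpen S) {z₀ : Z} (hz₀ : z₀ ∈ S) :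
    ∃ (S' : Set Z) (d : ℕ), IsOpen S' ∧ z₀ ∈ S' ∧ IsProjOver e U q f S' ι d :=
  isProjOver_of hι hS hz₀ (fun _ => exists_weight G hι hS hz₀) (fun hC => exists_form L hC)

end Pool.Agent.KRFCh
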