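import Mathlib

/-!
# Functions of polynomial growth which are entire on every line are polynomials
-/

open MvPolynomial Finset

namespace Pool.Agent.KRFCh

/-! ## one variable -/

/-- an entire function of one variable of polynomial growth is a polynomial -/
theorem poly_one {f : ℂ → ℂ} (hf : Differentiable ℂ f) {A : ℕ} {K : ℝ}
    (hK : ∀ z, ‖f z‖ ≤ K * (1 + ‖z‖) ^ A) :
    ∃ q : Polynomial ℂ, q.natDegree ≤ A ∧ ∀ z, f z = q.eval z := by
  have hK0 : 0 ≤ K := by
    have := hK 0
    simp only [norm_zero, add_zero, one_pow, mul_one] at this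
    exact (norm_nonneg _).trans this
  have hzero : ∀ n : ℕ, A < n → iteratedDeriv n f 0 = 0 := by
    intro n hn
    have hb : ∀ R : ℝ, 1 ≤ R → ‖iteratedDeriv n f 0‖ ≤ (n.factorial * (K * 2 ^ A)) / R := by
      intro R hR
      have hR0 : 0 < R := by linarith
      have h1 := Complex.norm_iteratedDeriv_le_of_forall_mem_sphere_norm_le (c := 0) (R := R)
        (C := K * (1 + R) ^ A) n hR0 hf.diffContOnCl (by
          intro z hz
          have hz' : ‖z‖ = R := by simpa using hz
          have := hK z
          rwa [hz'] at this)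
      refine h1.trans ?_
      rw [div_le_div_iff₀ (by positivity) hR0]
      have h2 : (1 + R) ^ A ≤ 2 ^ A * R ^ A := by
        rw [← mul_pow]
        exact pow_le_pow_left₀ (by linarith) (by linarith) A
      have h3 : R ^ A * R ≤ R ^ n := by
        rw [← pow_succ]
        exact pow_le_pow_right₀ hR hn
      have hf0 : (0 : ℝ) ≤ n.factorial := Nat.cast_nonneg _
      calc (n.factorial : ℝ) * (K * (1 + R) ^ A) * R
          ≤ (n.factorial : ℝ) * (K * (2 ^ A * R ^ A)) * R := by gcongr
        _ = (n.factorial : ℝ) * (K * 2 ^ A) * (R ^ A * R) := by ring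
        _ ≤ (n.factorial : ℝ) * (K * 2 ^ A) * R ^ n := by
            apply mul_le_mul_of_nonneg_left h3
            positivity
    have hlim : Filter.Tendsto (fun R : ℝ => ((n.factorial : ℝ) * (K * 2 ^ A)) / R) Filter.atTop
        (nhds 0) := Filter.Tendsto.const_div_atTop Filter.tendsto_id _
    have h4 : ‖iteratedDeriv n f 0‖ ≤ 0 :=
      ge_of_tendsto hlim ((Filter.eventually_ge_atTop 1).mono hb)
    exact norm_le_zero_iff.1 h4
  refine ⟨∑ n ∈ Finset.range (A + 1), Polynomial.C ((n.factorial : ℂ)⁻¹ * iteratedDeriv n f 0) *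
    Polynomial.X ^ n, ?_, ?_⟩
  · apply Polynomial.natDegree_sum_le_of_forall_le
    intro n hn
    refine (Polynomial.natDegree_C_mul_X_pow_le _ _).trans ?_
    have := Finset.mem_range.1 hn
    omega
  · intro z
    have h5 := Complex.taylorSeries_eq_of_entire' 0 z hf
    rw [← h5, tsum_eq_sum (s := Finset.range (A + 1))]
    · rw [Polynomial.eval_finsetSum]
      apply Finset.sum_congr rfl
      intro n _
      simp
    · intro n hn
      rw [hzero n (by simpa using hn)]
      simp

/-- the interpolation polynomials for the nodes `0, 1, .., A` -/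
noncomputable def lag (A a : ℕ) : Polynomial ℂ :=
  Lagrange.basis (Finset.range (A + 1)) (fun i : ℕ => (i : ℂ)) a

theorem interp_one {q : Polynomial ℂ} {A : ℕ} (hq : q.natDegree ≤ A) (w : ℂ) :
    q.eval w = ∑ a : Fin (A + 1), q.eval ((a : ℕ) : ℂ) * (lag A a).eval w := by
  have hinj : Set.InjOn (fun i : ℕ => (i : ℂ)) (Finset.range (A + 1)) :=
    fun a _ b _ hab => Nat.cast_injective hab
  have hdeg : q.degree < (Finset.range (A + 1)).card := by
    rw [Finset.card_range]
    refine (Polynomial.degree_le_natDegree).trans_lt ?_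
    exact_mod_cast Nat.lt_succ_of_le hq
  have h := Lagrange.eq_interpolate (s := Finset.range (A + 1)) (v := fun i : ℕ => (i : ℂ))
    (f := q) hinj hdeg
  have h2 := congrArg (Polynomial.eval w) h
  rw [Lagrange.interpolate_apply, Polynomial.eval_finsetSum] at h2
  rw [h2, Finset.sum_range]
  apply Finset.sum_congr rfl
  intro a _
  rw [Polynomial.eval_mul, Polynomial.eval_C]
  rfl

/-! ## several variables -/

/-- `G` is a polynomial of degree at most `A` in each variable -/
def Sep {L : ℕ} (A : ℕ) (G : (Fin L → ℂ) → ℂ) : Prop :=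
  ∀ (x : Fin L → ℂ) (j : Fin L), ∃ q : Polynomial ℂ, q.natDegree ≤ A ∧
    ∀ w, G (Function.update x j w) = q.eval w

/-- the nodes -/
def node {L A : ℕ} (i : Fin L → Fin (A + 1)) : Fin L → ℂ := fun j => ((i j : ℕ) : ℂ)

/-- the interpolation polynomials -/
noncomputable def Lam {L A : ℕ} (i : Fin L → Fin (A + 1)) : MvPolynomial (Fin L) ℂ :=
  ∏ j, Polynomial.aeval (X j) (lag A (i j))

theorem eval_Lam {L A : ℕ} (i : Fin L → Fin (A + 1)) (x : Fin L → ℂ) :
    eval x (Lam i) = ∏ j, (lag A (i j)).eval (x j) := by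
  unfold Lam
  rw [map_prod]
  apply Finset.prod_congr rfl
  intro j _
  rw [← MvPolynomial.coe_aeval_eq_eval, RingHom.coe_coe, ← Polynomial.aeval_algHom_apply, aeval_X]
  exact (Polynomial.aeval_def _ _).trans (by simp [Polynomial.eval₂_eq_eval_map])

theorem interp {L : ℕ} : ∀ {A : ℕ} {G : (Fin L → ℂ) → ℂ}, Sep A G → ∀ x,
    G x = ∑ i : Fin L → Fin (A + 1), G (node i) * ∏ j, (lag A (i j)).eval (x j) := by
  induction L with
  | zero =>
    intro A G _ x
    rw [Fintype.sum_unique]
    simp only [Finset.univ_eq_empty, Finset.prod_empty, mul_one]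
    congr 1
    funext j
    exact j.elim0
  | succ L ih =>
    intro A G hG x
    obtain ⟨q, hq, hqe⟩ := hG x 0
    have h1 : G x = q.eval (x 0) := by rw [← hqe, Function.update_eq_self]
    have h2 : ∀ a : Fin (A + 1), q.eval ((a : ℕ) : ℂ) =
        ∑ i' : Fin L → Fin (A + 1), G (node (Fin.cons a i')) *
          ∏ j, (lag A (i' j)).eval (x j.succ) := by
      intro a
      have hS : Sep A (fun x' : Fin L → ℂ => G (Fin.cons ((a : ℕ) : ℂ) x')) := by
        intro x' j
        obtain ⟨q', hq', hqe'⟩ := hG (Fin.cons ((a : ℕ) : ℂ) x') j.succ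
        refine ⟨q', hq', fun w => ?_⟩
        rw [← hqe', ← Fin.cons_update]
      have h3 := ih hS (Fin.tail x)
      rw [← hqe]
      have h4 : Function.update x 0 ((a : ℕ) : ℂ) = Fin.cons ((a : ℕ) : ℂ) (Fin.tail x) := by
        rw [← Fin.update_cons_zero (x 0) (Fin.tail x), Fin.cons_self_tail]
      rw [h4, h3]
      apply Finset.sum_congr rfl
      intro i' _
      have h5 : (Fin.cons ((a : ℕ) : ℂ) (node i') : Fin (L + 1) → ℂ) =
          node (Fin.cons a i' : Fin (L + 1) → Fin (A + 1)) := by
        funext j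
        refine Fin.cases ?_ (fun j => ?_) j
        · simp [node]
        · simp [node]
      rw [h5]
      rfl
    rw [h1, interp_one hq]
    simp_rw [h2]
    rw [← (Fin.consEquiv (fun _ : Fin (L + 1) => Fin (A + 1))).sum_comp, Fintype.sum_prod_type]
    apply Finset.sum_congr rfl
    intro a _
    rw [Finset.sum_mul]
    apply Finset.sum_congr rfl
    intro i' _
    have h6 : (Fin.consEquiv (fun _ : Fin (L + 1) => Fin (A + 1))) (a, i') = Fin.cons a i' := rfl
    rw [Fin.prod_univ_succ, h6]
    simp only [Fin.cons_zero, Fin.cons_succ]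
    ring

/-- the interpolating polynomial -/
noncomputable def ipoly {L : ℕ} (A : ℕ) (G : (Fin L → ℂ) → ℂ) : MvPolynomial (Fin L) ℂ :=
  ∑ i : Fin L → Fin (A + 1), C (G (node i)) * Lam i

theorem eval_ipoly {L A : ℕ} {G : (Fin L → ℂ) → ℂ} (hG : Sep A G) (x : Fin L → ℂ) :
    eval x (ipoly A G) = G x := by
  rw [interp hG x]
  unfold ipoly
  rw [map_sum]
  apply Finset.sum_congr rfl
  intro i _
  rw [map_mul, eval_C, eval_Lam]

/-- the sum of the absolute values of all coefficients of the interpolation polynomials -/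
noncomputable def lsum (L A : ℕ) : ℝ :=
  ∑ i : Fin L → Fin (A + 1), ∑ m ∈ (Lam i).support, ‖coeff m (Lam i)‖

theorem lsum_nonneg (L A : ℕ) : 0 ≤ lsum L A :=
  Finset.sum_nonneg fun _ _ => Finset.sum_nonneg fun _ _ => norm_nonneg _

theorem coeff_Lam_le {L A : ℕ} (i : Fin L → Fin (A + 1)) (m : Fin L →₀ ℕ) :
    ‖coeff m (Lam i)‖ ≤ ∑ m ∈ (Lam i).support, ‖coeff m (Lam i)‖ := by
  by_cases hm : m ∈ (Lam i).support
  · exact Finset.single_le_sum (f := fun m => ‖coeff m (Lam i)‖) (fun _ _ => norm_nonneg _) hm
  · rw [MvPolynomial.notMem_support_iff.1 hm, norm_zero]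
    exact Finset.sum_nonneg fun _ _ => norm_nonneg _

theorem coeff_ipoly_le {L A : ℕ} {G : (Fin L → ℂ) → ℂ} {B : ℝ}
    (hB : ∀ i : Fin L → Fin (A + 1), ‖G (node i)‖ ≤ B) (m : Fin L →₀ ℕ) :
    ‖coeff m (ipoly A G)‖ ≤ lsum L A * B := by
  have hB0 : 0 ≤ B := (norm_nonneg _).trans (hB 0)
  unfold ipoly lsum
  rw [coeff_sum, Finset.sum_mul]
  refine (norm_sum_le _ _).trans (Finset.sum_le_sum fun i _ => ?_)
  rw [coeff_C_mul, norm_mul, mul_comm]
  exact mul_le_mul (coeff_Lam_le i m) (hB i) (norm_nonneg _)
    (Finset.sum_nonneg fun _ _ => norm_nonneg _)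

/-- a homogeneous polynomial at a multiple -/
theorem eval_smul_hom {L n : ℕ} {P : MvPolynomial (Fin L) ℂ} (hP : P.IsHomogeneous n) (s : ℂ)
    (x : Fin L → ℂ) : eval (s • x) P = s ^ n * eval x P := by
  rw [MvPolynomial.eval_eq, MvPolynomial.eval_eq, Finset.mul_sum]
  apply Finset.sum_congr rfl
  intro d hd
  have hdeg : ∑ i ∈ d.support, d i = n := by
    have := hP (MvPolynomial.mem_support_iff.1 hd)
    rw [← this, Finsupp.weight_apply, Finsupp.sum]
    simp
  rw [← hdeg, ← Finset.prod_pow_eq_pow_sum]
  simp only [Pi.smul_apply, smul_eq_mul, mul_pow, Finset.prod_mul_distrib]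
  ring

/-- a polynomial of growth `A` has total degree at most `A` -/
theorem totalDegree_le_of_growth {L A : ℕ} {P : MvPolynomial (Fin L) ℂ} {K : ℝ}
    (hK : ∀ x, ‖eval x P‖ ≤ K * (1 + ‖x‖) ^ A) : P.totalDegree ≤ A := by
  have hK0 : 0 ≤ K := by
    have := hK 0
    simp only [norm_zero, add_zero, one_pow, mul_one] at this
    exact (norm_nonneg _).trans this
  have hhom : ∀ n, A < n → homogeneousComponent n P = 0 := by
    intro n hn
    apply MvPolynomial.funext
    intro x
    rw [map_zero]
    set D := P.totalDegree with hD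
    set q : Polynomial ℂ := ∑ k ∈ Finset.range (D + 1),
      Polynomial.C (eval x (homogeneousComponent k P)) * Polynomial.X ^ k with hq
    have hqe : ∀ s : ℂ, eval (s • x) P = q.eval s := by
      intro s
      conv_lhs => rw [← MvPolynomial.sum_homogeneousComponent P]
      rw [map_sum, hq, Polynomial.eval_finsetSum]
      apply Finset.sum_congr rfl
      intro k _
      rw [eval_smul_hom (homogeneousComponent_isHomogeneous k P), Polynomial.eval_mul,
        Polynomial.eval_C, Polynomial.eval_pow, Polynomial.eval_X, mul_comm]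
    obtain ⟨q', hq', hqe'⟩ := poly_one (f := fun s => eval (s • x) P) (A := A)
      (K := K * (1 + ‖x‖) ^ A) (by
        have : (fun s : ℂ => eval (s • x) P) = fun s => q.eval s := funext hqe
        rw [this]
        exact q.differentiable) (by
        intro s
        refine (hK _).trans ?_
        rw [mul_assoc, ← mul_pow]
        apply mul_le_mul_of_nonneg_left _ hK0
        apply pow_le_pow_left₀ (by positivity)
        rw [norm_smul]
        nlinarith [norm_nonneg s, norm_nonneg x])
    have hqq : q = q' := Polynomial.funext fun s => by rw [← hqe s, ← hqe' s]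
    have hc : q.coeff n = 0 := by
      rw [hqq]
      exact Polynomial.coeff_eq_zero_of_natDegree_lt (by omega)
    by_cases hnD : n ≤ D
    · rw [hq, Polynomial.finsetSum_coeff] at hc
      rw [Finset.sum_eq_single n] at hc
      · simpa using hc
      · intro k _ hkn
        simp [Polynomial.coeff_X_pow, Ne.symm hkn]
      · intro h
        exact absurd (Finset.mem_range.2 (by omega)) h
    · rw [homogeneousComponent_eq_zero n P (by omega), map_zero]
  unfold MvPolynomial.totalDegree
  refine Finset.sup_le fun m hm => ?_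
  by_contra hlt
  push Not at hlt
  have h1 := hhom _ hlt
  have h2 := congrArg (coeff m) h1
  rw [coeff_homogeneousComponent] at h2
  simp only [coeff_zero, ite_eq_right_iff] at h2
  exact (MvPolynomial.mem_support_iff.1 hm) (h2 rfl)

/-- **Liouville.**  A function of polynomial growth which is entire in every variable is a
polynomial; its coefficients are bounded by its values at the nodes. -/
theorem liouville {L : ℕ} {G : (Fin L → ℂ) → ℂ}
    (hG : ∀ (x : Fin L → ℂ) (j : Fin L), Differentiable ℂ fun w => G (Function.update x j w))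
    {A : ℕ} {K : ℝ} (hK : ∀ x, ‖G x‖ ≤ K * (1 + ‖x‖) ^ A) :
    ∃ P : MvPolynomial (Fin L) ℂ, P.totalDegree ≤ A ∧ (∀ x, G x = eval x P) ∧
      ∀ m, ‖coeff m P‖ ≤ lsum L A * (K * (1 + A) ^ A) := by
  have hK0 : 0 ≤ K := by
    have := hK 0
    simp only [norm_zero, add_zero, one_pow, mul_one] at this
    exact (norm_nonneg _).trans this
  have hS : Sep A G := by
    intro x j
    refine poly_one (hG x j) (K := K * (1 + ‖x‖) ^ A) fun w => (hK _).trans ?_
    rw [mul_assoc, ← mul_pow]
    apply mul_le_mul_of_nonneg_left _ hK0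
    apply pow_le_pow_left₀ (by positivity)
    have h1 : ‖Function.update x j w‖ ≤ ‖x‖ + ‖w‖ := by
      rw [pi_norm_le_iff_of_nonneg (by positivity)]
      intro k
      by_cases hk : k = j
      · subst hk
        rw [Function.update_self]
        linarith [norm_nonneg x]
      · rw [Function.update_of_ne hk]
        linarith [norm_le_pi_norm x k, norm_nonneg w]
    nlinarith [norm_nonneg w, norm_nonneg x]
  refine ⟨ipoly A G, totalDegree_le_of_growth (K := K) fun x => ?_, fun x => (eval_ipoly hS x).symm,
    fun m => coeff_ipoly_le (fun i => ?_) m⟩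
  · rw [eval_ipoly hS]
    exact hK x
  · refine (hK _).trans ?_
    apply mul_le_mul_of_nonneg_left _ hK0
    apply pow_le_pow_left₀ (by positivity)
    have h1 : ‖(node i : Fin L → ℂ)‖ ≤ A := by
      rw [pi_norm_le_iff_of_nonneg (by positivity)]
      intro k
      unfold node
      rw [Complex.norm_natCast]
      have := (i k).2
      exact_mod_cast Nat.le_of_lt_succ this
    linarith

end Pool.Agent.KRFCh
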