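import Pool.Agent.Work.MP_a2bf38_gt.Ch.Defs

/-!
# The modules of part A of KRF VIII: the fibres are zero sets of forms of bounded degree
-/

open scoped ContDiff ENNReal ComplexOrder LinearAlgebra.Projectivization Topology
open Set Filter MeasureTheory Pool.Agent.ToricKRF Pool.Agent.ToricKRF.G Pool.Agent.KRFS
  Pool.Agent.KRFF Pool.Agent.KRFZ Pool.Agent.KRFW

namespace Pool.Agent.KRFCh

section

variable {M Z : Type} [MetricSpace M] [CompactSpace M] [MetricSpace Z] {n N : ℕ} {κ P : Type}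
  {e : κ → OpenPartialHomeomorph M (Cn n)} {U : P → Set Z} {q : P → Z → Cn N} {f : M → Z}
  {ψ : κ → ℝ × Cn n → ℝ} {S : Set Z} {L : ℕ} {ι : M → ℙ ℂ (Fin (L + 1) → ℂ)}

/-! ## A1. `Ch/Eq.lean` -/

/-- local equations: `E w x = X - Ψ (Λ X)`, `X = (x / x_a, q_j w)`, where `Λ` is a holomorphic left
inverse of the immersion `Ψ = (F / F_a, q_j ∘ f)`; or `E = const` away from the fibre -/
theorem exists_eq [Nonempty M] (G : GeoData e U q f ψ) (hι : IsEmbOver e U q f S ι)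
    (hS : IsOpen S) {z₀ : Z} (hz₀ : z₀ ∈ S) {x₁ : Cn (L + 1)} (hx₁ : x₁ ≠ 0) :
    ∃ (O : Set (Cn (L + 1))) (S' : Set Z) (E : Z → Cn (L + 1) → Cn (L + 1 + N)) (C : ℝ),
      x₁ ∈ O ∧ IsOpen S' ∧ z₀ ∈ S' ∧ S' ⊆ S ∧ 0 < C ∧ IsEq f ι O S' E C := sorry

/-! ## A1b. `Ch/Away.lean` -/

theorem fcone_away (G : GeoData e U q f ψ) (hι : IsEmbOver e U q f S ι) (hS : IsOpen S) {w : Z}
    (hw : w ∈ S) {x : Cn (L + 1)} (hx : x ≠ 0) (hxw : x ∉ fcone f ι w) :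
    ∃ c > 0, ∀ᶠ x₁ in 𝓝 x, ∀ (p : M) (x' : Cn (L + 1)) (h : cc x' ≠ 0),
      ι p = Projectivization.mk ℂ (cc x') h → c ≤ nsq (x₁ - x') + dist (f p) w ^ 2 := sorry

/-! ## A2. `Ch/Cover.lean` -/

omit [CompactSpace M] in
theorem exists_cover {r : ℕ} {z₀ : Z} (h : ∀ x₁ : Cn (L + 1), x₁ ≠ 0 →
    ∃ (O : Set (Cn (L + 1))) (S' : Set Z) (E : Z → Cn (L + 1) → Cn r) (C : ℝ),
      x₁ ∈ O ∧ IsOpen S' ∧ z₀ ∈ S' ∧ S' ⊆ S ∧ 0 < C ∧ IsEq f ι O S' E C) :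
    ∃ (S' : Set Z) (C : ℝ) (m : ℕ) (b : Fin m → Cn (L + 1)) (η : Fin m → ℝ)
      (O : Fin m → Set (Cn (L + 1))) (E : Fin m → Z → Cn (L + 1) → Cn r),
      IsOpen S' ∧ z₀ ∈ S' ∧ S' ⊆ S ∧ 0 < C ∧
      (∀ i, b i ≠ 0 ∧ 0 < η i ∧ η i ≤ 1 ∧ IsEq f ι (O i) S' (E i) C ∧
        ∀ x, x ≠ 0 → 1 - η i < hcap (b i) x → x ∈ O i) ∧
      ∀ x, x ≠ 0 → ∃ i, 1 - η i / 4 < hcap (b i) x := sorry

end

/-! ## A3. `Ch/Cap.lean` -/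

theorem contDiffOn_hcap {l : ℕ} (b : Cn l) : ContDiffOn ℝ ∞ (hcap b) {x | x ≠ 0} := sorry

theorem exists_cap (l : ℕ) {η : ℝ} (hη : 0 < η) (hη1 : η ≤ 1) : ∃ (χ : ℝ → ℝ) (C : ℝ),
    ContDiff ℝ ∞ χ ∧ 0 < C ∧ (∀ s, 0 ≤ χ s ∧ χ s ≤ 1) ∧ (∀ s, χ s = 0 ↔ s ≤ 1 - η / 2) ∧
    (∀ s, 1 - η / 4 ≤ s → C⁻¹ ≤ χ s) ∧
    ∀ b x v : Cn l, b ≠ 0 → x ≠ 0 → 1 - η / 2 < hcap b x →
      -C * levz (fun x => Real.log (nsq x)) v x ≤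
        χ (hcap b x) * levz (fun x => Real.log (χ (hcap b x))) v x := sorry

/-! ## A4. `Ch/LogSum.lean`, `Ch/Weight.lean` -/

/-- convexity of log-sum-exp, for functions which may vanish -/
theorem levz_log_sum {l m : ℕ} {F : Fin m → Cn l → ℝ} {x v : Cn l} {a : Fin m → ℝ}
    (hF : ∀ i, ContDiffAt ℝ 2 (F i) x) (h0 : ∀ i, ∀ᶠ x' in 𝓝 x, 0 ≤ F i x')
    (hpos : ∃ i, 0 < F i x) (ha0 : ∀ i, 0 ≤ a i)
    (ha : ∀ i, 0 < F i x → -a i ≤ F i x * levz (fun x => Real.log (F i x)) v x) :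
    -∑ i, a i ≤ (∑ i, F i x) * levz (fun x => Real.log (∑ i, F i x)) v x := sorry

/-- `log (|E|^2 + ε^2)` is plurisubharmonic -/
theorem levz_log_nsq_add_nonneg {l r : ℕ} {E : Cn l → Cn r} {O : Set (Cn l)} (hO : IsOpen O)
    (hE : HolOn E O) {x : Cn l} (hx : x ∈ O) (v : Cn l) {ε : ℝ} (hε : 0 < ε) :
    0 ≤ levz (fun x => Real.log (nsq (E x) + ε ^ 2)) v x := sorry

section

variable {M Z : Type} [MetricSpace M] [CompactSpace M] [MetricSpace Z] {n N : ℕ} {κ P : Type}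
  {e : κ → OpenPartialHomeomorph M (Cn n)} {U : P → Set Z} {q : P → Z → Cn N} {f : M → Z}
  {ψ : κ → ℝ × Cn n → ℝ} {S : Set Z} {L : ℕ} {ι : M → ℙ ℂ (Fin (L + 1) → ℂ)}

/-- `W = ∑ χ_i (hcap (b i) x) (|E_i w x|^2 + ε^2)` -/
theorem exists_weight [Nonempty M] (G : GeoData e U q f ψ) (hι : IsEmbOver e U q f S ι)
    (hS : IsOpen S) {z₀ : Z} (hz₀ : z₀ ∈ S) : ∃ (S' : Set Z) (C : ℝ), IsOpen S' ∧ z₀ ∈ S' ∧
      S' ⊆ S ∧ 0 < C ∧ ∀ w ∈ S', ∃ W, IsWeight (fcone f ι w) W C := sorry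

end

/-! ## A5. `Ch/HormCL.lean` -/

theorem horm_CL {L : ℕ} {ρ : Cn L → ℝ} (hρ : ContDiff ℝ ∞ ρ)
    (hlev : ∀ t v, levz (fun t => Real.log (1 + nsq t)) v t ≤ levz ρ v t) {u : Cn L → ℂ}
    (hu : ContDiff ℝ ∞ u) (hc : HasCompactSupport u) {B : Cn L → ℝ} (hB : Continuous B)
    (hB0 : ∀ t, 0 ≤ B t) (hBc : HasCompactSupport B)
    (hBu : ∀ t v, ‖dbv u v t‖ ^ 2 ≤ B t * levz (fun t => Real.log (1 + nsq t)) v t) :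
    ∃ b : Cn L → ℂ, NF.HolC b univ ∧
      ∫⁻ t, ENNReal.ofReal (‖u t - b t‖ ^ 2 * Real.exp (-ρ t)) ≤
        ∫⁻ t, ENNReal.ofReal (B t * Real.exp (-ρ t)) := sorry

/-! ## A6. `Ch/Poly.lean` -/

theorem exists_poly {L A : ℕ} {F : Cn L → ℂ} (hF : NF.HolC F univ)
    (hI : ∫⁻ t, ENNReal.ofReal (‖F t‖ ^ 2 * ((1 + nsq t) ^ A)⁻¹) ≠ ⊤) :
    ∃ P : MvPolynomial (Fin L) ℂ, P.totalDegree ≤ A ∧ ∀ t, F t = MvPolynomial.eval (cc t) P := sorry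

/-! ## A7. `Ch/Slice.lean` -/

theorem cc_slice {L : ℕ} (a : Fin (L + 1)) (t : Cn L) :
    cc (slice a t) = a.insertNth (1 : ℂ) (cc t) := sorry

theorem nsq_slice {L : ℕ} (a : Fin (L + 1)) (t : Cn L) : nsq (slice a t) = 1 + nsq t := sorry

theorem nsq_slice_sub {L : ℕ} (a : Fin (L + 1)) (t t' : Cn L) :
    nsq (slice a t - slice a t') = nsq (t - t') := sorry

theorem contDiff_slice {L : ℕ} (a : Fin (L + 1)) : ContDiff ℝ ∞ (slice (L := L) a) := sorry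

theorem levz_slice {L : ℕ} (a : Fin (L + 1)) {H : Cn (L + 1) → ℝ} {t : Cn L}
    (hH : ContDiffAt ℝ 2 H (slice a t)) (v : Cn L) :
    levz (fun t => H (slice a t)) v t = levz H (slice a v - slice a 0) (slice a t) := sorry

theorem exists_slice {L : ℕ} {x : Cn (L + 1)} (hx : x ≠ 0) : ∃ (a : Fin (L + 1)) (t : Cn L)
    (c : ℂ), c ≠ 0 ∧ cc x = c • cc (slice a t) := sorry

/-- a cut-off function at `t₀` -/
theorem exists_cutoff {L : ℕ} (t₀ : Cn L) {r : ℝ} (hr : 0 < r) : ∃ (u : Cn L → ℂ)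
    (B : Cn L → ℝ), ContDiff ℝ ∞ u ∧ HasCompactSupport u ∧ Continuous B ∧ HasCompactSupport B ∧
    (∀ t, 0 ≤ B t) ∧ (∀ t, nsq (t - t₀) ≤ r ^ 2 / 4 → u t = 1 ∧ B t = 0) ∧
    (∀ t, r ^ 2 ≤ nsq (t - t₀) → u t = 0 ∧ B t = 0) ∧
    ∀ t v, ‖dbv u v t‖ ^ 2 ≤ B t * levz (fun t => Real.log (1 + nsq t)) v t := sorry

/-! ## A7. `Ch/Dual.lean` -/

theorem exists_poly_of_approx {L d : ℕ} (T : Set (Fin L → ℂ)) (t₀ : Fin L → ℂ)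
    (h : ∀ s : Finset (Fin L → ℂ), (s : Set (Fin L → ℂ)) ⊆ T → ∀ δ > 0,
      ∃ P : MvPolynomial (Fin L) ℂ, P.totalDegree ≤ d ∧
        ‖MvPolynomial.eval t₀ P - 1‖ ≤ δ ∧ ∀ t ∈ s, ‖MvPolynomial.eval t P‖ ≤ δ) :
    ∃ P : MvPolynomial (Fin L) ℂ, P.totalDegree ≤ d ∧ MvPolynomial.eval t₀ P ≠ 0 ∧
      ∀ t ∈ T, MvPolynomial.eval t P = 0 := sorry

theorem exists_homog {L d : ℕ} (a : Fin (L + 1)) (P : MvPolynomial (Fin L) ℂ)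
    (hP : P.totalDegree ≤ d) : ∃ Q : MvPolynomial (Fin (L + 1)) ℂ, Q.IsHomogeneous (d + 1) ∧
      (∀ (c : ℂ) (t : Fin L → ℂ), MvPolynomial.eval (c • a.insertNth (1 : ℂ) t) Q =
        c ^ (d + 1) * MvPolynomial.eval t P) ∧
      ∀ x : Fin (L + 1) → ℂ, x a = 0 → MvPolynomial.eval x Q = 0 := sorry

/-! ## A7. `Ch/Form.lean` -/

/-- on one slice, `ρ = (L + 1) log (W ε) + (L + 1) log (|t - t₀|^2 + ε^2) + A log (1 + |t|^2)` -/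
theorem exists_approx (L : ℕ) {C : ℝ} (hC : 0 < C) : ∃ d : ℕ, ∀ (Γ : Set (Cn (L + 1)))
    (W : ℝ → Cn (L + 1) → ℝ), IsWeight Γ W C → ∀ (a : Fin (L + 1)) (t₀ : Cn L),
      slice a t₀ ∉ Γ → ∀ s : Finset (Cn L), (∀ t ∈ s, slice a t ∈ Γ) → ∀ δ > 0,
        ∃ P : MvPolynomial (Fin L) ℂ, P.totalDegree ≤ d ∧
          ‖MvPolynomial.eval (cc t₀) P - 1‖ ≤ δ ∧ ∀ t ∈ s, ‖MvPolynomial.eval (cc t) P‖ ≤ δ := sorry

theorem exists_form (L : ℕ) {C : ℝ} (hC : 0 < C) : ∃ d : ℕ, ∀ (Γ : Set (Cn (L + 1)))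
    (W : ℝ → Cn (L + 1) → ℝ), IsWeight Γ W C → (∀ x ∈ Γ, x ≠ 0) →
      (∀ x ∈ Γ, ∀ y : Cn (L + 1), ∀ c : ℂ, c ≠ 0 → cc y = c • cc x → y ∈ Γ) →
      ∀ x₀ : Cn (L + 1), x₀ ≠ 0 → x₀ ∉ Γ → ∃ Q : MvPolynomial (Fin (L + 1)) ℂ,
        Q.IsHomogeneous d ∧ (∀ x ∈ Γ, MvPolynomial.eval (cc x) Q = 0) ∧
          MvPolynomial.eval (cc x₀) Q ≠ 0 := sorry

/-! ## A8. `Ch/Main.lean` -/

theorem exists_isProjOver {M Z : Type} [MetricSpace M] [CompactSpace M] [MetricSpace Z]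
    {n N : ℕ} {κ P : Type} {e : κ → OpenPartialHomeomorph M (Cn n)} {U : P → Set Z}
    {q : P → Z → Cn N} {f : M → Z} {ψ : κ → ℝ × Cn n → ℝ} {S : Set Z} {L : ℕ}
    {ι : M → ℙ ℂ (Fin (L + 1) → ℂ)} (G : GeoData e U q f ψ) (hι : IsEmbOver e U q f S ι)
    (hS : IsOpen S) {z₀ : Z} (hz₀ : z₀ ∈ S) :
    ∃ (S' : Set Z) (d : ℕ), IsOpen S' ∧ z₀ ∈ S' ∧ IsProjOver e U q f S' ι d := sorry

end Pool.Agent.KRFCh
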